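import Mathlib
import Pool.Agent.Lib.MP_053343_lc.Defs

/-!
The null ideal on the Cantor space and its invariants `add`, `cofin`, `cof` in the sense of a
transitive model `M` of set theory.
-/

set_option autoImplicit false

namespace Pool.Agent.Lib.MP_145df4_lc

open Pool.Agent.Lib.MP_053343_lc

/-- The axiom of choice in `M`: every set in `M` has a choice function in `M`. -/
def AC (M : ZFSet.{0}) : Prop :=
  ∀ a ∈ M, ∃ f ∈ M, ∀ x ∈ a, x ≠ ∅ → ∃ y ∈ x, ∀ z, ZFSet.pair x z ∈ f ↔ z = y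

/-- A set of naturals as a subset of `ω`. -/
noncomputable def enc (A : Set ℕ) : ZFSet.{0} := ZFSet.range fun n : A => nat n

/-- A point of the Cantor space as the subset of `ω` with that characteristic function. -/
noncomputable def rc (z : ℕ → Bool) : ZFSet.{0} := enc {n | z n = true}

/-- A subset of the Cantor space as a set. -/
noncomputable def sc (A : Set (ℕ → Bool)) : ZFSet.{0} := ZFSet.range fun z : A => rc z

/-- A family of subsets of the Cantor space as a set. -/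
noncomputable def fc (S : Set (Set (ℕ → Bool))) : ZFSet.{0} := ZFSet.range fun A : S => sc A

/-- The point `z` lies in the basic clopen set of the finite string `s`. -/
def Pre (s : List Bool) (z : ℕ → Bool) : Prop := ∀ (i : ℕ) (h : i < s.length), s[i] = z i

/-- The sum of the measures `2 ^ (-|s|)` of the basic clopen sets of the strings in `U`. -/
noncomputable def wt (U : Set (List Bool)) : ENNReal := ∑' s : U, 2⁻¹ ^ s.1.length

/-- `A` is in `M` and is Lebesgue null in the sense of `M`. -/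
def Null (M : ZFSet.{0}) (A : Set (ℕ → Bool)) : Prop :=
  sc A ∈ M ∧ ∀ k : ℕ, ∃ U : Set (List Bool), enc (Encodable.encode '' U) ∈ M ∧
    (∀ z ∈ A, ∃ s ∈ U, Pre s z) ∧ wt U ≤ 2⁻¹ ^ k

/-- The restriction of `F` to `D` is a function in `M`. -/
def Graph (M D : ZFSet.{0}) (F : ZFSet.{0} → ZFSet.{0}) : Prop :=
  ∃ f ∈ M, ∀ z, z ∈ f ↔ ∃ α ∈ D, z = ZFSet.pair α (F α)

/-- In `M` there is a `γ`-indexed family of null sets whose union is not null. -/
def AddWit (M γ : ZFSet.{0}) : Prop :=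
  ∃ F : ZFSet.{0} → Set (ℕ → Bool), Graph M γ (fun α => sc (F α)) ∧
    (∀ α ∈ γ, Null M (F α)) ∧ ¬ Null M {z | ∃ α ∈ γ, z ∈ F α}

/-- In `M` there is a `γ`-indexed family of null sets cofinal in the null ideal. -/
def CofWit (M γ : ZFSet.{0}) : Prop :=
  ∃ F : ZFSet.{0} → Set (ℕ → Bool), Graph M γ (fun α => sc (F α)) ∧
    (∀ α ∈ γ, Null M (F α)) ∧ ∀ A, Null M A → ∃ α ∈ γ, A ⊆ F α

/-- `I` is a sigma-ideal in the sense of `M`. -/
def SigmaId (M : ZFSet.{0}) (I : Set (Set (ℕ → Bool))) : Prop :=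
  ∅ ∈ I ∧ (∀ A ∈ I, ∀ B, sc B ∈ M → B ⊆ A → B ∈ I) ∧ (∀ A ∈ I, ∀ B ∈ I, A ∪ B ∈ I) ∧
    ∀ A : ℕ → Set (ℕ → Bool),
      (∃ g ∈ M, ∀ z, z ∈ g ↔ ∃ n, z = ZFSet.pair (nat n) (sc (A n))) →
        (∀ n, A n ∈ I) → (⋃ n, A n) ∈ I

/-- The ordinal `γ` is a limit and in `M` the null ideal is the union of a strictly increasing
`γ`-sequence of sigma-ideals. -/
def ChainWit (M γ : ZFSet.{0}) : Prop :=
  γ ≠ ∅ ∧ (∀ α ∈ γ, ∃ β ∈ γ, α ∈ β) ∧
    ∃ I : ZFSet.{0} → Set (Set (ℕ → Bool)), Graph M γ (fun α => fc (I α)) ∧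
      (∀ α ∈ γ, SigmaId M (I α)) ∧ (∀ α ∈ γ, ∀ β ∈ γ, α ∈ β → I α ⊂ I β) ∧
        ∀ A, Null M A ↔ ∃ α ∈ γ, A ∈ I α

/-- `κ` is the least ordinal of `M` with property `W`. -/
def LeastOrd (M : ZFSet.{0}) (W : ZFSet.{0} → Prop) (κ : ZFSet.{0}) : Prop :=
  κ ∈ M ∧ κ.IsOrdinal ∧ W κ ∧ ∀ γ ∈ κ, ¬ W γ

end Pool.Agent.Lib.MP_145df4_lc
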