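import Mathlib
import Pool.Agent.Lib.MP_145df4_lc.NDefs

/-! Weights of sets of strings. -/

set_option autoImplicit false

namespace Pool.Agent.Lib.MP_145df4_lc

open scoped ENNReal

theorem wt_mono {U W : Set (List Bool)} (h : U ⊆ W) : wt U ≤ wt W :=
  ENNReal.tsum_mono_subtype (fun s : List Bool => (2⁻¹ : ℝ≥0∞) ^ s.length) h

theorem wt_empty : wt ∅ = 0 := by simp [wt]

theorem wt_iUnion {ι : Type} (t : ι → Set (List Bool)) : wt (⋃ i, t i) ≤ ∑' i, wt (t i) :=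
  ENNReal.tsum_iUnion_le_tsum (fun s : List Bool => (2⁻¹ : ℝ≥0∞) ^ s.length) t

theorem wt_finset (F : Finset (List Bool)) : wt ↑F = ∑ s ∈ F, (2⁻¹ : ℝ≥0∞) ^ s.length :=
  Finset.tsum_subtype' F (fun s : List Bool => (2⁻¹ : ℝ≥0∞) ^ s.length)

theorem wt_le_of_finite {U : Set (List Bool)} {c : ℝ≥0∞}
    (h : ∀ F : Finset (List Bool), ↑F ⊆ U → wt ↑F ≤ c) : wt U ≤ c := by
  classical
  unfold wt
  rw [ENNReal.tsum_eq_iSup_sum]
  refine iSup_le fun s => ?_
  have := h (s.map (Function.Embedding.subtype _)) (by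
    intro x hx
    obtain ⟨y, _, rfl⟩ := Finset.mem_map.1 (Finset.mem_coe.1 hx)
    exact y.2)
  rw [wt_finset, Finset.sum_map] at this
  exact this

theorem wt_union_disjoint {U W : Set (List Bool)} (h : Disjoint U W) :
    wt (U ∪ W) = wt U + wt W :=
  Summable.tsum_union_disjoint (f := fun s : List Bool => (2⁻¹ : ℝ≥0∞) ^ s.length) h
    ENNReal.summable ENNReal.summable

theorem le_wt {U : Set (List Bool)} {s : List Bool} (h : s ∈ U) :
    (2⁻¹ : ℝ≥0∞) ^ s.length ≤ wt U :=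
  ENNReal.le_tsum (f := fun s : U => (2⁻¹ : ℝ≥0∞) ^ s.1.length) ⟨s, h⟩

theorem half_pow_anti {m n : ℕ} (h : m ≤ n) : (2⁻¹ : ℝ≥0∞) ^ n ≤ 2⁻¹ ^ m :=
  pow_le_pow_of_le_one (by simp) (by simp) h

theorem length_ge_of_wt {U : Set (List Bool)} {s : List Bool} {k : ℕ} (h : s ∈ U)
    (hw : wt U ≤ 2⁻¹ ^ k) : k ≤ s.length := by
  by_contra hc
  push Not at hc
  have h1 := (le_wt h).trans hw
  have h2 : (2⁻¹ : ℝ≥0∞) ^ k < 2⁻¹ ^ s.length := by
    rw [← ENNReal.inv_pow, ← ENNReal.inv_pow, ENNReal.inv_lt_inv]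
    exact_mod_cast Nat.pow_lt_pow_right (by norm_num) hc
  exact absurd h1 (not_le.2 h2)

theorem tsum_half_add (m : ℕ) : ∑' n : ℕ, (2⁻¹ : ℝ≥0∞) ^ (m + 1 + n) = 2⁻¹ ^ m := by
  simp only [pow_add, ENNReal.tsum_mul_left, ENNReal.tsum_geometric_two, pow_one]
  rw [mul_assoc, ENNReal.inv_mul_cancel (by simp) (by simp), mul_one]

theorem wt_tail (X : ℕ → ℕ → Set (List Bool)) (h : ∀ j n, wt (X j n) ≤ 2⁻¹ ^ n) (k : ℕ) :
    wt {s | ∃ j n, k + j + 2 ≤ n ∧ s ∈ X j n} ≤ 2⁻¹ ^ k := by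
  have e : {s | ∃ j n, k + j + 2 ≤ n ∧ s ∈ X j n} = ⋃ j, ⋃ i, X j (k + 1 + j + 1 + i) := by
    ext s
    simp only [Set.mem_ofPred_eq, Set.mem_iUnion]
    constructor
    · rintro ⟨j, n, h1, h2⟩
      exact ⟨j, n - (k + j + 2), by rwa [show k + 1 + j + 1 + (n - (k + j + 2)) = n by omega]⟩
    · rintro ⟨j, i, h2⟩
      exact ⟨j, _, by omega, h2⟩
  rw [e, ← tsum_half_add k]
  refine (wt_iUnion _).trans (ENNReal.tsum_le_tsum fun j => ?_)
  rw [← tsum_half_add (k + 1 + j)]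
  exact (wt_iUnion _).trans (ENNReal.tsum_le_tsum fun i => h _ _)

theorem wt_total (X : ℕ → Set (List Bool)) (h : ∀ k, wt (X k) ≤ 2⁻¹ ^ k) :
    wt (⋃ k, X k) ≤ 2 := by
  rw [← ENNReal.tsum_geometric_two]
  exact (wt_iUnion _).trans (ENNReal.tsum_le_tsum h)

theorem wt_biUnion {ι : Type} [DecidableEq (List Bool)] (E : Finset ι)
    (v : ι → Finset (List Bool)) {n : ℕ} (h : ∀ i ∈ E, wt ↑(v i) ≤ 2⁻¹ ^ (2 * n))
    (hc : E.card ≤ n) : wt ↑(E.biUnion v) ≤ 2⁻¹ ^ n := by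
  rw [Finset.coe_biUnion]
  refine (ENNReal.tsum_biUnion_le (fun s : List Bool => (2⁻¹ : ℝ≥0∞) ^ s.length) E
    (fun i => (v i : Set (List Bool)))).trans ?_
  refine (Finset.sum_le_card_nsmul E _ _ h).trans ?_
  have h1 : (E.card : ℝ≥0∞) ≤ 2 ^ n := by
    exact_mod_cast hc.trans (Nat.lt_two_pow_self).le
  rw [nsmul_eq_mul, two_mul, pow_add, ← mul_assoc]
  refine le_trans (mul_le_mul_left (mul_le_mul_left h1 _) _) ?_
  rw [← mul_pow, ENNReal.mul_inv_cancel (by simp) (by simp), one_pow, one_mul]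

theorem wt_block {U : Set (List Bool)} {k : ℕ} (c : ℕ → Option Bool)
    (h : ∀ s ∈ U, s.length = 2 * k ∧ ∀ n, k ≤ n → n < 2 * k → c n = some (s.getD n false)) :
    wt U ≤ 2⁻¹ ^ k := by
  let f : U → (Fin k → Bool) := fun s i => s.1.getD i false
  have hf : Function.Injective f := by
    rintro ⟨s, hs⟩ ⟨t, ht⟩ e
    obtain ⟨s1, s2⟩ := h s hs
    obtain ⟨t1, t2⟩ := h t ht
    refine Subtype.ext (List.ext_getElem (s1.trans t1.symm) fun n h1 h2 => ?_)
    have : s.getD n false = t.getD n false := by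
      by_cases hn : n < k
      · exact congrFun e ⟨n, hn⟩
      · have h3 : n < 2 * k := s1 ▸ h1
        have := (s2 n (by omega) h3).symm.trans (t2 n (by omega) h3)
        exact Option.some.inj this
    rwa [List.getD_eq_getElem _ _ h1, List.getD_eq_getElem _ _ h2] at this
  have h1 : wt U = ∑' s : U, (fun _ : Fin k → Bool => (2⁻¹ : ℝ≥0∞) ^ (2 * k)) (f s) :=
    tsum_congr fun s => by rw [(h s.1 s.2).1]
  rw [h1]
  refine (ENNReal.tsum_comp_le_tsum_of_injective hf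
    (fun _ : Fin k → Bool => (2⁻¹ : ℝ≥0∞) ^ (2 * k))).trans (le_of_eq ?_)
  rw [tsum_fintype, Finset.sum_const, Finset.card_univ, Fintype.card_fun, Fintype.card_bool,
    Fintype.card_fin, nsmul_eq_mul, two_mul, pow_add, ← mul_assoc]
  push_cast
  rw [← mul_pow, ENNReal.mul_inv_cancel (by simp) (by simp), one_pow, one_mul]

theorem wt_step {U : Set (List Bool)} (h : wt U < 1) :
    [] ∉ U ∧ ∃ b, wt {s | b :: s ∈ U} < 1 := by
  refine ⟨fun h0 => ?_, ?_⟩
  · have := le_wt h0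
    simp only [List.length_nil, pow_zero] at this
    exact absurd this (not_le.2 h)
  · by_contra hc
    push Not at hc
    let f : (Σ b : Bool, {s | b :: s ∈ U}) → U := fun x => ⟨x.1 :: x.2.1, x.2.2⟩
    have hf : Function.Injective f := by
      rintro ⟨b, s, hs⟩ ⟨b', s', hs'⟩ e
      have e' : b :: s = b' :: s' := congrArg Subtype.val e
      obtain ⟨rfl, rfl⟩ := List.cons.inj e'
      rfl
    have h1 := ENNReal.tsum_comp_le_tsum_of_injective hf
      (fun s : U => (2⁻¹ : ℝ≥0∞) ^ s.1.length)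
    rw [ENNReal.tsum_sigma', tsum_bool] at h1
    simp only [f, List.length_cons, pow_succ, ENNReal.tsum_mul_right] at h1
    have h2 : (1 : ℝ≥0∞) * 2⁻¹ + 1 * 2⁻¹ ≤ wt U :=
      le_trans (add_le_add (mul_le_mul_left (hc false) _) (mul_le_mul_left (hc true) _)) h1
    rw [one_mul, ENNReal.inv_two_add_inv_two] at h2
    exact absurd h2 (not_le.2 h)

theorem exists_avoid {U : Set (List Bool)} (h : wt U < 1) : ∃ z, ∀ s ∈ U, ¬ Pre s z := by
  have key : ∀ W : {W : Set (List Bool) // wt W < 1}, ∃ b, wt {s | b :: s ∈ W.1} < 1 :=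
    fun W => (wt_step W.2).2
  choose nb hnb using key
  let nx : {W : Set (List Bool) // wt W < 1} → {W : Set (List Bool) // wt W < 1} :=
    fun W => ⟨_, hnb W⟩
  have main : ∀ (s : List Bool) (W : {W : Set (List Bool) // wt W < 1}), s ∈ W.1 →
      ¬ Pre s fun n => nb (nx^[n] W) := by
    intro s
    induction s with
    | nil => exact fun W hs => ((wt_step W.2).1 hs).elim
    | cons b s ih =>
      intro W hs hp
      have h0 : b = nb W := hp 0 (by simp)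
      refine ih (nx W) (by show nb W :: s ∈ W.1; rwa [← h0]) fun i hi => ?_
      exact hp (i + 1) (by simpa using hi)
  exact ⟨_, fun s hs => main s ⟨U, h⟩ hs⟩

end Pool.Agent.Lib.MP_145df4_lc
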