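import Mathlib
import Pool.Agent.Lib.MP_145df4_lc.Weight

/-! Index types, raw conditions and the bookkeeping of killer families. -/

set_option autoImplicit false
set_option linter.deprecated false

namespace Pool.Agent.Lib.MP_145df4_lc

open Cardinal

/-- The levels: the second uncountable cardinal. -/
def L : Type := (aleph 2).ord.ToType

/-- The first uncountable cardinal. -/
def O1 : Type := (aleph 1).ord.ToType

noncomputable instance : LinearOrder L := inferInstanceAs (LinearOrder (aleph 2).ord.ToType)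
instance : WellFoundedLT L := inferInstanceAs (WellFoundedLT (aleph 2).ord.ToType)
noncomputable instance : LinearOrder O1 := inferInstanceAs (LinearOrder (aleph 1).ord.ToType)
instance : WellFoundedLT O1 := inferInstanceAs (WellFoundedLT (aleph 1).ord.ToType)
instance : NoMaxOrder O1 := Cardinal.noMaxOrder (aleph0_le_aleph 1)
instance : NoMaxOrder L := Cardinal.noMaxOrder (aleph0_le_aleph 2)

theorem mk_L : Cardinal.mk L = aleph 2 := mk_ord_toType _
theorem mk_O1 : Cardinal.mk O1 = aleph 1 := mk_ord_toType _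

instance : Infinite L := by rw [infinite_iff, mk_L]; exact aleph0_le_aleph 2
instance : Uncountable O1 := by rw [← aleph0_lt_mk_iff, mk_O1]; exact aleph0_lt_aleph_one

theorem O1.countable_Iio (a : O1) : (Set.Iio a).Countable := by
  rw [← le_aleph0_iff_set_countable, ← Order.lt_succ_iff, succ_aleph0]
  exact mk_Iio_toType_ord_lt (c := aleph 1) a

theorem O1.countable_Iic (a : O1) : (Set.Iic a).Countable := by
  rw [← Set.Iio_insert]
  exact (O1.countable_Iio a).insert a

theorem L.mk_Iio (a : L) : Cardinal.mk (Set.Iio a) ≤ aleph 1 := by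
  rw [← Order.lt_succ_iff, ← aleph_succ]
  have : Order.succ (1 : Ordinal.{0}) = 2 := by simp [one_add_one_eq_two]
  rw [this]
  exact mk_Iio_toType_ord_lt (c := aleph 2) a

theorem L.bdd {β : Type} (h : Cardinal.mk β ≤ aleph 1) (f : β → L) : ∃ b, ∀ x, f x < b := by
  by_contra hc
  push Not at hc
  choose g hg using fun a : L => exists_gt a
  have h1 : (Set.univ : Set L) ⊆ ⋃ x, Set.Iio (g (f x)) := by
    intro b _
    obtain ⟨x, hx⟩ := hc b
    exact Set.mem_iUnion.2 ⟨x, hx.trans_lt (hg _)⟩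
  have h2 := (mk_le_mk_of_subset h1).trans (mk_iUnion_le _)
  rw [mk_univ, mk_L] at h2
  have h3 : Cardinal.mk β * ⨆ x, Cardinal.mk (Set.Iio (g (f x))) ≤ aleph 1 * aleph 1 :=
    mul_le_mul' h (ciSup_le' fun x => L.mk_Iio _)
  rw [mul_eq_self (aleph0_le_aleph 1)] at h3
  exact absurd (h2.trans h3) (not_le.2 (aleph_lt_aleph.2 one_lt_two))

theorem L.bdd_countable {S : Set L} (h : S.Countable) : ∃ b, ∀ x ∈ S, x < b := by
  obtain ⟨b, hb⟩ := L.bdd (β := S)
    ((le_aleph0_iff_set_countable.2 h).trans (aleph0_le_aleph 1)) Subtype.val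
  exact ⟨b, fun x hx => hb ⟨x, hx⟩⟩

/-- Indices of promises. -/
abbrev J : Type := O1 × ℕ

/-- Cohen coordinates; the first component is the level. -/
abbrev Y : Type := L × (Set L ⊕ O1 ⊕ Bool)

def cc (η : L) : Y := (η, .inr (.inr true))
def bt (η : L) : Y := (η, .inr (.inr false))

theorem cc_inj {η η' : L} (h : cc η = cc η') : η = η' := congrArg Prod.fst h
theorem cc_ne_bt (η η' : L) : cc η ≠ bt η' := by simp [cc, bt]

abbrev V : Type := Finset (List Bool)

/-- Indices of the killer coordinates. -/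
def Lam : Type := Set L

/-- Raw conditions. -/
structure Cond : Type where
  co : Y × ℕ → Option Bool
  len : Lam → ℕ
  T : Lam → ℕ → V
  E : Lam → Finset J
  co_fin : {x | co x ≠ none}.Finite
  len_fin : {l | len l ≠ 0}.Finite
  T_out : ∀ l n, len l ≤ n → T l n = ∅
  T_wt : ∀ l n, wt ↑(T l n) ≤ 2⁻¹ ^ n
  E_card : ∀ l, (E l).card ≤ len l

theorem Cond.E_empty (p : Cond) {l : Lam} (h : p.len l = 0) : p.E l = ∅ :=
  Finset.card_eq_zero.1 (Nat.le_zero.1 (h ▸ p.E_card l))

theorem Cond.len_ne (p : Cond) {l : Lam} {i : J} (h : i ∈ p.E l) : p.len l ≠ 0 := by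
  intro h0
  rw [p.E_empty h0] at h
  simp at h

abbrev Data : Type := L × (J → L) × (J → ℕ → ℕ → Cond) × (J → ℕ → ℕ → V)

def Sm (α : Type) : Prop := Cardinal.mk α ≤ 2 ^ aleph 2

theorem inf_big : ℵ₀ ≤ (2 : Cardinal.{0}) ^ aleph 2 := (aleph0_le_aleph 2).trans (cantor _).le

theorem Sm.of_le {α : Type} (h : Cardinal.mk α ≤ aleph 2) : Sm α := h.trans (cantor _).le

theorem Sm.cnt (α : Type) [Countable α] : Sm α := mk_le_aleph0.trans inf_big

theorem Sm.prod {α β : Type} (h : Sm α) (h' : Sm β) : Sm (α × β) := by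
  unfold Sm
  rw [mk_prod, lift_id, lift_id]
  exact (mul_le_mul' h h').trans (mul_eq_self inf_big).le

theorem Sm.sum {α β : Type} (h : Sm α) (h' : Sm β) : Sm (α ⊕ β) := by
  unfold Sm
  rw [mk_sum, lift_id, lift_id]
  exact (add_le_add h h').trans (add_eq_self inf_big).le

theorem Sm.finset {α : Type} (h : Sm α) : Sm (Finset α) := by
  cases finite_or_infinite α with
  | inl _ => exact Sm.cnt _
  | inr _ => unfold Sm; rwa [mk_finset_of_infinite]

theorem Sm.func {α β : Type} (h : Cardinal.mk α ≤ aleph 2) (h' : Sm β) : Sm (α → β) := by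
  unfold Sm
  rw [mk_arrow, lift_id, lift_id]
  refine (power_le_power_right h').trans ?_
  rw [← power_mul]
  exact power_le_power_left two_ne_zero
    ((mul_le_mul' le_rfl h).trans (mul_eq_self (aleph0_le_aleph 2)).le)

theorem mk_Lam : Cardinal.mk Lam = 2 ^ aleph 2 := by rw [← mk_L]; exact mk_set

theorem mk_J : Cardinal.mk J ≤ aleph 1 := by
  rw [mk_prod, lift_id, lift_id, mk_O1, mk_nat]
  exact (mul_le_mul' le_rfl (aleph0_le_aleph 1)).trans (mul_eq_self (aleph0_le_aleph 1)).le

theorem a12 : aleph 1 ≤ aleph.{0} 2 := aleph_le_aleph.2 one_le_two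

theorem mk_nat_le : Cardinal.mk ℕ ≤ aleph 2 := mk_le_aleph0.trans (aleph0_le_aleph 2)

theorem sm_Cond : Sm Cond := by
  classical
  have hL : Sm L := Sm.of_le mk_L.le
  have hLam : Sm Lam := mk_Lam.le
  have hY : Sm Y := hL.prod (Sm.sum hLam ((Sm.of_le (mk_O1.le.trans a12)).sum (Sm.cnt _)))
  have hJ : Sm J := Sm.of_le (mk_J.trans a12)
  have h := (((hY.prod (Sm.cnt ℕ)).prod (Sm.cnt (Option Bool))).finset).prod
    (hLam.prod ((Sm.cnt ℕ).prod ((Sm.func mk_nat_le (Sm.cnt V)).prod hJ.finset))).finset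
  refine le_trans (mk_le_of_injective (f := fun p : Cond =>
    (p.co_fin.toFinset.image fun x => (x, p.co x),
      p.len_fin.toFinset.image fun l => (l, p.len l, p.T l, p.E l))) ?_) h
  intro p q e
  have e1 := congrArg Prod.fst e
  have e2 := congrArg Prod.snd e
  simp only [Finset.ext_iff, Finset.mem_image, Set.Finite.mem_toFinset, Set.mem_ofPred_eq]
    at e1 e2
  have c1 : p.co = q.co := by
    funext x
    by_cases hp : p.co x = none
    · by_cases hq : q.co x = none
      · rw [hp, hq]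
      · obtain ⟨y, _, hy⟩ := (e1 _).2 ⟨x, hq, rfl⟩
        obtain ⟨rfl, h2⟩ := Prod.mk.inj hy
        exact h2
    · obtain ⟨y, _, hy⟩ := (e1 _).1 ⟨x, hp, rfl⟩
      obtain ⟨rfl, h2⟩ := Prod.mk.inj hy
      exact h2.symm
  have c2 : ∀ l, (p.len l, p.T l, p.E l) = (q.len l, q.T l, q.E l) := by
    intro l
    by_cases hp : p.len l = 0
    · by_cases hq : q.len l = 0
      · rw [hp, hq, p.E_empty hp, q.E_empty hq]
        congr 2
        funext n
        rw [p.T_out l n (by omega), q.T_out l n (by omega)]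
      · obtain ⟨y, _, hy⟩ := (e2 _).2 ⟨l, hq, rfl⟩
        obtain ⟨rfl, h2⟩ := Prod.mk.inj hy
        exact h2
    · obtain ⟨y, _, hy⟩ := (e2 _).1 ⟨l, hp, rfl⟩
      obtain ⟨rfl, h2⟩ := Prod.mk.inj hy
      exact h2.symm
  cases p
  cases q
  simp only [Prod.mk.injEq] at c2
  simp only [Cond.mk.injEq]
  exact ⟨c1, funext fun l => (c2 l).1, funext fun l => (c2 l).2.1, funext fun l => (c2 l).2.2⟩

theorem exists_fam : ∃ f : Lam → Data, Function.Surjective f := by
  have hJ := mk_J.trans a12
  have h : Sm Data := (Sm.of_le mk_L.le).prod ((Sm.func hJ (Sm.of_le mk_L.le)).prod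
    ((Sm.func hJ (Sm.func mk_nat_le (Sm.func mk_nat_le sm_Cond))).prod
      (Sm.func hJ (Sm.func mk_nat_le (Sm.func mk_nat_le (Sm.cnt _))))))
  unfold Sm at h
  rw [← mk_Lam] at h
  obtain ⟨g⟩ := (Cardinal.le_def _ _).1 h
  have : Nonempty Data := ⟨(Classical.arbitrary _, fun _ => Classical.arbitrary _,
    fun _ _ _ => ⟨fun _ => none, fun _ => 0, fun _ _ => ∅, fun _ => ∅, by simp, by simp,
      by simp, by simp [wt_empty], by simp⟩, fun _ _ _ => ∅)⟩
  exact ⟨Function.invFun g, Function.invFun_surjective g.injective⟩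

noncomputable def fam : Lam → Data := exists_fam.choose

/-- The level of a killer. -/
noncomputable def dl (l : Lam) : L := (fam l).1
/-- The level of a promise. -/
noncomputable def et (l : Lam) : J → L := (fam l).2.1
/-- The conditions of the name of a promise. -/
noncomputable def nm (l : Lam) : J → ℕ → ℕ → Cond := (fam l).2.2.1
/-- The values of the name of a promise. -/
noncomputable def vl (l : Lam) : J → ℕ → ℕ → V := (fam l).2.2.2

theorem exists_lam (d : L) (e : J → L) (a : J → ℕ → ℕ → Cond) (v : J → ℕ → ℕ → V) :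
    ∃ l, dl l = d ∧ et l = e ∧ nm l = a ∧ vl l = v := by
  obtain ⟨l, hl⟩ := exists_fam.choose_spec (d, e, a, v)
  have : fam l = (d, e, a, v) := hl
  exact ⟨l, by simp [dl, this], by simp [et, this], by simp [nm, this], by simp [vl, this]⟩

end Pool.Agent.Lib.MP_145df4_lc
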