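import Mathlib
import Pool.Agent.Lib.MP_145df4_lc.Index

/-! The forcing order, valid killers, restriction and amalgamation. -/

set_option autoImplicit false

namespace Pool.Agent.Lib.MP_145df4_lc

open Classical

/-- Position `n` is outside the set on which promise `i` of killer `l` is active. -/
def gap (q : Cond) (l : Lam) (i : J) (n : ℕ) : Prop :=
  ∃ b, q.co (bt (dl l), 0) = some b ∧ q.co (cc (et l i), n) = some (!b)

structure Ext (q p : Cond) : Prop where
  co : ∀ x b, p.co x = some b → q.co x = some b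
  len : ∀ l, p.len l ≤ q.len l
  T : ∀ l n, n < p.len l → q.T l n = p.T l n
  E : ∀ l, p.E l ⊆ q.E l

inductive Le : Cond → Cond → Prop
  | mk (q p : Cond) (h : Ext q p) (ch : Lam → J → ℕ → Option ℕ)
      (h0 : ∀ l i n, i ∈ p.E l → p.len l ≤ n → n < q.len l → ch l i n = none → gap q l i n)
      (h1 : ∀ l i n k, i ∈ p.E l → p.len l ≤ n → n < q.len l → ch l i n = some k →
        vl l i n k ⊆ q.T l n)
      (h2 : ∀ l i n k, i ∈ p.E l → p.len l ≤ n → n < q.len l → ch l i n = some k →
        Le q (nm l i n k)) : Le q p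

theorem gap.mono {q r : Cond} {l : Lam} {i : J} {n : ℕ} (h : gap q l i n)
    (hr : ∀ x b, q.co x = some b → r.co x = some b) : gap r l i n := by
  obtain ⟨b, h1, h2⟩ := h
  exact ⟨b, hr _ _ h1, hr _ _ h2⟩

theorem Le.intro {q p : Cond} (h : Ext q p)
    (h' : ∀ l i n, i ∈ p.E l → p.len l ≤ n → n < q.len l →
      gap q l i n ∨ ∃ k, Le q (nm l i n k) ∧ vl l i n k ⊆ q.T l n) : Le q p := by
  let ch : Lam → J → ℕ → Option ℕ := fun l i n =>
    if h : ∃ k, Le q (nm l i n k) ∧ vl l i n k ⊆ q.T l n then some h.choose else none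
  have key : ∀ l i n k, ch l i n = some k → Le q (nm l i n k) ∧ vl l i n k ⊆ q.T l n := by
    intro l i n k hk
    simp only [ch] at hk
    split_ifs at hk with hh
    rw [← Option.some.inj hk]
    exact hh.choose_spec
  refine Le.mk q p h ch ?_ (fun l i n k _ _ _ hk => (key l i n k hk).2)
    (fun l i n k _ _ _ hk => (key l i n k hk).1)
  intro l i n a b c hk
  refine (h' l i n a b c).resolve_right fun hh => ?_
  simp only [ch, dif_pos hh] at hk
  exact absurd hk (by simp)

theorem Le.ind {C : Cond → Cond → Prop}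
    (H : ∀ q p, Ext q p → (∀ l i n, i ∈ p.E l → p.len l ≤ n → n < q.len l →
      gap q l i n ∨ ∃ k, (Le q (nm l i n k) ∧ C q (nm l i n k)) ∧ vl l i n k ⊆ q.T l n) → C q p)
    {q p : Cond} (h : Le q p) : C q p := by
  induction h with
  | mk p h ch h0 h1 h2 ih =>
    refine H q p h fun l i n a b c => ?_
    cases hk : ch l i n with
    | none => exact Or.inl (h0 l i n a b c hk)
    | some k => exact Or.inr ⟨k, ⟨h2 l i n k a b c hk, ih l i n k a b c hk⟩, h1 l i n k a b c hk⟩

theorem Le.ext {q p : Cond} (h : Le q p) : Ext q p := by cases h; assumption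

theorem Le.prom {q p : Cond} (h : Le q p) : ∀ l i n, i ∈ p.E l → p.len l ≤ n → n < q.len l →
    gap q l i n ∨ ∃ k, Le q (nm l i n k) ∧ vl l i n k ⊆ q.T l n := by
  refine Le.ind (C := fun q p => ∀ l i n, i ∈ p.E l → p.len l ≤ n → n < q.len l →
    gap q l i n ∨ ∃ k, Le q (nm l i n k) ∧ vl l i n k ⊆ q.T l n) ?_ h
  intro q p _ h' l i n a b c
  exact (h' l i n a b c).imp id fun ⟨k, h1, h2⟩ => ⟨k, h1.1, h2⟩

/-- An extension that lengthens no stem carrying a promise. -/
theorem Le.easy {q p : Cond} (h : Ext q p) (h' : ∀ l i, i ∈ p.E l → q.len l ≤ p.len l) :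
    Le q p :=
  Le.intro h fun l i n a b c => absurd (h' l i a) (by omega)

theorem Ext.refl (p : Cond) : Ext p p :=
  ⟨fun _ _ h => h, fun _ => le_rfl, fun _ _ _ => rfl, fun _ => subset_rfl⟩

theorem Ext.trans {r q p : Cond} (h : Ext r q) (h' : Ext q p) : Ext r p :=
  ⟨fun x b a => h.co x b (h'.co x b a), fun l => (h'.len l).trans (h.len l),
    fun l n a => (h.T l n (a.trans_le (h'.len l))).trans (h'.T l n a),
    fun l => (h'.E l).trans (h.E l)⟩

theorem Le.refl (p : Cond) : Le p p := Le.easy (Ext.refl p) fun _ _ _ => le_rfl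

theorem Le.trans {r q p : Cond} (h : Le r q) (h' : Le q p) : Le r p := by
  refine Le.ind (C := fun q p => Le r q → Le r p) ?_ h' h
  intro q p e H h
  refine Le.intro (h.ext.trans e) fun l i n a b c => ?_
  by_cases hn : n < q.len l
  · rcases H l i n a b hn with g | ⟨k, h1, h2⟩
    · exact Or.inl (g.mono h.ext.co)
    · exact Or.inr ⟨k, h1.2 h, by rwa [h.ext.T l n hn]⟩
  · exact h.prom l i n (e.E l a) (by omega) c

/-- A region: Cohen coordinates, killers and promises. -/
structure Reg : Type where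
  y : Set Y
  l : Set Lam
  i : Lam → Set J

def InK (K : Reg) (p : Cond) : Prop :=
  (∀ x, p.co x ≠ none → x.1 ∈ K.y) ∧ (∀ l, p.len l ≠ 0 → l ∈ K.l) ∧ ∀ l, ∀ i ∈ p.E l, i ∈ K.i l

/-- The region below a level. -/
def Kl (η : L) : Reg := ⟨{y | y.1 < η}, {l | dl l < η}, fun _ => Set.univ⟩

theorem InK.mono {η θ : L} {p : Cond} (h : InK (Kl η) p) (h' : η ≤ θ) : InK (Kl θ) p :=
  ⟨fun x a => lt_of_lt_of_le (h.1 x a) h', fun l a => lt_of_lt_of_le (h.2.1 l a) h',
    fun _ _ _ => trivial⟩

def Sup (A : Set Lam) (p : Cond) : Prop := ∀ l, p.len l ≠ 0 → l ∈ A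

def ValF (l : Lam) (A : Set Lam) : Prop :=
  (∀ i, et l i < dl l) ∧ (∀ η < dl l, {i | et l i ≤ η}.Countable) ∧
    (∀ i n k, InK (Kl (et l i)) (nm l i n k) ∧ Sup A (nm l i n k) ∧
      wt ↑(vl l i n k) ≤ 2⁻¹ ^ (2 * n)) ∧
    ∀ i n q, InK (Kl (et l i)) q → Sup A q →
      ∃ k r, InK (Kl (et l i)) r ∧ Sup A r ∧ Le r q ∧ Le r (nm l i n k)

/-- Valid killers. -/
def Valid : Lam → Prop :=
  (InvImage.wf dl wellFounded_lt).fix fun l ih => ValF l {l' | ∃ h : dl l' < dl l, ih l' h}

theorem valid_iff {l : Lam} : Valid l ↔ ValF l {l' | Valid l'} := by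
  have e : Valid l = ValF l {l' | ∃ _ : dl l' < dl l, Valid l'} := by
    unfold Valid
    rw [WellFounded.fix_eq]
  rw [e]
  have key : (∀ i, et l i < dl l) → ∀ i q, InK (Kl (et l i)) q →
      (Sup {l' | ∃ _ : dl l' < dl l, Valid l'} q ↔ Sup {l' | Valid l'} q) := fun h i q hq =>
    ⟨fun h' l' a => (h' l' a).2, fun h' l' a => ⟨lt_trans (hq.2.1 l' a) (h i), h' l' a⟩⟩
  constructor
  · rintro ⟨h1, h2, h3, h4⟩
    refine ⟨h1, h2, fun i n k => ⟨(h3 i n k).1, (key h1 i _ (h3 i n k).1).1 (h3 i n k).2.1,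
      (h3 i n k).2.2⟩, fun i n q a b => ?_⟩
    obtain ⟨k, r, c, d, e⟩ := h4 i n q a ((key h1 i q a).2 b)
    exact ⟨k, r, c, (key h1 i r c).1 d, e⟩
  · rintro ⟨h1, h2, h3, h4⟩
    refine ⟨h1, h2, fun i n k => ⟨(h3 i n k).1, (key h1 i _ (h3 i n k).1).2 (h3 i n k).2.1,
      (h3 i n k).2.2⟩, fun i n q a b => ?_⟩
    obtain ⟨k, r, c, d, e⟩ := h4 i n q a ((key h1 i q a).1 b)
    exact ⟨k, r, c, (key h1 i r c).2 d, e⟩

/-- The forcing conditions. -/
structure P : Type extends Cond where
  vc : ∀ l, len l ≠ 0 → Valid l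

instance : Preorder P where
  le q p := Le q.toCond p.toCond
  le_refl p := Le.refl _
  le_trans _ _ _ h h' := h.trans h'

theorem le_def {q p : P} : q ≤ p ↔ Le q.toCond p.toCond := Iff.rfl

instance : OrderTop P where
  top := ⟨⟨fun _ => none, fun _ => 0, fun _ _ => ∅, fun _ => ∅, by simp, by simp,
      by simp, by simp [wt_empty], by simp⟩, fun _ h => absurd rfl h⟩
  le_top _ := Le.easy ⟨fun _ _ h => (by cases h), fun _ => Nat.zero_le _,
    fun _ _ h => absurd h (Nat.not_lt_zero _), fun _ => Finset.empty_subset _⟩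
    fun _ _ h => absurd h (Finset.notMem_empty _)

theorem Valid.lt {l : Lam} (h : Valid l) (i : J) : et l i < dl l := (valid_iff.1 h).1 i

theorem Valid.cnt {l : Lam} (h : Valid l) {η : L} (hη : η < dl l) :
    {i | et l i ≤ η}.Countable := (valid_iff.1 h).2.1 η hη

theorem Valid.bel {l : Lam} (h : Valid l) (i : J) (n k : ℕ) : InK (Kl (et l i)) (nm l i n k) :=
  ((valid_iff.1 h).2.2.1 i n k).1

theorem Valid.wt {l : Lam} (h : Valid l) (i : J) (n k : ℕ) :
    wt ↑(vl l i n k) ≤ 2⁻¹ ^ (2 * n) := ((valid_iff.1 h).2.2.1 i n k).2.2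

theorem Valid.vc {l : Lam} (h : Valid l) (i : J) (n k : ℕ) :
    ∀ l', (nm l i n k).len l' ≠ 0 → Valid l' := ((valid_iff.1 h).2.2.1 i n k).2.1

theorem Valid.pre {l : Lam} (h : Valid l) (i : J) (n : ℕ) (q : P)
    (hq : InK (Kl (et l i)) q.toCond) :
    ∃ k, ∃ r : P, InK (Kl (et l i)) r.toCond ∧ r ≤ q ∧ Le r.toCond (nm l i n k) := by
  obtain ⟨k, r, a, b, c, d⟩ := (valid_iff.1 h).2.2.2 i n q.toCond hq q.vc
  exact ⟨k, ⟨r, b⟩, a, c, d⟩

theorem P.valid (p : P) {l : Lam} {i : J} (h : i ∈ p.E l) : Valid l := p.vc l (p.len_ne h)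

def Closed (K : Reg) : Prop :=
  ∀ l ∈ K.l, Valid l → bt (dl l) ∈ K.y ∧
    ∀ i ∈ K.i l, cc (et l i) ∈ K.y ∧ ∀ n k, InK K (nm l i n k)

theorem closed_Kl (η : L) : Closed (Kl η) := fun _ hl hv =>
  ⟨hl, fun i _ => ⟨(hv.lt i).trans hl, fun n k => (hv.bel i n k).mono ((hv.lt i).trans hl).le⟩⟩

/-- Restriction to a region. -/
noncomputable def res (K : Reg) (p : P) : P where
  co x := if x.1 ∈ K.y then p.co x else none
  len l := if l ∈ K.l then p.len l else 0
  T l n := if l ∈ K.l then p.T l n else ∅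
  E l := if l ∈ K.l then (p.E l).filter (· ∈ K.i l) else ∅
  co_fin := p.co_fin.subset fun x hx h => hx (by simp [h])
  len_fin := p.len_fin.subset fun x hx h => hx (by simp [h])
  T_out l n h := by
    split_ifs at h ⊢
    exacts [p.T_out l n h, rfl]
  T_wt l n := by
    split_ifs
    exacts [p.T_wt l n, by simp [wt_empty]]
  E_card l := by
    split_ifs
    exacts [(Finset.card_filter_le _ _).trans (p.E_card l), by simp]
  vc l h := p.vc l fun h' => h (by simp [h'])

theorem res_inK (K : Reg) (p : P) : InK K (res K p).toCond := by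
  refine ⟨fun x h => ?_, fun l h => ?_, fun l i h => ?_⟩
  · by_contra hc
    exact h (by simp [res, hc])
  · by_contra hc
    exact h (by simp [res, hc])
  · simp only [res] at h
    split_ifs at h
    exacts [(Finset.mem_filter.1 h).2, absurd h (Finset.notMem_empty _)]

theorem le_res (K : Reg) (p : P) : p ≤ res K p := by
  refine Le.easy ⟨fun x b h => ?_, fun l => ?_, fun l n h => ?_, fun l => ?_⟩ fun l i h => ?_
  all_goals simp only [res] at *
  · split_ifs at h
    exact h
  · split_ifs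
    exacts [le_rfl, Nat.zero_le _]
  · split_ifs at h ⊢
    exacts [rfl, absurd h (Nat.not_lt_zero _)]
  · split_ifs
    exacts [Finset.filter_subset _ _, Finset.empty_subset _]
  · split_ifs at h ⊢
    exacts [le_rfl, absurd h (Finset.notMem_empty _)]

/-- The restriction lemma. -/
theorem res_le {K : Reg} (hK : Closed K) (q : P) {a : Cond} (h : Le q.toCond a) (ha : InK K a)
    (hv : ∀ l, a.len l ≠ 0 → Valid l) : Le (res K q).toCond a := by
  refine Le.ind (C := fun q' a => q' = q.toCond → InK K a → (∀ l, a.len l ≠ 0 → Valid l) →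
    Le (res K q).toCond a) ?_ h rfl ha hv
  rintro _ a e H rfl ha hv
  refine Le.intro ⟨fun x b h => ?_, fun l => ?_, fun l n h => ?_, fun l i h => ?_⟩
    fun l i n h1 h2 h3 => ?_
  · simp only [res, if_pos (ha.1 x (by simp [h]))]
    exact e.co x b h
  · by_cases h0 : a.len l = 0
    · omega
    · simp only [res, if_pos (ha.2.1 l h0)]
      exact e.len l
  · simp only [res, if_pos (ha.2.1 l (by omega))]
    exact e.T l n h
  · simp only [res, if_pos (ha.2.1 l (a.len_ne h))]
    exact Finset.mem_filter.2 ⟨e.E l h, ha.2.2 l i h⟩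
  · have hl := ha.2.1 l (a.len_ne h1)
    have hvl := hv l (a.len_ne h1)
    obtain ⟨k1, k2⟩ := hK l hl hvl
    obtain ⟨k3, k4⟩ := k2 i (ha.2.2 l i h1)
    simp only [res, if_pos hl] at h3 ⊢
    rcases H l i n h1 h2 h3 with ⟨b, g1, g2⟩ | ⟨k, g1, g2⟩
    · exact Or.inl ⟨b, by simp only [if_pos k1]; exact g1, by simp only [if_pos k3]; exact g2⟩
    · exact Or.inr ⟨k, g1.2 rfl (k4 n k) (hvl.vc i n k), g2⟩

theorem res_le' {K : Reg} (hK : Closed K) {q a : P} (h : q ≤ a) (ha : InK K a.toCond) :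
    res K q ≤ a := res_le hK q h ha a.vc

/-- Amalgamation of a condition in a region with an arbitrary condition. -/
theorem amalg (K : Reg) (r p : P) (hr : InK K r.toCond) (h : r ≤ res K p)
    (hc : ∀ l ∈ K.l, (r.E l ∪ p.E l).card ≤ r.len l)
    (hg : ∀ l ∈ K.l, ∀ i ∈ p.E l, i ∉ K.i l → ∀ n, p.len l ≤ n → n < r.len l →
      gap p.toCond l i n) :
    ∃ q : P, q ≤ r ∧ q ≤ p ∧ (∀ x, x.1 ∉ K.y → q.co x = p.co x) ∧
      ∀ l ∉ K.l, q.len l = p.len l ∧ q.T l = p.T l ∧ q.E l = p.E l := by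
  let q : P :=
    { co := fun x => if x.1 ∈ K.y then r.co x else p.co x
      len := fun l => if l ∈ K.l then r.len l else p.len l
      T := fun l => if l ∈ K.l then r.T l else p.T l
      E := fun l => if l ∈ K.l then r.E l ∪ p.E l else p.E l
      co_fin := (r.co_fin.union p.co_fin).subset fun x hx => by
        simp only [Set.mem_ofPred_eq] at hx
        split_ifs at hx
        exacts [Or.inl hx, Or.inr hx]
      len_fin := (r.len_fin.union p.len_fin).subset fun x hx => by
        simp only [Set.mem_ofPred_eq] at hx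
        split_ifs at hx
        exacts [Or.inl hx, Or.inr hx]
      T_out := fun l n h => by
        split_ifs at h ⊢
        exacts [r.T_out l n h, p.T_out l n h]
      T_wt := fun l n => by
        split_ifs
        exacts [r.T_wt l n, p.T_wt l n]
      E_card := fun l => by
        split_ifs with hl
        exacts [hc l hl, p.E_card l]
      vc := fun l h => by
        split_ifs at h
        exacts [r.vc l h, p.vc l h] }
  have q1 : q ≤ r := by
    refine Le.easy ⟨fun x b h => ?_, fun l => ?_, fun l n h => ?_, fun l i h => ?_⟩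
      fun l i h => ?_
    · simp only [q, if_pos (hr.1 x (by simp [h]))]
      exact h
    · by_cases h0 : r.len l = 0
      · omega
      · simp only [q, if_pos (hr.2.1 l h0), le_rfl]
    · simp only [q, if_pos (hr.2.1 l (by omega))]
    · simp only [q, if_pos (hr.2.1 l (r.len_ne h))]
      exact Finset.mem_union_left _ h
    · simp only [q, if_pos (hr.2.1 l (r.len_ne h)), le_rfl]
  have c : ∀ x b, p.co x = some b → q.co x = some b := by
    intro x b hx
    simp only [q]
    split_ifs with hy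
    · exact h.ext.co x b (by simp only [res, if_pos hy]; exact hx)
    · exact hx
  refine ⟨q, q1, Le.intro ⟨c, fun l => ?_, fun l n hn => ?_, fun l i hi => ?_⟩
    fun l i n h1 h2 h3 => ?_, fun x hx => by simp only [q, if_neg hx],
    fun l hl => by simp only [q, if_neg hl, and_self]⟩
  · simp only [q]
    split_ifs with hl
    · simpa only [res, if_pos hl] using h.ext.len l
    · exact le_rfl
  · simp only [q]
    split_ifs with hl
    · simpa only [res, if_pos hl] using h.ext.T l n (by simpa only [res, if_pos hl] using hn)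
    · rfl
  · simp only [q]
    split_ifs with hl
    exacts [Finset.mem_union_right _ hi, hi]
  · by_cases hl : l ∈ K.l
    · simp only [q, if_pos hl] at h3
      by_cases hi : i ∈ K.i l
      · rcases Le.prom h l i n (by simp only [res, if_pos hl]; exact Finset.mem_filter.2 ⟨h1, hi⟩)
          (by simpa only [res, if_pos hl] using h2) h3 with g | ⟨k, g1, g2⟩
        · exact Or.inl (g.mono q1.ext.co)
        · exact Or.inr ⟨k, Le.trans q1 g1, by simpa only [q, if_pos hl] using g2⟩
      · exact Or.inl ((hg l hl i h1 hi n h2 h3).mono c)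
    · simp only [q, if_neg hl] at h3
      omega

/-- The conditions agree at the levels from `θ` on. -/
def Agree (θ : L) (q p : P) : Prop :=
  (∀ x : Y × ℕ, θ ≤ x.1.1 → q.co x = p.co x) ∧
    ∀ l, θ ≤ dl l → q.len l = p.len l ∧ q.T l = p.T l ∧ q.E l = p.E l

theorem Agree.refl (θ : L) (p : P) : Agree θ p p := ⟨fun _ _ => rfl, fun _ _ => ⟨rfl, rfl, rfl⟩⟩

theorem Agree.trans {θ : L} {r q p : P} (h : Agree θ r q) (h' : Agree θ q p) : Agree θ r p :=
  ⟨fun x a => (h.1 x a).trans (h'.1 x a), fun l a => ⟨(h.2 l a).1.trans (h'.2 l a).1,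
    (h.2 l a).2.1.trans (h'.2 l a).2.1, (h.2 l a).2.2.trans (h'.2 l a).2.2⟩⟩

theorem Agree.mono {θ θ' : L} {q p : P} (h : Agree θ q p) (h' : θ ≤ θ') : Agree θ' q p :=
  ⟨fun x a => h.1 x (h'.trans a), fun l a => h.2 l (h'.trans a)⟩

theorem amalg_lev (η : L) (r p : P) (hr : InK (Kl η) r.toCond) (h : r ≤ res (Kl η) p) :
    ∃ q : P, q ≤ r ∧ q ≤ p ∧ Agree η q p := by
  obtain ⟨q, a, b, c, d⟩ := amalg (Kl η) r p hr h (fun l hl => by
    rw [Finset.union_eq_left.2]
    · exact r.E_card l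
    · intro i hi
      exact h.ext.E l (by simp only [res, if_pos hl]; exact Finset.mem_filter.2 ⟨hi, trivial⟩))
    fun _ _ _ _ hi => (hi trivial).elim
  exact ⟨q, a, b, fun x hx => c x (not_lt.2 hx), fun l hl => d l (not_lt.2 hl)⟩

end Pool.Agent.Lib.MP_145df4_lc
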