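import Mathlib
import Pool.Agent.Lib.MP_145df4_lc.Poset

/-! Density lemmas: deciding names of promises, lengthening stems, adding promises. -/

set_option autoImplicit false

namespace Pool.Agent.Lib.MP_145df4_lc

open Classical

theorem dec_one (p : P) {l : Lam} (hl : Valid l) (i : J) (n : ℕ) :
    ∃ q ≤ p, Agree (et l i) q p ∧ ∃ k, Le q.toCond (nm l i n k) := by
  obtain ⟨k, r, a, b, c⟩ := hl.pre i n (res (Kl (et l i)) p) (res_inK _ _)
  obtain ⟨q, d, e, f⟩ := amalg_lev _ r p a b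
  exact ⟨q, e, f, k, Le.trans d c⟩

theorem dec_fin (θ : L) {S : Set (Lam × J × ℕ)} (hS : S.Finite)
    (h : ∀ x ∈ S, Valid x.1 ∧ et x.1 x.2.1 ≤ θ) (p : P) :
    ∃ q ≤ p, Agree θ q p ∧ ∀ x ∈ S, ∃ k, Le q.toCond (nm x.1 x.2.1 x.2.2 k) := by
  induction S, hS using Set.Finite.induction_on with
  | empty => exact ⟨p, le_rfl, Agree.refl _ _, by simp⟩
  | @insert x S _ _ ih =>
    obtain ⟨q, a, b, c⟩ := ih fun y hy => h y (Set.mem_insert_of_mem _ hy)
    obtain ⟨h1, h2⟩ := h x (Set.mem_insert _ _)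
    obtain ⟨r, d, e, f⟩ := dec_one q h1 x.2.1 x.2.2
    refine ⟨r, d.trans a, (e.mono h2).trans b, ?_⟩
    rintro y (rfl | hy)
    · exact f
    · obtain ⟨k, hk⟩ := c y hy
      exact ⟨k, Le.trans d hk⟩

theorem ext_stem (δ : L) {F : Set Lam} (hF : F.Finite) (hv : ∀ l ∈ F, Valid l ∧ dl l = δ)
    (m : ℕ) (p : P) (h : ∀ l ∈ F, ∀ i ∈ p.E l, ∀ n, p.len l ≤ n → n < m →
      gap p.toCond l i n ∨ ∃ k, Le p.toCond (nm l i n k)) :
    ∃ q ≤ p, q.co = p.co ∧ q.E = p.E ∧ (∀ l ∈ F, q.len l = max (p.len l) m) ∧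
      ∀ l ∉ F, q.len l = p.len l ∧ q.T l = p.T l := by
  let u : Lam → ℕ → J → V := fun l n i =>
    if h : ∃ k, Le p.toCond (nm l i n k) then vl l i n h.choose else ∅
  let q : P :=
    { co := p.co
      len := fun l => if l ∈ F then max (p.len l) m else p.len l
      T := fun l n => if l ∈ F ∧ p.len l ≤ n ∧ n < m then (p.E l).biUnion (u l n) else p.T l n
      E := p.E
      co_fin := p.co_fin
      len_fin := (hF.union p.len_fin).subset fun x hx => by
        simp only [Set.mem_ofPred_eq] at hx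
        split_ifs at hx with h
        exacts [Or.inl h, Or.inr hx]
      T_out := fun l n h => by
        by_cases hl : l ∈ F
        · simp only [if_pos hl, max_le_iff] at h
          rw [if_neg (by omega)]
          exact p.T_out l n h.1
        · simp only [if_neg hl] at h
          rw [if_neg (fun h => hl h.1)]
          exact p.T_out l n h
      T_wt := fun l n => by
        split_ifs with hl
        · refine wt_biUnion _ _ (fun i _ => ?_) ((p.E_card l).trans hl.2.1)
          simp only [u]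
          split_ifs
          exacts [(hv l hl.1).1.wt _ _ _, by simp [wt_empty]]
        · exact p.T_wt l n
      E_card := fun l => by
        split_ifs
        exacts [(p.E_card l).trans (le_max_left _ _), p.E_card l]
      vc := fun l h => by
        split_ifs at h with hl
        exacts [(hv l hl).1, p.vc l h] }
  have e : Ext q.toCond p.toCond := by
    refine ⟨fun _ _ h => h, fun l => ?_, fun l n hn => ?_, fun _ => subset_rfl⟩
    · simp only [q]
      split_ifs
      exacts [le_max_left _ _, le_rfl]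
    · simp only [q]
      rw [if_neg (by omega)]
  have q1 : q ≤ res (Kl δ) p := by
    refine Le.easy (e.trans (le_res (Kl δ) p).ext) fun l i hi => ?_
    have hl : l ∈ (Kl δ).l := (res_inK _ p).2.1 l ((res (Kl δ) p).len_ne hi)
    have : l ∉ F := fun h' => (lt_irrefl δ ((hv l h').2 ▸ hl))
    simp only [q, res, if_pos hl, if_neg this, le_rfl]
  refine ⟨q, Le.intro e fun l i n h1 h2 h3 => ?_, rfl, rfl, fun l hl => by simp only [q, if_pos hl],
    fun l hl => ⟨by simp only [q, if_neg hl], funext fun n => by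
      simp only [q]; rw [if_neg (fun h => hl h.1)]⟩⟩
  have hl : l ∈ F := by
    by_contra hl
    simp only [q, if_neg hl] at h3
    omega
  simp only [q, if_pos hl] at h3
  have hn : n < m := by omega
  rcases h l hl i h1 n h2 hn with g | g
  · exact Or.inl g
  · obtain ⟨v1, v2⟩ := hv l hl
    refine Or.inr ⟨g.choose, Le.trans q1 (res_le (closed_Kl δ) p g.choose_spec
      ((v1.bel _ _ _).mono (v2 ▸ (v1.lt i).le)) (v1.vc _ _ _)), ?_⟩
    simp only [q]
    rw [if_pos ⟨hl, h2, hn⟩]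
    refine subset_trans ?_ (Finset.subset_biUnion_of_mem (u l n) h1)
    simp only [u, dif_pos g, subset_rfl]

theorem finite_triples (p : P) {F : Set Lam} (hF : F.Finite) (m : ℕ) :
    {x : Lam × J × ℕ | x.1 ∈ F ∧ x.2.1 ∈ p.E x.1 ∧ x.2.2 < m}.Finite := by
  refine (hF.prod ((hF.biUnion fun l _ => (p.E l).finite_toSet).prod
    (Set.finite_lt_nat m))).subset ?_
  rintro ⟨l, i, n⟩ ⟨a, b, c⟩
  exact ⟨a, Set.mem_biUnion a b, c⟩

theorem grow (δ : L) {F : Set Lam} (hF : F.Finite) (hv : ∀ l ∈ F, Valid l ∧ dl l = δ)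
    (m : ℕ) (p : P) :
    ∃ q ≤ p, (∀ x : Y × ℕ, δ ≤ x.1.1 → q.co x = p.co x) ∧ (∀ l, δ ≤ dl l → q.E l = p.E l) ∧
      (∀ l ∈ F, q.len l = max (p.len l) m) ∧
      ∀ l ∉ F, δ ≤ dl l → q.len l = p.len l ∧ q.T l = p.T l := by
  obtain ⟨q, a, b, c⟩ := dec_fin δ (finite_triples p hF m)
    (fun x hx => ⟨(hv _ hx.1).1, (hv _ hx.1).2 ▸ ((hv _ hx.1).1.lt _).le⟩) p
  obtain ⟨r, d, e1, e2, e3, e4⟩ := ext_stem δ hF hv m q fun l hl i hi n _ hn =>
    Or.inr (c (l, i, n) ⟨hl, by rwa [(b.2 l (hv l hl).2.ge).2.2] at hi, hn⟩)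
  refine ⟨r, d.trans a, fun x hx => by rw [e1, b.1 x hx], fun l hl => by rw [e2, (b.2 l hl).2.2],
    fun l hl => by rw [e3 l hl, (b.2 l (hv l hl).2.ge).1], fun l hl h => ?_⟩
  rw [(e4 l hl).1, (e4 l hl).2]
  exact ⟨(b.2 l h).1, (b.2 l h).2.1⟩

theorem long (p : P) {l : Lam} (hl : Valid l) (n : ℕ) :
    ∃ q ≤ p, n < q.len l ∧ q.E l = p.E l := by
  obtain ⟨q, a, _, b, c, _⟩ := grow (dl l) (Set.finite_singleton l)
    (by rintro _ rfl; exact ⟨hl, rfl⟩) (n + 1) p
  exact ⟨q, a, by rw [c l rfl]; omega, b l le_rfl⟩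

theorem add_promise (p : P) {l : Lam} (hl : Valid l) (i : J) : ∃ q ≤ p, i ∈ q.E l := by
  obtain ⟨q, a, b, c⟩ := long p hl (p.E l).card
  let r : P :=
    { q with
      E := fun l' => if l' = l then insert i (q.E l') else q.E l'
      E_card := fun l' => by
        split_ifs with h
        · subst h
          exact (Finset.card_insert_le _ _).trans (by rw [c]; omega)
        · exact q.E_card l' }
  refine ⟨r, le_trans (b := q) (Le.easy ⟨fun _ _ h => h, fun _ => le_rfl, fun _ _ _ => rfl, fun l' => ?_⟩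
    fun _ _ _ => le_rfl) a, by simp [r]⟩
  simp only [r]
  split_ifs
  exacts [Finset.subset_insert _ _, subset_rfl]

theorem slack (g : ℕ → ℕ) (θ : L) : ∀ p : P, ∃ q ≤ p, Agree θ q p ∧
    ∀ l, dl l < θ → q.len l ≠ 0 → g (q.E l).card ≤ q.len l := by
  induction θ using WellFoundedLT.induction with
  | ind θ ih =>
    intro p
    have hS : {l | p.len l ≠ 0 ∧ dl l < θ}.Finite := p.len_fin.subset fun _ h => h.1
    rcases Set.eq_empty_or_nonempty {l | p.len l ≠ 0 ∧ dl l < θ} with h0 | h0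
    · exact ⟨p, le_rfl, Agree.refl _ _, fun l a b =>
        (Set.eq_empty_iff_forall_notMem.1 h0 l ⟨b, a⟩).elim⟩
    obtain ⟨l0, ⟨_, h2⟩, h3⟩ := Set.exists_max_image _ dl hS h0
    have hF : {l | p.len l ≠ 0 ∧ dl l = dl l0}.Finite := p.len_fin.subset fun _ h => h.1
    obtain ⟨m, hm⟩ := (hF.image fun l => g (p.E l).card).bddAbove
    obtain ⟨q, a, b, c, d, e⟩ := grow (dl l0) hF (fun l hl => ⟨p.vc l hl.1, hl.2⟩) m p
    obtain ⟨r, f1, f2, f3⟩ := ih _ h2 q
    refine ⟨r, f1.trans a, (f2.mono h2.le).trans ⟨fun x hx => b x (h2.le.trans hx),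
      fun l hl => ?_⟩, fun l h4 h5 => ?_⟩
    · have h6 := h2.trans_le hl
      obtain ⟨e1, e2⟩ := e l (fun h => h6.ne' h.2) h6.le
      exact ⟨e1, e2, c l h6.le⟩
    · rcases lt_or_ge (dl l) (dl l0) with h6 | h6
      · exact f3 l h6 h5
      · rw [(f2.2 l h6).1] at h5 ⊢
        rw [(f2.2 l h6).2.2, c l h6]
        have hl : l ∈ {l | p.len l ≠ 0 ∧ dl l = dl l0} := by
          by_contra hl
          rw [(e l hl h6).1] at h5
          exact hl ⟨h5, le_antisymm (h3 l ⟨h5, h4⟩) h6⟩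
        rw [d l hl]
        exact (hm ⟨l, hl, rfl⟩).trans (le_max_right _ _)

theorem exists_lev (p : Cond) : ∃ η, InK (Kl η) p := by
  obtain ⟨b, hb⟩ := L.bdd_countable
    ((p.co_fin.image fun x => x.1.1).union (p.len_fin.image dl)).countable
  exact ⟨b, fun x h => hb _ (Or.inl ⟨x, h, rfl⟩), fun l h => hb _ (Or.inr ⟨l, h, rfl⟩),
    fun _ _ _ => trivial⟩

theorem slack_all (g : ℕ → ℕ) (p : P) :
    ∃ q ≤ p, ∀ l, q.len l ≠ 0 → g (q.E l).card ≤ q.len l := by
  obtain ⟨θ, hθ⟩ := exists_lev p.toCond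
  obtain ⟨q, a, b, c⟩ := slack g θ p
  refine ⟨q, a, fun l h => c l ?_ h⟩
  by_contra hc
  rw [(b.2 l (not_lt.1 hc)).1] at h
  exact hc (hθ.2.1 l h)

/-- Extension of the Cohen part. -/
def cohen (p : P) (f : Y × ℕ → Option Bool) (hf : {x | f x ≠ none}.Finite) : P :=
  { p with
    co := fun x => (p.co x).or (f x)
    co_fin := (p.co_fin.union hf).subset fun x hx => by
      by_contra hc
      simp only [Set.mem_union, Set.mem_ofPred_eq, not_or, not_not] at hc
      exact hx (by simp [hc.1, hc.2]) }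

theorem cohen_le (p : P) (f : Y × ℕ → Option Bool) (hf : {x | f x ≠ none}.Finite) :
    cohen p f hf ≤ p :=
  Le.easy ⟨fun x b h => by simp [cohen, h], fun _ => le_rfl, fun _ _ _ => rfl,
    fun _ => subset_rfl⟩ fun _ _ _ => le_rfl

theorem cohen_one (p : P) (x : Y × ℕ) (b : Bool) :
    ∃ q ≤ p, q.len = p.len ∧ q.T = p.T ∧ q.E = p.E ∧ (∀ y, y ≠ x → q.co y = p.co y) ∧
      q.co x ≠ none ∧ (p.co x = none → q.co x = some b) := by
  have hf : {y | (if y = x then some b else none) ≠ none}.Finite :=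
    (Set.finite_singleton x).subset fun y hy => by
      by_contra hc
      exact hy (if_neg hc)
  refine ⟨cohen p _ hf, cohen_le _ _ _, rfl, rfl, rfl, fun y hy => by simp [cohen, hy], ?_,
    fun h => by simp [cohen, h]⟩
  cases h : p.co x <;> simp [cohen, h]

end Pool.Agent.Lib.MP_145df4_lc
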