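import Mathlib
import Pool.Agent.Lib.MP_145df4_lc.Extend

/-! Good regions are complete suborders; Cohen reals outside a good region hit its reals. -/

set_option autoImplicit false

namespace Pool.Agent.Lib.MP_145df4_lc

open Classical

def Good (K : Reg) : Prop :=
  ∀ l ∈ K.l, Valid l → ∀ i ∉ K.i l, ∀ y ∈ K.y, y.1 < dl l → y.1 < et l i

theorem good_Kl (η : L) : Good (Kl η) := fun _ _ _ _ h => (h trivial).elim

theorem Good.out {K : Reg} (h : Good K) {l : Lam} (hl : l ∈ K.l) (hv : Valid l) {i : J}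
    (hi : i ∉ K.i l) : cc (et l i) ∉ K.y := fun hc =>
  lt_irrefl _ (h l hl hv i hi _ hc (hv.lt i))

theorem Good.uniq {K : Reg} (h : Good K) (hC : Closed K) {l l' : Lam} (hl : l ∈ K.l)
    (hv : Valid l) {i : J} (hi : i ∉ K.i l) (hl' : l' ∈ K.l) (hv' : Valid l') {i' : J}
    (hi' : i' ∉ K.i l') (e : et l i = et l' i') : dl l = dl l' := by
  rcases lt_trichotomy (dl l) (dl l') with h1 | h1 | h1
  · exact absurd (h l' hl' hv' i' hi' _ (hC l hl hv).1 h1) (not_lt.2 (e ▸ (hv.lt i).le))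
  · exact h1
  · exact absurd (h l hl hv i hi _ (hC l' hl' hv').1 h1) (not_lt.2 (e ▸ (hv'.lt i').le))

def Al (K : Reg) (θ : L) (p : P) : Prop :=
  ∀ l ∈ K.l, ∀ i ∈ p.E l, i ∉ K.i l → θ ≤ et l i →
    p.co (bt (dl l), 0) ≠ none ∧ ∀ n, p.len l ≤ n → p.co (cc (et l i), n) = none

theorem finite_pairs (p : P) : {x : Lam × J | x.2 ∈ p.E x.1}.Finite := by
  refine (p.len_fin.prod (p.len_fin.biUnion fun l _ => (p.E l).finite_toSet)).subset ?_
  rintro ⟨l, i⟩ a
  exact ⟨p.len_ne a, Set.mem_biUnion (p.len_ne a) a⟩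

theorem ne_none_mono {q p : P} (h : q ≤ p) {x : Y × ℕ} (hx : p.co x ≠ none) : q.co x ≠ none := by
  obtain ⟨b, hb⟩ := Option.ne_none_iff_exists'.1 hx
  rw [h.ext.co x b hb]
  simp

theorem fill (p : P) {S : Set (Lam × J)} (hS : S.Finite) (m : ℕ)
    (h1 : ∀ x ∈ S, p.co (bt (dl x.1), 0) ≠ none ∧
      ∀ n, p.len x.1 ≤ n → p.co (cc (et x.1 x.2), n) = none)
    (h2 : ∀ x ∈ S, ∀ y ∈ S, et x.1 x.2 = et y.1 y.2 → dl x.1 = dl y.1) :
    ∃ q ≤ p, q.len = p.len ∧ q.T = p.T ∧ q.E = p.E ∧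
      (∀ x : Y × ℕ, (¬ ∃ s ∈ S, x.1 = cc (et s.1 s.2) ∧ x.2 < m) → q.co x = p.co x) ∧
      ∀ x ∈ S, ∀ n, p.len x.1 ≤ n → n < m → gap q.toCond x.1 x.2 n := by
  let f : Y × ℕ → Option Bool := fun x =>
    if h : ∃ s ∈ S, x.1 = cc (et s.1 s.2) ∧ x.2 < m then
      (p.co (bt (dl h.choose.1), 0)).map not else none
  have hf : {x | f x ≠ none}.Finite := by
    refine ((hS.image fun s => cc (et s.1 s.2)).prod (Set.finite_lt_nat m)).subset fun x hx => ?_
    by_cases h : ∃ s ∈ S, x.1 = cc (et s.1 s.2) ∧ x.2 < m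
    · obtain ⟨s, a, b, c⟩ := h
      exact ⟨⟨s, a, b.symm⟩, c⟩
    · exact (hx (dif_neg h)).elim
  refine ⟨cohen p f hf, cohen_le _ _ _, rfl, rfl, rfl, fun x hx => ?_, fun x hx n a b => ?_⟩
  · simp only [cohen, f, dif_neg hx, Option.or_none]
  · obtain ⟨c, hc⟩ := Option.ne_none_iff_exists'.1 (h1 x hx).1
    refine ⟨c, by simp [cohen, hc], ?_⟩
    have h : ∃ s ∈ S, (cc (et x.1 x.2), n).1 = cc (et s.1 s.2) ∧ (cc (et x.1 x.2), n).2 < m :=
      ⟨x, hx, rfl, b⟩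
    have e := h2 x hx _ h.choose_spec.1 (cc_inj h.choose_spec.2.1)
    simp only [cohen, (h1 x hx).2 n a, f, dif_pos h, ← e, hc, Option.none_or, Option.map_some]

theorem align_aux {K : Reg} (hC : Closed K) (hG : Good K) (θ : L) :
    ∀ p : P, Al K θ p → ∃ q ≤ p, ∀ θ', Al K θ' q := by
  induction θ using WellFoundedLT.induction with
  | ind θ ih =>
    intro p hA
    have hS : {x : Lam × J | x.2 ∈ p.E x.1 ∧ x.1 ∈ K.l ∧ x.2 ∉ K.i x.1 ∧ et x.1 x.2 < θ}.Finite :=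
      (finite_pairs p).subset fun _ h => h.1
    rcases Set.eq_empty_or_nonempty
      {x : Lam × J | x.2 ∈ p.E x.1 ∧ x.1 ∈ K.l ∧ x.2 ∉ K.i x.1 ∧ et x.1 x.2 < θ} with h0 | h0
    · refine ⟨p, le_rfl, fun _ l a i b c _ => hA l a i b c (not_lt.1 fun h => ?_)⟩
      exact Set.eq_empty_iff_forall_notMem.1 h0 (l, i) ⟨b, a, c, h⟩
    obtain ⟨⟨l0, i0⟩, ⟨a1, a2, a3, a4⟩, hmax⟩ :=
      Set.exists_max_image _ (fun x : Lam × J => et x.1 x.2) hS h0
    simp only at a1 a2 a3 a4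
    have v0 := p.valid a1
    have hθ : ∀ l ∈ K.l, ∀ i ∈ p.E l, i ∉ K.i l → et l0 i0 < et l i → θ ≤ et l i :=
      fun l a i b c d => not_lt.1 fun h => absurd (hmax (l, i) ⟨b, a, c, h⟩) (not_le.2 d)
    obtain ⟨p0, b1, b2, b3, b4, b5, b6, -⟩ := cohen_one p (bt (dl l0), 0) true
    have b7 : ∀ η n, p0.co (cc η, n) = p.co (cc η, n) := fun η n =>
      b5 _ fun h => cc_ne_bt _ _ (congrArg Prod.fst h)
    have hF : {l | p.len l ≠ 0 ∧ l ∈ K.l ∧ dl l = dl l0}.Finite :=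
      p.len_fin.subset fun _ h => h.1
    obtain ⟨m, hm⟩ := ((hF.image p.len).union (p.co_fin.image fun x => x.2 + 1)).bddAbove
    have m1 : ∀ l, p.len l ≠ 0 ∧ l ∈ K.l ∧ dl l = dl l0 → p.len l ≤ m :=
      fun l h => hm (Or.inl ⟨l, h, rfl⟩)
    have m2 : ∀ y n, m ≤ n → p.co (y, n) = none := fun y n h => by
      by_contra hc
      have : n + 1 ≤ m := hm (Or.inr ⟨(y, n), hc, rfl⟩)
      omega
    obtain ⟨p1, c1, c2, c3⟩ := dec_fin (et l0 i0)
      ((finite_triples p hF m).inter_of_left {x | et x.1 x.2.1 ≤ et l0 i0})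
      (fun x hx => ⟨p.valid hx.1.2.1, hx.2⟩) p0
    have out : ∀ l, l ∈ K.l → dl l = dl l0 → ∀ i ∈ p.E l, et l0 i0 < et l i → i ∉ K.i l := by
      intro l a b i c d hi
      have := hG l0 a2 v0 i0 a3 _ ((hC l a (p.valid c)).2 i hi).1 (b ▸ (p.valid c).lt i)
      exact absurd d (not_lt.2 this.le)
    have hle := (v0.lt i0).le
    obtain ⟨p2, d1, d2, d3, d4, d5, d6⟩ := fill p1
      (S := {x | x.2 ∈ p.E x.1 ∧ x.1 ∈ K.l ∧ dl x.1 = dl l0 ∧ et l0 i0 < et x.1 x.2})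
      ((finite_pairs p).subset fun _ h => h.1) m (by
        rintro ⟨l, i⟩ ⟨e1, e2, e3, e4⟩
        simp only at e1 e2 e3 e4 ⊢
        refine ⟨e3 ▸ ne_none_mono c1 b6, fun n hn => ?_⟩
        have o := out l e2 e3 i e1 e4
        rw [(c2.2 l (e3 ▸ hle)).1, b2] at hn
        rw [c2.1 _ e4.le, b7]
        exact (hA l e2 i e1 o (hθ l e2 i e1 o e4)).2 n hn)
      (fun x hx y hy _ => hx.2.2.1.trans hy.2.2.1.symm)
    have len2 : ∀ l, et l0 i0 ≤ dl l → p2.len l = p.len l := fun l h => by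
      rw [d2, (c2.2 l h).1, b2]
    have E2 : ∀ l, et l0 i0 ≤ dl l → p2.E l = p.E l := fun l h => by
      rw [d4, (c2.2 l h).2.2, b4]
    obtain ⟨p3, e1, e2, e3, e4, e5⟩ := ext_stem (dl l0) hF
      (fun l hl => ⟨p.vc l hl.1, hl.2.2⟩) m p2 (by
        intro l hl i hi n h1 h2
        rw [E2 l (hl.2.2 ▸ hle)] at hi
        rcases le_or_gt (et l i) (et l0 i0) with h | h
        · obtain ⟨k, hk⟩ := c3 (l, i, n) ⟨⟨hl, hi, h2⟩, h⟩
          exact Or.inr ⟨k, Le.trans d1 hk⟩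
        · exact Or.inl (d6 (l, i) ⟨hi, hl.2.1, hl.2.2, h⟩ n (by rwa [← d2]) h2))
    obtain ⟨q, q1, q2⟩ := ih _ a4 p3 (by
      intro l f1 i f2 f3 f4
      have v := p3.valid f2
      have f5 := f4.trans (v.lt i).le
      rw [e3, E2 l f5] at f2
      by_cases hd : dl l = dl l0
      · refine ⟨hd ▸ ne_none_mono (e1.trans (d1.trans c1)) b6, fun n hn => ?_⟩
        rw [e4 l ⟨p.len_ne f2, f1, hd⟩] at hn
        have hn' : m ≤ n := (le_max_right _ _).trans hn
        rw [e2, d5 _ (fun ⟨_, _, _, h⟩ => absurd h (not_lt.2 hn')), c2.1 _ f4, b7]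
        exact m2 _ _ hn'
      · have f6 : et l0 i0 < et l i :=
          lt_of_le_of_ne f4 fun h => hd (hG.uniq hC f1 v f3 a2 v0 a3 h.symm)
        obtain ⟨g1, g2⟩ := hA l f1 i f2 f3 (hθ l f1 i f2 f3 f6)
        refine ⟨ne_none_mono (e1.trans (d1.trans (c1.trans b1))) g1, fun n hn => ?_⟩
        rw [(e5 l fun h => hd h.2.2).1, len2 l f5] at hn
        rw [e2, d5 _ ?_, c2.1 _ f4, b7]
        · exact g2 n hn
        · rintro ⟨⟨l', i'⟩, ⟨s1, s2, s3, s4⟩, s5, -⟩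
          exact hd ((hG.uniq hC f1 v f3 s2 (p.valid s1) (out l' s2 s3 i' s1 s4)
            (cc_inj s5)).trans s3))
    exact ⟨q, q1.trans (e1.trans (d1.trans (c1.trans b1))), q2⟩

theorem align {K : Reg} (hC : Closed K) (hG : Good K) (p : P) : ∃ q ≤ p, ∀ θ, Al K θ q := by
  obtain ⟨θ, hθ⟩ := exists_lev p.toCond
  exact align_aux hC hG θ p fun l _ i b _ d =>
    absurd (((p.valid b).lt i).trans (hθ.2.1 l (p.len_ne b))) (not_lt.2 d)

/-- The reduction lemma. -/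
theorem reduce {K : Reg} (hC : Closed K) (hG : Good K) {p r : P} (hp : ∀ θ, Al K θ p)
    (hr : InK K r.toCond) (h : r ≤ res K p) :
    ∃ q ≤ r, q ≤ p ∧ ∀ x : Y × ℕ, x.1 ∉ K.y →
      (∀ l ∈ K.l, Valid l → ∀ i ∉ K.i l, x.1 ≠ cc (et l i)) → q.co x = p.co x := by
  obtain ⟨M, hM⟩ := (p.len_fin.image p.len).bddAbove
  have M1 : ∀ l, (p.E l).card ≤ M := fun l => by
    by_cases h0 : p.len l = 0
    · simp [p.E_empty h0]
    · exact (p.E_card l).trans (hM ⟨l, h0, rfl⟩)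
  obtain ⟨r0, a1, a2⟩ := slack_all (fun c => c + M) r
  have a3 : res K r0 ≤ r := res_le' hC a1 hr
  obtain ⟨m, hm⟩ := (r0.len_fin.image r0.len).bddAbove
  have m1 : ∀ l, r0.len l ≤ m := fun l => by
    by_cases h0 : r0.len l = 0
    · omega
    · exact hm ⟨l, h0, rfl⟩
  obtain ⟨p1, d1, d2, d3, d4, d5, d6⟩ := fill p
    (S := {x | x.2 ∈ p.E x.1 ∧ x.1 ∈ K.l ∧ x.2 ∉ K.i x.1})
    ((finite_pairs p).subset fun _ h => h.1) m
    (fun x hx => hp _ _ hx.2.1 _ hx.1 hx.2.2 le_rfl)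
    (fun x hx y hy e => hG.uniq hC hx.2.1 (p.valid hx.1) hx.2.2 hy.2.1 (p.valid hy.1) hy.2.2 e)
  have b1 : res K p ≤ res K p1 := by
    refine Le.easy ⟨fun x b hx => ?_, fun l => ?_, fun l n _ => ?_, fun l => ?_⟩ fun l i _ => ?_
    · simp only [res] at hx ⊢
      split_ifs at hx ⊢ with hy
      rwa [d5 x] at hx
      rintro ⟨s, s1, s2, -⟩
      exact hG.out s1.2.1 (p.valid s1.1) s1.2.2 (s2 ▸ hy)
    all_goals simp only [res, d2, d3, d4, le_rfl]
  obtain ⟨q, c1, c2, c3, -⟩ := amalg K (res K r0) p1 (res_inK _ _) (a3.trans (h.trans b1))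
    (by
      intro l hl
      simp only [res, if_pos hl, d4]
      by_cases h0 : r0.len l = 0
      · have := (a1.trans h).ext.len l
        simp only [res, if_pos hl] at this
        simp [r0.E_empty h0, p.E_empty (l := l) (by omega)]
      · refine (Finset.card_union_le _ _).trans (le_trans ?_ (a2 l h0))
        exact add_le_add (Finset.card_filter_le _ _) (M1 l))
    (by
      intro l hl i hi hi' n h1 h2
      simp only [res, if_pos hl] at h2
      rw [d4] at hi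
      rw [d2] at h1
      exact d6 (l, i) ⟨hi, hl, hi'⟩ n h1 (h2.trans_le (m1 l)))
  refine ⟨q, c1.trans a3, c2.trans d1, fun x hx hx' => ?_⟩
  rw [c3 x hx, d5 x]
  rintro ⟨s, s1, s2, -⟩
  exact hx' _ s1.2.1 (p.valid s1.1) _ s1.2.2 s2

/-- The condition decides membership of the generic filter in `X` with value `b`. -/
def DecB (X : LowerSet P) : Bool → P → Prop
  | true, q => q ∈ X
  | false, q => ∀ r ≤ q, r ∉ X

theorem DecB.mono {X : LowerSet P} {b : Bool} {q r : P} (h : DecB X b q) (hr : r ≤ q) :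
    DecB X b r := by
  cases b
  exacts [fun s hs => h s (hs.trans hr), X.lower hr h]

theorem DecB.uniq {X : LowerSet P} {b c : Bool} {q : P} (h : DecB X b q) (h' : DecB X c q) :
    b = c := by
  cases b <;> cases c
  exacts [rfl, (h q le_rfl h').elim, (h' q le_rfl h).elim, rfl]

theorem exists_decB (X : LowerSet P) (p : P) : ∃ q ≤ p, ∃ b, DecB X b q := by
  by_cases h : ∃ q ≤ p, q ∈ X
  · obtain ⟨q, a, b⟩ := h
    exact ⟨q, a, true, b⟩
  · exact ⟨p, le_rfl, false, fun r a b => h ⟨r, a, b⟩⟩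

/-- The condition forces that `s` is an initial segment of the real named `z`. -/
def PreF (z : ℕ → LowerSet P) (s : List Bool) (q : P) : Prop :=
  ∀ i < s.length, DecB (z i) (s.getD i false) q

theorem PreF.mono {z : ℕ → LowerSet P} {s : List Bool} {q r : P} (h : PreF z s q) (hr : r ≤ q) :
    PreF z s r := fun i hi => (h i hi).mono hr

/-- The open set is decided densely inside the region. -/
def Supp (K : Reg) (X : LowerSet P) : Prop :=
  ∀ r : P, InK K r.toCond → ∃ r' ≤ r, InK K r'.toCond ∧ ∃ b, DecB X b r'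

theorem dec_many {ι : Type} {K : Reg} (X : ι → LowerSet P) {S : Set ι} (hS : S.Finite)
    (h : ∀ i ∈ S, Supp K (X i)) (r : P) (hr : InK K r.toCond) :
    ∃ r' ≤ r, InK K r'.toCond ∧ ∀ i ∈ S, ∃ b, DecB (X i) b r' := by
  induction S, hS using Set.Finite.induction_on with
  | empty => exact ⟨r, le_rfl, hr, by simp⟩
  | @insert x S _ _ ih =>
    obtain ⟨q, a, b, c⟩ := ih fun y hy => h y (Set.mem_insert_of_mem _ hy)
    obtain ⟨s, d, e, f⟩ := h x (Set.mem_insert _ _) q b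
    refine ⟨s, d.trans a, e, ?_⟩
    rintro y (rfl | hy)
    · exact f
    · obtain ⟨k, hk⟩ := c y hy
      exact ⟨k, hk.mono d⟩

/-- The hitting lemma. -/
theorem hit {K : Reg} (hC : Closed K) (hG : Good K) (z : ℕ → LowerSet P)
    (hz : ∀ n, Supp K (z n)) {w : Y} (hw : w ∉ K.y)
    (hw' : ∀ l ∈ K.l, Valid l → ∀ i ∉ K.i l, w ≠ cc (et l i)) (p : P) (k0 : ℕ) :
    ∃ q ≤ p, ∃ k, k0 ≤ k ∧ ∃ s : List Bool, PreF z s q ∧ s.length = 2 * k ∧
      ∀ n, k ≤ n → n < 2 * k → q.co (w, n) = some (s.getD n false) := by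
  obtain ⟨p1, a1, a2⟩ := align hC hG p
  obtain ⟨k, hk⟩ := ((p1.co_fin.image fun x => x.2 + 1).insert k0).bddAbove
  obtain ⟨r, b1, b2, b3⟩ := dec_many z (Set.finite_lt_nat (2 * k)) (fun n _ => hz n)
    (res K p1) (res_inK _ _)
  choose! g hg using b3
  obtain ⟨q, c1, c2, c3⟩ := reduce hC hG a2 b2 b1
  let f : Y × ℕ → Option Bool := fun x => if x.1 = w ∧ x.2 < 2 * k then some (g x.2) else none
  have hf : {x | f x ≠ none}.Finite := by
    refine ((Set.finite_singleton w).prod (Set.finite_lt_nat (2 * k))).subset fun x hx => ?_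
    by_contra hc
    exact hx (if_neg hc)
  have hs : ∀ n < 2 * k, ((List.range (2 * k)).map g).getD n false = g n := fun n hn => by
    simp [List.getD_eq_getElem?_getD, hn]
  refine ⟨cohen q f hf, (cohen_le _ _ _).trans (c2.trans a1), k, hk (Set.mem_insert _ _),
    (List.range (2 * k)).map g, fun i hi => ?_, by simp, fun n h1 h2 => ?_⟩
  · have hi' : i < 2 * k := by simpa using hi
    rw [hs i hi']
    exact (hg i hi').mono ((cohen_le _ _ _).trans c1)
  · have : p1.co (w, n) = none := by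
      by_contra hc
      have : n + 1 ≤ k := hk (Set.mem_insert_of_mem _ ⟨(w, n), hc, rfl⟩)
      omega
    rw [hs n h2]
    simp [cohen, c3 (w, n) hw hw', this, f, h2]

end Pool.Agent.Lib.MP_145df4_lc
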