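import Mathlib
import Pool.Agent.Lib.MP_145df4_lc.Align

/-! The countable chain condition and countable good regions. -/

set_option autoImplicit false

namespace Pool.Agent.Lib.MP_145df4_lc

open Classical

theorem fn_ccc_aux {α I C : Type} [Countable C] (f : α → I → Option C)
    (hf : ∀ a, {x | f a x ≠ none}.Finite) (n : ℕ) : ∀ (Z : Set I) (S : Set α),
    (∀ a ∈ S, ({x | f a x ≠ none} \ Z).ncard ≤ n) →
    (∀ a ∈ S, ∀ b ∈ S, a ≠ b → ∃ x ∉ Z, f a x ≠ none ∧ f b x ≠ none ∧ f a x ≠ f b x) →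
    S.Countable := by
  induction n with
  | zero =>
    intro Z S h1 h2
    refine Set.Subsingleton.countable fun a ha b hb => ?_
    by_contra hc
    obtain ⟨x, x1, x2, -⟩ := h2 a ha b hb hc
    have := (Set.ncard_eq_zero ((hf a).subset Set.sdiff_subset)).1 (Nat.le_zero.1 (h1 a ha))
    exact Set.eq_empty_iff_forall_notMem.1 this x ⟨x2, x1⟩
  | succ n ih =>
    intro Z S h1 h2
    rcases S.eq_empty_or_nonempty with rfl | ⟨a, ha⟩
    · exact Set.countable_empty
    have : S ⊆ insert a (⋃ x ∈ {x | f a x ≠ none} \ Z, ⋃ c : C, {b | b ∈ S ∧ f b x = some c}) := by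
      intro b hb
      by_cases e : b = a
      · exact Or.inl e
      · obtain ⟨x, x1, x2, x3, -⟩ := h2 b hb a ha e
        obtain ⟨c, hc⟩ := Option.ne_none_iff_exists'.1 x2
        exact Or.inr (Set.mem_biUnion (x := x) ⟨x3, x1⟩ (Set.mem_iUnion.2 ⟨c, hb, hc⟩))
    refine Set.Countable.mono this (Set.Countable.insert _ (Set.Countable.biUnion
      ((hf a).subset Set.sdiff_subset).countable fun x hx => Set.countable_iUnion fun c => ?_))
    refine ih (insert x Z) _ (fun b hb => ?_) fun b hb b' hb' e => ?_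
    · have h3 := h1 b hb.1
      have h4 : x ∈ {x | f b x ≠ none} \ Z := ⟨by simp [hb.2], hx.2⟩
      have h5 := Set.ncard_sdiff_singleton_lt_of_mem h4 ((hf b).subset Set.sdiff_subset)
      rw [Set.sdiff_sdiff, Set.union_singleton] at h5
      omega
    · obtain ⟨y, y1, y2, y3, y4⟩ := h2 b hb.1 b' hb'.1 e
      refine ⟨y, ?_, y2, y3, y4⟩
      rintro (rfl | h)
      exacts [y4 (hb.2.trans hb'.2.symm), y1 h]

theorem fn_ccc {α I C : Type} [Countable C] (f : α → I → Option C)
    (hf : ∀ a, {x | f a x ≠ none}.Finite)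
    (h : ∀ a b, a ≠ b → ∃ x, f a x ≠ none ∧ f b x ≠ none ∧ f a x ≠ f b x) : Countable α := by
  rw [← Set.countable_univ_iff]
  have : (Set.univ : Set α) ⊆ ⋃ n, {a | ({x | f a x ≠ none} \ ∅).ncard ≤ n} :=
    fun a _ => Set.mem_iUnion.2 ⟨({x | f a x ≠ none} \ ∅).ncard, le_refl ({x | f a x ≠ none} \ ∅).ncard⟩
  refine Set.Countable.mono this (Set.countable_iUnion fun n =>
    fn_ccc_aux f hf n ∅ _ (fun a ha => ha) fun a _ b _ e => ?_)
  obtain ⟨x, hx⟩ := h a b e
  exact ⟨x, fun h => h, hx⟩

theorem compat {p q : P} (hp : ∀ l, p.len l ≠ 0 → 2 * (p.E l).card ≤ p.len l)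
    (hq : ∀ l, q.len l ≠ 0 → 2 * (q.E l).card ≤ q.len l)
    (h1 : ∀ x, p.co x ≠ none → q.co x ≠ none → p.co x = q.co x)
    (h2 : ∀ l, p.len l ≠ 0 → q.len l ≠ 0 → p.len l = q.len l ∧ p.T l = q.T l) :
    ∃ r, r ≤ p ∧ r ≤ q := by
  let r : P :=
    { co := fun x => (p.co x).or (q.co x)
      len := fun l => if p.len l = 0 then q.len l else p.len l
      T := fun l => if p.len l = 0 then q.T l else p.T l
      E := fun l => p.E l ∪ q.E l
      co_fin := (p.co_fin.union q.co_fin).subset fun x hx => by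
        by_contra hc
        simp only [Set.mem_union, Set.mem_ofPred_eq, not_or, not_not] at hc
        exact hx (by simp [hc.1, hc.2])
      len_fin := (p.len_fin.union q.len_fin).subset fun x hx => by
        simp only [Set.mem_ofPred_eq] at hx
        split_ifs at hx with h
        exacts [Or.inr hx, Or.inl hx]
      T_out := fun l n h => by
        split_ifs at h ⊢
        exacts [q.T_out l n h, p.T_out l n h]
      T_wt := fun l n => by
        split_ifs
        exacts [q.T_wt l n, p.T_wt l n]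
      E_card := fun l => by
        split_ifs with h
        · simpa [p.E_empty h] using q.E_card l
        · by_cases h' : q.len l = 0
          · simpa [q.E_empty h'] using p.E_card l
          · have := Finset.card_union_le (p.E l) (q.E l)
            have := hp l h
            have := hq l h'
            have := (h2 l h h').1
            omega
      vc := fun l h => by
        split_ifs at h
        exacts [q.vc l h, p.vc l h] }
  refine ⟨r, Le.easy ⟨fun x b h => by simp [r, h], fun l => ?_, fun l n h => ?_,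
    fun l => Finset.subset_union_left⟩ fun l i h => ?_,
    Le.easy ⟨fun x b h => ?_, fun l => ?_, fun l n h => ?_,
    fun l => Finset.subset_union_right⟩ fun l i h => ?_⟩
  · simp only [r]
    split_ifs
    omega
    exact le_rfl
  · simp only [r, if_neg (show p.len l ≠ 0 by omega)]
  · simp only [r, if_neg (p.len_ne h), le_rfl]
  · simp only [r]
    by_cases h' : p.co x = none
    · simp [h', h]
    · rw [h1 x h' (by simp [h]), h]
      rfl
  · simp only [r]
    split_ifs with h'
    · exact le_rfl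
    · by_cases h'' : q.len l = 0
      · omega
      · exact (h2 l h' h'').1.ge
  · simp only [r]
    split_ifs with h'
    · rfl
    · rw [(h2 l h' (by omega)).2]
  · simp only [r]
    split_ifs with h'
    · exact le_rfl
    · exact (h2 l h' (q.len_ne h)).1.le

theorem ccc {α : Type} (g : α → P) (h : ∀ a b, (∃ r, r ≤ g a ∧ r ≤ g b) → a = b) :
    Countable α := by
  choose q q1 q2 using fun a => slack_all (fun c => 2 * c) (g a)
  let f : α → (Y × ℕ) ⊕ Lam → Option (Bool ⊕ List V) := fun a x =>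
    match x with
    | .inl x => ((q a).co x).map .inl
    | .inr l => if (q a).len l = 0 then none
        else some (.inr ((List.range ((q a).len l)).map ((q a).T l)))
  refine fn_ccc f (fun a => ?_) fun a b e => ?_
  · refine (((q a).co_fin.image Sum.inl).union ((q a).len_fin.image Sum.inr)).subset ?_
    rintro (x | l) hx
    · exact Or.inl ⟨x, fun h => hx (by simp [f, h]), rfl⟩
    · exact Or.inr ⟨l, fun h => hx (by simp [f, h]), rfl⟩
  · by_contra hc
    push Not at hc
    obtain ⟨r, r1, r2⟩ := compat (q2 a) (q2 b) (fun x h1 h2 => by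
      have := hc (.inl x) (by simpa [f] using h1) (by simpa [f] using h2)
      exact Option.map_injective Sum.inl_injective this) (fun l h1 h2 => by
      have := hc (.inr l) (by simpa [f] using h1) (by simpa [f] using h2)
      simp only [f, if_neg h1, if_neg h2, Option.some.injEq, Sum.inr.injEq] at this
      have e1 : (q a).len l = (q b).len l := by simpa using congrArg List.length this
      refine ⟨e1, funext fun n => ?_⟩
      by_cases hn : n < (q a).len l
      · rw [← e1] at this
        exact List.map_inj_left.1 this n (List.mem_range.2 hn)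
      · rw [(q a).T_out l n (by omega), (q b).T_out l n (by omega)])
    exact e (h a b ⟨r, r1.trans (q1 a), r2.trans (q1 b)⟩)

/-- A countable antichain of labelled conditions, predense among all labelled conditions. -/
theorem ccc_sel {X : Type} (D : P → X → Prop) : ∃ A : Set (P × X), A.Countable ∧
    (∀ a ∈ A, D a.1 a.2) ∧ (∀ a ∈ A, ∀ b ∈ A, (∃ r, r ≤ a.1 ∧ r ≤ b.1) → a = b) ∧
    ∀ p x, D p x → ∃ a ∈ A, ∃ r, r ≤ p ∧ r ≤ a.1 := by
  obtain ⟨A, hA⟩ := zorn_subset {A : Set (P × X) | (∀ a ∈ A, D a.1 a.2) ∧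
      ∀ a ∈ A, ∀ b ∈ A, (∃ r, r ≤ a.1 ∧ r ≤ b.1) → a = b} (by
    intro c hc hch
    refine ⟨⋃₀ c, ⟨fun a ⟨s, hs, ha⟩ => (hc hs).1 a ha, ?_⟩, fun s hs => Set.subset_sUnion_of_mem hs⟩
    rintro a ⟨s, hs, ha⟩ b ⟨t, ht, hb⟩
    rcases hch.total hs ht with h | h
    exacts [(hc ht).2 a (h ha) b hb, (hc hs).2 a ha b (h hb)])
  refine ⟨A, ?_, hA.prop.1, hA.prop.2, fun p x hp => ?_⟩
  · exact ccc (fun a : A => a.1.1) fun a b h => Subtype.ext (hA.prop.2 _ a.2 _ b.2 h)
  · by_contra hc
    push Not at hc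
    have : (p, x) ∈ A := by
      refine hA.le_of_ge (y := insert (p, x) A) ⟨?_, ?_⟩ (Set.subset_insert _ _)
        (Set.mem_insert _ _)
      · rintro a (rfl | ha)
        exacts [hp, hA.prop.1 a ha]
      · rintro a (rfl | ha) b (rfl | hb) ⟨r, r1, r2⟩
        exacts [rfl, (hc b hb r r1 r2).elim, (hc a ha r r2 r1).elim,
          hA.prop.2 a ha b hb ⟨r, r1, r2⟩]
    exact hc _ this p le_rfl le_rfl

theorem closure2 {Z : Type} (Op : Z → Z → Set Z) (h : ∀ a b, (Op a b).Countable) {B : Set Z}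
    (hB : B.Countable) : ∃ K : Set Z, B ⊆ K ∧ K.Countable ∧ ∀ a ∈ K, ∀ b ∈ K, Op a b ⊆ K := by
  let s : ℕ → Set Z := fun n => Nat.rec B (fun _ S => S ∪ ⋃ a ∈ S, ⋃ b ∈ S, Op a b) n
  have hs : Monotone s := monotone_nat_of_le_succ fun n => Set.subset_union_left
  refine ⟨⋃ n, s n, Set.subset_iUnion s 0, Set.countable_iUnion fun n => ?_, ?_⟩
  · induction n with
    | zero => exact hB
    | succ n ih => exact ih.union (ih.biUnion fun a _ => ih.biUnion fun b _ => h a b)
  · intro a ha b hb z hz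
    obtain ⟨m, hm⟩ := Set.mem_iUnion.1 ha
    obtain ⟨n, hn⟩ := Set.mem_iUnion.1 hb
    exact Set.mem_iUnion.2 ⟨max m n + 1, Or.inr (Set.mem_biUnion (hs (le_max_left m n) hm)
      (Set.mem_biUnion (hs (le_max_right m n) hn) hz))⟩

abbrev Z : Type := Y ⊕ Lam ⊕ Lam × J

def supp (p : Cond) : Set Z :=
  (fun x : Y × ℕ => .inl x.1) '' {x | p.co x ≠ none} ∪
    ((fun l => .inr (.inl l)) '' {l | p.len l ≠ 0} ∪
      (fun x => .inr (.inr x)) '' {x : Lam × J | x.2 ∈ p.E x.1})

theorem supp_countable (p : Cond) : (supp p).Countable := by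
  refine (p.co_fin.countable.image _).union ((p.len_fin.countable.image _).union
    (Set.Countable.image (Set.Finite.countable ?_) _))
  refine (p.len_fin.prod (p.len_fin.biUnion fun l _ => (p.E l).finite_toSet)).subset ?_
  rintro ⟨l, i⟩ a
  exact ⟨p.len_ne a, Set.mem_biUnion (p.len_ne a) a⟩

def Op : Z → Z → Set Z
  | .inr (.inl l), .inl y =>
      (fun i => .inr (.inr (l, i))) '' {i | Valid l ∧ y.1 < dl l ∧ et l i ≤ y.1}
  | .inr (.inl l), .inr _ => {.inl (bt (dl l))}
  | .inr (.inr x), _ => insert (.inl (cc (et x.1 x.2))) (⋃ n, ⋃ k, supp (nm x.1 x.2 n k))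
  | .inl _, _ => ∅

theorem Op_countable (a b : Z) : (Op a b).Countable := by
  rcases a with y | l | x
  · exact Set.countable_empty
  · rcases b with y | b
    · refine Set.Countable.image ?_ _
      by_cases h : Valid l ∧ y.1 < dl l
      · exact (h.1.cnt h.2).mono fun i hi => hi.2.2
      · exact Set.countable_empty.mono fun i hi => h ⟨hi.1, hi.2.1⟩
    · exact Set.countable_singleton _
  · exact (Set.countable_iUnion fun n => Set.countable_iUnion fun k =>
      supp_countable _).insert _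

theorem exists_good {B : Set P} (hB : B.Countable) :
    ∃ K, Closed K ∧ Good K ∧ K.y.Countable ∧ ∀ p ∈ B, InK K p.toCond := by
  obtain ⟨S, s1, s2, s3⟩ := closure2 Op Op_countable
    (hB.biUnion fun p _ => supp_countable p.toCond)
  let K : Reg := ⟨{y | .inl y ∈ S}, {l | .inr (.inl l) ∈ S}, fun l => {i | .inr (.inr (l, i)) ∈ S}⟩
  have key : ∀ p : Cond, supp p ⊆ S → InK K p := fun p h =>
    ⟨fun x a => h (Or.inl ⟨x, a, rfl⟩), fun l a => h (Or.inr (Or.inl ⟨l, a, rfl⟩)),
      fun l i a => h (Or.inr (Or.inr ⟨(l, i), a, rfl⟩))⟩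
  refine ⟨K, fun l hl _ => ⟨s3 _ hl _ hl rfl, fun i hi => ⟨s3 _ hi _ hi (Or.inl rfl),
    fun n k => key _ fun z hz => s3 _ hi _ hi (Or.inr (Set.mem_iUnion₂.2 ⟨n, k, hz⟩))⟩⟩,
    fun l hl hv i hi y hy h => ?_, s2.preimage Sum.inl_injective,
    fun p hp => key _ fun z hz => s1 (Set.mem_biUnion hp hz)⟩
  by_contra hc
  exact hi (s3 _ hl _ hy ⟨i, ⟨hv, h, not_lt.1 hc⟩, rfl⟩)

/-- Countably many open sets are supported by a countable good region. -/
theorem exists_supp {ι : Type} [Countable ι] (X : ι → LowerSet P) :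
    ∃ K, Closed K ∧ Good K ∧ K.y.Countable ∧ ∀ i, Supp K (X i) := by
  choose A a1 a2 _ a4 using fun i => ccc_sel fun p b => DecB (X i) b p
  obtain ⟨K, k1, k2, k3, k4⟩ := exists_good (B := ⋃ i, Prod.fst '' A i)
    (Set.countable_iUnion fun i => (a1 i).image _)
  refine ⟨K, k1, k2, k3, fun i r hr => ?_⟩
  obtain ⟨q, q1, b, q2⟩ := exists_decB (X i) r
  obtain ⟨a, ha, s, s1, s2⟩ := a4 i q b q2
  exact ⟨res K s, res_le' k1 (s1.trans q1) hr, res_inK _ _, a.2,
    (a2 i a ha).mono (res_le' k1 s2 (k4 _ (Set.mem_iUnion.2 ⟨i, a, ha, rfl⟩)))⟩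

end Pool.Agent.Lib.MP_145df4_lc
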