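import Mathlib

/-! Cardinal invariants `add`, `cof`, `cofin` of a family of sets. -/

set_option autoImplicit false

namespace Pool.Agent.Lib.MP_145df4_lc

/-- A sigma-ideal: closed under subsets and countable unions. -/
def IsSigmaIdeal {X : Type} (I : Set (Set X)) : Prop :=
  (∀ A ∈ I, ∀ B : Set X, B ⊆ A → B ∈ I) ∧
    ∀ S : Set (Set X), S ⊆ I → S.Countable → ⋃₀ S ∈ I

/-- The additivity: least size of a subfamily of `I` whose union is not in `I`. -/
noncomputable def add {X : Type} (I : Set (Set X)) : Cardinal.{0} :=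
  sInf {c | ∃ S : Set (Set X), S ⊆ I ∧ ⋃₀ S ∉ I ∧ Cardinal.mk S = c}

/-- The cofinality: least size of a subfamily of `I` cofinal under inclusion. -/
noncomputable def cof {X : Type} (I : Set (Set X)) : Cardinal.{0} :=
  sInf {c | ∃ S : Set (Set X), S ⊆ I ∧ (∀ A ∈ I, ∃ B ∈ S, A ⊆ B) ∧ Cardinal.mk S = c}

/-- `γ` is a limit ordinal and `I` is the union of a strictly increasing `γ`-sequence of
sigma-ideals. -/
def IsChainLength {X : Type} (I : Set (Set X)) (γ : Ordinal.{0}) : Prop :=
  Order.IsSuccLimit γ ∧ ∃ J : Ordinal.{0} → Set (Set X),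
    (∀ α < γ, IsSigmaIdeal (J α)) ∧ (∀ α β, α < β → β < γ → J α ⊂ J β) ∧
      I = ⋃ α ∈ Set.Iio γ, J α

/-- The invariant `cofin`: the least limit length of such a chain. -/
noncomputable def cofin {X : Type} (I : Set (Set X)) : Ordinal.{0} :=
  sInf {γ | IsChainLength I γ}

end Pool.Agent.Lib.MP_145df4_lc
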