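import Mathlib
import Pool.Agent.Lib.MP_145df4_lc.Ccc

/-! Names of slaloms as families of open sets; avoiding reals; conversion of open covers. -/

set_option autoImplicit false

namespace Pool.Agent.Lib.MP_145df4_lc

open Classical
open scoped ENNReal

abbrev RN : Type := ℕ → LowerSet P
abbrev SI : Type := ℕ × ℕ × List Bool
abbrev SL : Type := SI → LowerSet P

def neg (X : LowerSet P) : LowerSet P :=
  ⟨{p | ∀ q ≤ p, q ∉ X}, fun _ _ h hp q hq => hp q (hq.trans h)⟩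

theorem mem_neg {X : LowerSet P} {p : P} : p ∈ neg X ↔ ∀ q ≤ p, q ∉ X := Iff.rfl

def Wt (S : SL) : Prop := ∀ r j n, wt {s | r ∈ S (j, n, s)} ≤ 2⁻¹ ^ n

def Det (η : L) (X : LowerSet P) : Prop := ∀ q ∈ X, res (Kl η) q ∈ X

def DetS (η : L) (S : SL) : Prop := ∀ x, Det η (S x)

theorem Det.mono {η θ : L} {X : LowerSet P} (h : Det η X) (h' : η ≤ θ) : Det θ X :=
  fun q hq => X.lower (res_le' (closed_Kl θ) (le_res _ q) ((res_inK _ q).mono h')) (h q hq)

theorem Det.supp {η : L} {X : LowerSet P} (h : Det η X) : Supp (Kl η) X := by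
  intro r hr
  by_cases h' : ∃ q ≤ r, q ∈ X
  · obtain ⟨q, a, b⟩ := h'
    exact ⟨_, res_le' (closed_Kl η) a hr, res_inK _ _, true, h q b⟩
  · exact ⟨r, le_rfl, hr, false, fun q a b => h' ⟨q, a, b⟩⟩

/-- The slalom of a Cohen real. -/
def wS (w : Y) : SL := fun x =>
  ⟨{q | x.2.2.length = 2 * x.2.1 ∧ ∀ n, x.2.1 ≤ n → n < 2 * x.2.1 →
      q.co (w, n) = some (x.2.2.getD n false)},
    fun _ _ h hp => ⟨hp.1, fun n a b => h.ext.co _ _ (hp.2 n a b)⟩⟩

theorem wt_wS (w : Y) : Wt (wS w) := fun r _ _ => wt_block (fun n => r.co (w, n)) fun _ h => h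

theorem det_wS {w : Y} {η : L} (h : w.1 < η) : DetS η (wS w) := fun _ _ hq =>
  ⟨hq.1, fun n a b => by
    simp only [res, if_pos (show (w, n).1 ∈ (Kl η).y from h)]
    exact hq.2 n a b⟩

/-- The generic slalom of a killer. -/
def tS (l : Lam) : SL := fun x =>
  ⟨{q | x.2.1 < q.len l ∧ x.2.2 ∈ q.T l x.2.1},
    fun _ _ h hp => ⟨hp.1.trans_le (h.ext.len l), by rw [h.ext.T l _ hp.1]; exact hp.2⟩⟩

theorem wt_tS (l : Lam) : Wt (tS l) := fun r _ n => (wt_mono fun _ h => h.2).trans (r.T_wt l n)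

/-- A slalom restricted to one half of a Cohen partition. -/
def yS (S : SL) (η : L) (ε : Bool) : SL := fun x =>
  ⟨{q | q ∈ S x ∧ q.co (cc η, x.2.1) = some ε},
    fun _ _ h hp => ⟨(S x).lower h hp.1, h.ext.co _ _ hp.2⟩⟩

/-- Slalom names given by countable predense sets. -/
structure SD : Type where
  a : ℕ → ℕ → P
  v : ℕ → ℕ → V
  pre : ∀ n p, ∃ k r, r ≤ p ∧ r ≤ a n k
  wt : ∀ n k, wt ↑(v n k) ≤ 2⁻¹ ^ (2 * n)
  cons : ∀ n k k' r, r ≤ a n k → r ≤ a n k' → v n k = v n k'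

instance : Inhabited SD :=
  ⟨⟨fun _ _ => ⊤, fun _ _ => ∅, fun _ p => ⟨0, p, le_rfl, le_top⟩, by simp [wt_empty],
    fun _ _ _ _ _ _ => rfl⟩⟩

def SD.S (D : SD) : SL := fun x =>
  ⟨{q | ∃ k, q ≤ D.a x.2.1 k ∧ x.2.2 ∈ D.v x.2.1 k},
    fun _ _ h ⟨k, a, b⟩ => ⟨k, le_trans h a, b⟩⟩

theorem SD.wt_S (D : SD) : Wt D.S := by
  intro r j n
  by_cases h : ∃ k, r ≤ D.a n k
  · obtain ⟨k, hk⟩ := h
    refine le_trans (wt_mono ?_) ((D.wt n k).trans (half_pow_anti (by omega)))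
    rintro s ⟨k', a, b⟩
    rw [D.cons n k k' r hk a]
    exact b
  · refine le_trans (wt_mono (W := ∅) ?_) (by simp [wt_empty])
    rintro s ⟨k', a, -⟩
    exact h ⟨k', a⟩

theorem exists_lev_countable {B : Set P} (hB : B.Countable) :
    ∃ η, ∀ p ∈ B, InK (Kl η) p.toCond := by
  choose g hg using fun p : P => exists_lev p.toCond
  obtain ⟨b, hb⟩ := L.bdd_countable (hB.image g)
  exact ⟨b, fun p hp => (hg p).mono (hb _ ⟨p, hp, rfl⟩).le⟩

theorem SD.lev (D : SD) : ∃ η, ∀ n k, InK (Kl η) (D.a n k).toCond := by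
  obtain ⟨η, h⟩ := exists_lev_countable (Set.countable_range fun x : ℕ × ℕ => D.a x.1 x.2)
  exact ⟨η, fun n k => h _ ⟨(n, k), rfl⟩⟩

theorem SD.det (D : SD) : ∃ η, DetS η D.S := by
  obtain ⟨η, h⟩ := D.lev
  exact ⟨η, fun x q ⟨k, a, b⟩ => ⟨k, res_le' (closed_Kl η) a (h _ _), b⟩⟩

noncomputable def cnum (ι : Type) [Countable ι] : ι → ℕ := (exists_injective_nat ι).choose

theorem cnum_inj (ι : Type) [Countable ι] : Function.Injective (cnum ι) :=
  (exists_injective_nat ι).choose_spec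

/-- Merging countably many families of slaloms. -/
def mrg {ι : Type} [Countable ι] (S : ι → SL) : SL := fun x =>
  ⟨{q | ∃ i, cnum ι i = x.1.unpair.1 ∧ q ∈ S i (x.1.unpair.2, x.2)},
    fun _ _ h ⟨i, a, b⟩ => ⟨i, a, (S i _).lower h b⟩⟩

theorem wt_mrg {ι : Type} [Countable ι] {S : ι → SL} (h : ∀ i, Wt (S i)) : Wt (mrg S) := by
  intro r j n
  by_cases h' : ∃ i, cnum ι i = j.unpair.1
  · obtain ⟨i, hi⟩ := h'
    refine le_trans (wt_mono ?_) (h i r j.unpair.2 n)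
    rintro s ⟨i', a, b⟩
    rwa [cnum_inj ι (a.trans hi.symm)] at b
  · refine le_trans (wt_mono (W := ∅) ?_) (by simp [wt_empty])
    rintro s ⟨i, a, -⟩
    exact h' ⟨i, a⟩

theorem det_mrg {ι : Type} [Countable ι] {S : ι → SL} {η : L} (h : ∀ i, DetS η (S i)) :
    DetS η (mrg S) := fun _ q ⟨i, a, b⟩ => ⟨i, a, h i _ q b⟩

theorem le_mrg {ι : Type} [Countable ι] (S : ι → SL) (i : ι) (j : ℕ) :
    ∃ j', ∀ n s, ∀ q ∈ S i (j, n, s), q ∈ mrg S (j', n, s) :=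
  ⟨Nat.pair (cnum ι i) j, fun n s q hq => ⟨i, by simp, by simpa using hq⟩⟩

def Hs (S : SL) (z : RN) (j k : ℕ) : LowerSet P :=
  ⟨{r | ∃ n, k ≤ n ∧ ∃ s, r ∈ S (j, n, s) ∧ PreF z s r},
    fun _ _ h ⟨n, a, s, b, c⟩ => ⟨n, a, s, (S _).lower h b, c.mono h⟩⟩

/-- The conditions forcing that the real is captured infinitely often. -/
def InB (S : SL) (z : RN) : LowerSet P :=
  ⟨{r | ∃ j, ∀ k, ∀ r' ≤ r, ∃ r'' ≤ r', r'' ∈ Hs S z j k},
    fun _ _ h ⟨j, a⟩ => ⟨j, fun k r' hr => a k r' (hr.trans h)⟩⟩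

theorem top_inB {K : Reg} (hC : Closed K) (hG : Good K) (z : RN) (hz : ∀ n, Supp K (z n))
    {w : Y} (hw : w ∉ K.y) (hw' : ∀ l ∈ K.l, Valid l → ∀ i ∉ K.i l, w ≠ cc (et l i)) :
    ⊤ ∈ InB (wS w) z := by
  refine ⟨0, fun k r _ => ?_⟩
  obtain ⟨q, a, n, b, s, c, d⟩ := hit hC hG z hz hw hw' r k
  exact ⟨q, a, n, b, s, d, c⟩

/-- The tail unions of a family of slaloms. -/
def US (S : SL) (k : ℕ) (s : List Bool) : LowerSet P :=
  ⟨{r | ∃ j n, k + j + 2 ≤ n ∧ r ∈ S (j, n, s)},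
    fun _ _ h ⟨j, n, a, b⟩ => ⟨j, n, a, (S _).lower h b⟩⟩

def Cov (S : SL) (t : List Bool) : LowerSet P :=
  ⟨{r | ∀ z, Pre t z → ∃ s, r ∈ US S 1 s ∧ Pre s z}, fun _ _ h hp z hz =>
    (hp z hz).imp fun _ hs => ⟨(US S 1 _).lower h hs.1, hs.2⟩⟩

/-- The leftmost branch outside `c`. -/
noncomputable def br (c : List Bool → Prop) : ℕ → List Bool
  | 0 => []
  | n + 1 => br c n ++ [decide (c (br c n ++ [false]))]

theorem br_length (c : List Bool → Prop) (n : ℕ) : (br c n).length = n := by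
  induction n with
  | zero => rfl
  | succ n ih => simp [br, ih]

theorem br_congr {c c' : List Bool → Prop} {n : ℕ} (h : ∀ t : List Bool, t.length ≤ n →
    (c t ↔ c' t)) : br c n = br c' n := by
  induction n with
  | zero => rfl
  | succ n ih =>
    have := ih fun t ht => h t (by omega)
    simp only [br, ← this]
    rw [decide_eq_decide.2 (h _ (by simp [br_length]))]

theorem pre_snoc {t : List Bool} {z : ℕ → Bool} (h : Pre t z) : Pre (t ++ [z t.length]) z := by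
  intro i hi
  rw [List.getElem_append]
  split_ifs with h'
  · exact h i h'
  · have : i = t.length := by simp at hi; omega
    subst this
    simp

theorem br_not_cov {S : SL} (h : Wt S) (r : P) (n : ℕ) : r ∉ Cov S (br (r ∈ Cov S ·) n) := by
  induction n with
  | zero =>
    intro hc
    obtain ⟨z, hz⟩ := exists_avoid (U := {s | r ∈ US S 1 s})
      ((wt_tail (fun j n => {s | r ∈ S (j, n, s)}) (h r) 1).trans_lt (by simp))
    obtain ⟨s, a, b⟩ := hc z fun i hi => absurd hi (Nat.not_lt_zero _)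
    exact hz s a b
  | succ n ih =>
    intro hc
    simp only [br] at hc
    by_cases h0 : r ∈ Cov S (br (r ∈ Cov S ·) n ++ [false])
    · simp only [h0, decide_true] at hc
      refine ih fun z hz => ?_
      have := pre_snoc hz
      cases hb : z (br (r ∈ Cov S ·) n).length <;> rw [hb] at this
      exacts [h0 z this, hc z this]
    · simp only [h0, decide_false] at hc

theorem cov_congr {S : SL} {q r : P} (h : r ≤ q) {n : ℕ}
    (hq : ∀ t : List Bool, t.length ≤ n → ∃ b, DecB (Cov S t) b q) (t : List Bool)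
    (ht : t.length ≤ n) : r ∈ Cov S t ↔ q ∈ Cov S t := by
  refine ⟨fun a => ?_, fun a => (Cov S t).lower h a⟩
  obtain ⟨b, hb⟩ := hq t ht
  cases b
  exacts [(hb r h a).elim, hb]

/-- A real avoiding the slaloms of a family. -/
def Av (S : SL) : RN := fun n =>
  ⟨{q | (∀ t : List Bool, t.length ≤ n + 1 → ∃ b, DecB (Cov S t) b q) ∧
      q ∈ Cov S (br (q ∈ Cov S ·) n ++ [false])}, fun q r h hq => by
    refine ⟨fun t ht => (hq.1 t ht).imp fun _ hb => hb.mono h, ?_⟩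
    rw [br_congr (c' := (q ∈ Cov S ·)) fun t ht => cov_congr h hq.1 t (by omega)]
    exact (Cov S _).lower h hq.2⟩

theorem av_dec {S : SL} {q : P} {n : ℕ}
    (hq : ∀ t : List Bool, t.length ≤ n + 1 → ∃ b, DecB (Cov S t) b q) :
    DecB (Av S n) (decide (q ∈ Cov S (br (q ∈ Cov S ·) n ++ [false]))) q := by
  by_cases h : q ∈ Cov S (br (q ∈ Cov S ·) n ++ [false])
  · simp only [h, decide_true]
    exact ⟨hq, h⟩
  · simp only [h, decide_false]
    intro r hr a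
    have a2 := a.2
    rw [br_congr (c' := (q ∈ Cov S ·)) fun t ht => cov_congr hr hq t (by omega)] at a2
    exact h ((cov_congr hr hq _ (by simp [br_length])).1 a2)

def Kall : Reg := ⟨Set.univ, Set.univ, fun _ => Set.univ⟩

theorem inK_all (p : Cond) : InK Kall p := ⟨fun _ _ => trivial, fun _ _ => trivial, fun _ _ _ => trivial⟩

theorem dec_fin_all {ι : Type} (X : ι → LowerSet P) {S : Set ι} (hS : S.Finite) (r : P) :
    ∃ r' ≤ r, ∀ i ∈ S, ∃ b, DecB (X i) b r' := by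
  obtain ⟨r', a, -, b⟩ := dec_many (K := Kall) X hS (fun i _ r _ => by
    obtain ⟨q, a, b⟩ := exists_decB (X i) r
    exact ⟨q, a, inK_all _, b⟩) r (inK_all _)
  exact ⟨r', a, b⟩

theorem av_avoid {S : SL} (h : Wt S) {r : P} {j n : ℕ} {s : List Bool} (hn : j + 3 ≤ n)
    (hr : r ∈ S (j, n, s)) (hp : PreF (Av S) s r) : False := by
  obtain ⟨q, a, b⟩ := dec_fin_all (Cov S) (List.finite_length_le Bool s.length) r
  have key : ∀ m ≤ s.length, br (q ∈ Cov S ·) m = s.take m := by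
    intro m
    induction m with
    | zero => simp [br]
    | succ m ih =>
      intro hm
      have e := ((hp m hm).mono a).uniq (av_dec (n := m) fun t ht => b t (le_trans ht hm))
      rw [br, ← e, ih (by omega), List.take_add_one, List.getD_eq_getElem _ _ hm,
        List.getElem?_eq_getElem hm]
      rfl
  have := br_not_cov h q s.length
  rw [key _ le_rfl, List.take_length] at this
  exact this fun z hz => ⟨s, ⟨j, n, by omega, (S _).lower a hr⟩, hz⟩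

theorem av_supp {S : SL} {η : L} (h : DetS η S) (n : ℕ) : Supp (Kl η) (Av S n) := by
  intro r hr
  obtain ⟨q, a, b, c⟩ := dec_many (Cov S) (List.finite_length_le Bool (n + 1))
    (fun t _ => Det.supp (η := η) fun q hq z hz => (hq z hz).imp
      fun s ⟨⟨j, n, a, b⟩, c⟩ => ⟨⟨j, n, a, h _ q b⟩, c⟩) r hr
  exact ⟨q, a, b, _, av_dec c⟩

section conv

variable (O : List Bool → LowerSet P)

def Tail (q : P) (m j : ℕ) : Prop :=
  j ≤ m ∧ ∀ r ≤ q, wt {s | r ∈ O s ∧ m ≤ s.length} ≤ 2⁻¹ ^ (2 * j)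

theorem tail_dense (h : ∀ r, wt {s | r ∈ O s} ≤ 2) (q : P) (j : ℕ) :
    ∃ r ≤ q, ∃ m, Tail O r m j := by
  let w : ℝ≥0∞ := ⨆ x : {x : P × V // x.1 ≤ q ∧ ∀ s ∈ x.2, x.1 ∈ O s}, wt ↑x.1.2
  have hw : w ≤ 2 := iSup_le fun x => (wt_mono fun s hs => x.2.2 s hs).trans (h x.1.1)
  have hw' : w ≠ ⊤ := ne_top_of_le_ne_top (by simp) hw
  have : Nonempty {x : P × V // x.1 ≤ q ∧ ∀ s ∈ x.2, x.1 ∈ O s} := ⟨⟨(q, ∅), le_rfl, by simp⟩⟩
  obtain ⟨⟨⟨r, F⟩, a, b⟩, hx⟩ : ∃ x : {x : P × V // x.1 ≤ q ∧ ∀ s ∈ x.2, x.1 ∈ O s},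
      w ≤ wt ↑x.1.2 + 2⁻¹ ^ (2 * j) := by
    by_contra hc
    push Not at hc
    have h1 : w + 2⁻¹ ^ (2 * j) ≤ w := by
      conv_lhs => simp only [w]
      rw [ENNReal.iSup_add]
      exact iSup_le fun x => (hc x).le
    exact absurd h1 (not_le.2 (ENNReal.lt_add_right hw' (by simp)))
  simp only at a b hx
  obtain ⟨m, hm⟩ := ((F.finite_toSet.image fun s => s.length + 1).insert j).bddAbove
  refine ⟨r, a, m, hm (Set.mem_insert _ _), fun r' hr' => wt_le_of_finite fun F' hF' => ?_⟩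
  have hd : Disjoint (F : Set (List Bool)) F' := Set.disjoint_left.2 fun s h1 h2 => by
    have h3 : s.length + 1 ≤ m := hm (Set.mem_insert_of_mem _ ⟨s, h1, rfl⟩)
    have h4 := (hF' h2).2
    omega
  have h1 : wt ↑(F ∪ F') ≤ w := le_iSup_of_le (f := fun x : {x : P × V // x.1 ≤ q ∧
      ∀ s ∈ x.2, x.1 ∈ O s} => wt ↑x.1.2) ⟨(r', F ∪ F'), hr'.trans a, fun s hs => by
    rcases Finset.mem_union.1 hs with h | h
    exacts [(O s).lower hr' (b s h), (hF' h).1]⟩ le_rfl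
  rw [Finset.coe_union, wt_union_disjoint hd] at h1
  have hF : wt (F : Set (List Bool)) ≠ ⊤ :=
    ne_top_of_le_ne_top hw' (le_self_add.trans h1)
  exact (ENNReal.add_le_add_iff_left hF).1 (h1.trans hx)

def Mj (q : P) (m j : ℕ) : Prop := Tail O q m j ∧ ∀ m' < m, ∀ r ≤ q, ¬ Tail O r m' j

variable {O}

theorem Tail.mono {q r : P} {m j : ℕ} (h : Tail O q m j) (hr : r ≤ q) : Tail O r m j :=
  ⟨h.1, fun s hs => h.2 s (hs.trans hr)⟩

theorem Mj.mono {q r : P} {m j : ℕ} (h : Mj O q m j) (hr : r ≤ q) : Mj O r m j :=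
  ⟨h.1.mono hr, fun m' a s hs => h.2 m' a s (hs.trans hr)⟩

theorem Mj.uniq {q : P} {m m' j : ℕ} (h : Mj O q m j) (h' : Mj O q m' j) : m = m' := by
  rcases lt_trichotomy m m' with a | a | a
  exacts [(h'.2 m a q le_rfl h.1).elim, a, (h.2 m' a q le_rfl h'.1).elim]

theorem mj_dense (h : ∀ r, wt {s | r ∈ O s} ≤ 2) (q : P) (j : ℕ) : ∃ r ≤ q, ∃ m, Mj O r m j := by
  have : ∃ m, ∃ r ≤ q, Tail O r m j := by
    obtain ⟨r, a, m, b⟩ := tail_dense O h q j
    exact ⟨m, r, a, b⟩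
  obtain ⟨r, a, b⟩ := Nat.find_spec this
  exact ⟨r, a, _, b, fun m' hm s hs c => Nat.find_min this hm ⟨s, hs.trans a, c⟩⟩

theorem mj_many (h : ∀ r, wt {s | r ∈ O s} ≤ 2) (q : P) (n : ℕ) :
    ∃ r ≤ q, ∀ j < n, ∃ m, Mj O r m j := by
  induction n with
  | zero => exact ⟨q, le_rfl, by simp⟩
  | succ n ih =>
    obtain ⟨r, a, b⟩ := ih
    obtain ⟨s, c, d⟩ := mj_dense h r n
    refine ⟨s, c.trans a, fun j hj => ?_⟩
    rcases Nat.lt_succ_iff_lt_or_eq.1 hj with e | rfl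
    · exact (b j e).imp fun _ h => h.mono c
    · exact d

variable (O) in
def Blk (j : ℕ) (q : P) (v : V) : Prop :=
  ∃ m m', Mj O q m j ∧ Mj O q m' (j + 1) ∧
    (∀ s : List Bool, s.length < m' → ∃ b, DecB (O s) b q) ∧
    ∀ s, s ∈ v ↔ m ≤ s.length ∧ s.length < m' ∧ q ∈ O s

theorem blk_dense (h : ∀ r, wt {s | r ∈ O s} ≤ 2) (j : ℕ) (q : P) : ∃ r ≤ q, ∃ v, Blk O j r v := by
  obtain ⟨r1, a1, m, b1⟩ := mj_dense h q j
  obtain ⟨r2, a2, m', b2⟩ := mj_dense h r1 (j + 1)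
  obtain ⟨r3, a3, b3⟩ := dec_fin_all O (List.finite_length_lt Bool m') r2
  have hf : {s : List Bool | m ≤ s.length ∧ s.length < m' ∧ r3 ∈ O s}.Finite :=
    (List.finite_length_lt Bool m').subset fun _ h => h.2.1
  exact ⟨r3, a3.trans (a2.trans a1), hf.toFinset, m, m', b1.mono (a3.trans a2), b2.mono a3, b3,
    fun s => by simp⟩

theorem Blk.mem {j : ℕ} {q r : P} {v : V} (h : Blk O j q v) (hr : r ≤ q) {m m' : ℕ}
    (h1 : Mj O r m j) (h2 : Mj O r m' (j + 1)) (s : List Bool) :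
    s ∈ v ↔ m ≤ s.length ∧ s.length < m' ∧ r ∈ O s := by
  obtain ⟨k, k', a, b, c, d⟩ := h
  rw [d, (a.mono hr).uniq h1, ← (b.mono hr).uniq h2]
  refine and_congr_right fun _ => and_congr_right fun e => ⟨fun f => (O s).lower hr f, fun f => ?_⟩
  obtain ⟨b, hb⟩ := c s e
  cases b
  exacts [(hb r hr f).elim, hb]

/-- An open name of finite weight is captured by a slalom. -/
theorem conv_slalom (h : ∀ r, wt {s | r ∈ O s} ≤ 2) : ∃ D : SD, ∀ n p, ∃ q ≤ p, ∃ m,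
    ∀ s : List Bool, m ≤ s.length → ∀ r ≤ q, r ∈ O s → ∃ r' ≤ r, ∃ n', n ≤ n' ∧
      r' ∈ D.S (0, n', s) := by
  have key : ∀ j, ∃ g : ℕ → P × V, (∀ k, Blk O j (g k).1 (g k).2) ∧
      ∀ p, ∃ k r, r ≤ p ∧ r ≤ (g k).1 := by
    intro j
    obtain ⟨A, a1, a2, -, a4⟩ := ccc_sel (Blk O j)
    obtain ⟨r, _, v, hv⟩ := blk_dense h j ⊤
    obtain ⟨a, ha, -⟩ := a4 r v hv
    obtain ⟨g, rfl⟩ := a1.exists_eq_range ⟨a, ha⟩
    refine ⟨g, fun k => a2 _ ⟨k, rfl⟩, fun p => ?_⟩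
    obtain ⟨r, b, v, hv⟩ := blk_dense h j p
    obtain ⟨_, ⟨k, rfl⟩, s, s1, s2⟩ := a4 r v hv
    exact ⟨k, s, s1.trans b, s2⟩
  choose g g1 g2 using key
  refine ⟨⟨fun j k => (g j k).1, fun j k => (g j k).2, g2, fun j k => ?_,
    fun j k k' r a b => ?_⟩, fun n p => ?_⟩
  · obtain ⟨m, m', a, -, -, d⟩ := g1 j k
    refine le_trans (wt_mono fun s hs => ?_) (a.1.2 _ le_rfl)
    exact ⟨((d s).1 hs).2.2, ((d s).1 hs).1⟩
  · obtain ⟨m, m', c, d, -⟩ := g1 j k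
    ext s
    rw [(g1 j k).mem a (c.mono a) (d.mono a), (g1 j k').mem b (c.mono a) (d.mono a)]
  · obtain ⟨q, a, m, b⟩ := mj_dense h p n
    refine ⟨q, a, m, fun s hs r hr ho => ?_⟩
    obtain ⟨r1, c, d⟩ := mj_many h r (s.length + 2)
    choose! f hf using d
    have hn : n ≤ s.length := b.1.1.trans hs
    have e1 : f n = m := (hf n (by omega)).uniq (b.mono (c.trans hr))
    have hex : ∃ j, n ≤ j ∧ s.length < f (j + 1) :=
      ⟨s.length, hn, (hf (s.length + 1) (by omega)).1.1⟩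
    obtain ⟨j1, j2⟩ := Nat.find_spec hex
    have j3 : Nat.find hex ≤ s.length :=
      Nat.find_min' hex ⟨hn, (hf (s.length + 1) (by omega)).1.1⟩
    have j4 : f (Nat.find hex) ≤ s.length := by
      rcases j1.eq_or_lt with e | e
      · rw [← e, e1]; exact hs
      · have := Nat.find_min hex (m := Nat.find hex - 1) (by omega)
        rw [show Nat.find hex - 1 + 1 = Nat.find hex by omega] at this
        by_contra hc
        exact this ⟨by omega, by omega⟩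
    obtain ⟨k, r', e2, e3⟩ := g2 (Nat.find hex) r1
    exact ⟨r', e2.trans c, _, j1, k, e3, ((g1 _ k).mem e3 ((hf _ (by omega)).mono e2)
      ((hf _ (by omega)).mono e2) s).2 ⟨j4, j2, (O s).lower (e2.trans c) ho⟩⟩

end conv

end Pool.Agent.Lib.MP_145df4_lc
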