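import Mathlib
import Pool.Agent.Lib.MP_145df4_lc.Ground

/-! The reflection argument producing a killer for a given sequence of slaloms. -/

set_option autoImplicit false

namespace Pool.Agent.Lib.MP_145df4_lc

open Classical

theorem exists_seq (nx : O1 → L → L) (base : O1 → L) :
    ∃ η : O1 → L, ∀ a, base a < η a ∧ ∀ a' < a, nx a' (η a') < η a := by
  have key : ∀ (a : O1) (f : ∀ a', a' < a → L), ∃ b, base a < b ∧
      ∀ a' (h : a' < a), nx a' (f a' h) < b := by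
    intro a f
    have : Countable (Set.Iio a) := O1.countable_Iio a
    obtain ⟨b, hb⟩ := L.bdd_countable
      ((Set.countable_range fun x : Set.Iio a => nx x.1 (f x.1 x.2)).insert (base a))
    exact ⟨b, hb _ (Set.mem_insert _ _), fun a' h => hb _ (Set.mem_insert_of_mem _ ⟨⟨a', h⟩, rfl⟩)⟩
  choose F hF using key
  refine ⟨(wellFounded_lt (α := O1)).fix F, fun a => ?_⟩
  rw [WellFounded.fix_eq]
  exact hF a _

theorem kill (Φ : O1 → ℕ → Bool → L → LowerSet P) (D : O1 → ℕ → SD) (p : P)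
    (h : ∀ a η, ∀ r ≤ p, ∃ r' ≤ r, ∃ k ε, r' ∈ Φ a k ε η) :
    ∃ q ≤ p, ∃ l, Valid l ∧
      (∀ a k n m, nm l (a, k) n m = ((D a k).a n m).toCond ∧ vl l (a, k) n m = (D a k).v n m) ∧
      ∀ a0, ∀ r ≤ q, ∃ r' ≤ r, ∃ a k, a0 ≤ a ∧ (a, k) ∈ r'.E l ∧
        ∃ ε, r'.co (bt (dl l), 0) = some ε ∧ r' ∈ Φ a k ε (et l (a, k)) := by
  have k1 : ∀ a η, ∃ β, ∀ r k ε, r ∈ Φ a k ε η → ∃ b : P, InK (Kl β) b.toCond ∧
      (∃ k ε, b ∈ Φ a k ε η) ∧ ∃ s, s ≤ r ∧ s ≤ b := by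
    intro a η
    obtain ⟨A, a1, a2, -, a4⟩ := ccc_sel fun q (x : ℕ × Bool) => q ∈ Φ a x.1 x.2 η
    obtain ⟨β, hβ⟩ := exists_lev_countable (a1.image Prod.fst)
    refine ⟨β, fun r k ε hr => ?_⟩
    obtain ⟨b, b1, b2⟩ := a4 r (k, ε) hr
    exact ⟨b.1, hβ _ ⟨b, b1, rfl⟩, ⟨_, _, a2 b b1⟩, b2⟩
  choose β hβ using k1
  have k2 : ∀ a, ∃ b, InK (Kl b) p.toCond ∧ ∀ k n m, InK (Kl b) ((D a k).a n m).toCond := by
    intro a
    obtain ⟨b, hb⟩ := exists_lev_countable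
      ((Set.countable_range fun x : ℕ × ℕ × ℕ => (D a x.1).a x.2.1 x.2.2).insert p)
    exact ⟨b, hb _ (Set.mem_insert _ _), fun k n m =>
      hb _ (Set.mem_insert_of_mem _ ⟨(k, n, m), rfl⟩)⟩
  choose base hb1 hb2 using k2
  obtain ⟨η, hη⟩ := exists_seq (fun a e => max e (β a e)) base
  have mono : ∀ a' a, a' < a → η a' < η a := fun a' a h =>
    (le_max_left _ _).trans_lt ((hη a).2 a' h)
  obtain ⟨δ, d1, d2⟩ := (wellFounded_lt (α := L)).has_min {b | ∀ a, η a < b} (L.bdd mk_O1.le η)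
  have pδ : InK (Kl δ) p.toCond :=
    (hb1 (Classical.arbitrary _)).mono ((hη _).1.trans (d1 _)).le
  have refl : ∀ a (r : P), InK (Kl δ) r.toCond → r ≤ p →
      ∃ r1 ≤ r, InK (Kl δ) r1.toCond ∧ ∃ k ε, r1 ∈ Φ a k ε (η a) := by
    intro a r a1 a2
    obtain ⟨r', b1, k, ε, b2⟩ := h a (η a) r a2
    obtain ⟨b, c1, ⟨k', ε', c2⟩, s, s1, s2⟩ := hβ a _ r' k ε b2
    obtain ⟨a', ha'⟩ := exists_gt a
    have c3 := c1.mono (((le_max_right _ _).trans_lt ((hη a').2 a ha')).trans (d1 a')).le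
    exact ⟨_, res_le' (closed_Kl δ) (s1.trans b1) a1, res_inK _ _, k', ε',
      (Φ _ _ _ _).lower (res_le' (closed_Kl δ) s2 c3) c2⟩
  obtain ⟨ε, q, q1, q2, q3⟩ : ∃ ε, ∃ q ≤ p, InK (Kl δ) q.toCond ∧ ∀ a0, ∀ r ≤ q,
      InK (Kl δ) r.toCond → ∃ r1 ≤ r, InK (Kl δ) r1.toCond ∧
        ∃ a k, a0 ≤ a ∧ r1 ∈ Φ a k ε (η a) := by
    by_contra hc
    push Not at hc
    obtain ⟨a0, r0, x1, x2, x3⟩ := hc false p le_rfl pδ
    obtain ⟨a1, r1, y1, y2, y3⟩ := hc true r0 x1 x2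
    obtain ⟨r2, z1, z2, k, ε, z3⟩ := refl (max a0 a1) r1 y2 (y1.trans x1)
    cases ε
    exacts [x3 r2 (z1.trans y1) z2 _ k (le_max_left _ _) z3, y3 r2 z1 z2 _ k (le_max_right _ _) z3]
  obtain ⟨l, l1, l2, l3, l4⟩ := exists_lam δ (fun i => η i.1)
    (fun i n m => ((D i.1 i.2).a n m).toCond) fun i => (D i.1 i.2).v
  have hin : ∀ (i : J) n m, InK (Kl (η i.1)) ((D i.1 i.2).a n m).toCond :=
    fun i n m => (hb2 _ _ _ _).mono (hη _).1.le
  have hv : Valid l := by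
    rw [valid_iff, ValF, l1, l2, l3, l4]
    refine ⟨fun i => d1 _, fun e he => ?_, fun i n k => ⟨hin i n k, ((D _ _).a _ _).vc,
      (D _ _).wt _ _⟩, fun i n q a b => ?_⟩
    · obtain ⟨a, ha⟩ : ∃ a, e ≤ η a := by
        by_contra hc
        push Not at hc
        exact d2 e hc he
      refine ((O1.countable_Iic a).prod (Set.countable_univ (α := ℕ))).mono fun i hi => ?_
      refine ⟨?_, trivial⟩
      by_contra hc
      exact absurd (le_trans hi ha) (not_le.2 (mono _ _ (not_le.1 hc)))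
    · obtain ⟨k, r, c, d⟩ := (D i.1 i.2).pre n ⟨q, b⟩
      exact ⟨k, (res _ r).toCond, res_inK _ _, (res _ r).vc, res_le' (closed_Kl _) c a,
        res_le' (closed_Kl _) d (hin i n k)⟩
  obtain ⟨q', e1, -, -, -, -, -, e2⟩ := cohen_one q (bt δ, 0) ε
  have e3 := e2 (by
    by_contra hc
    exact lt_irrefl δ (q2.1 _ hc))
  refine ⟨q', e1.trans q1, l, hv, fun a k n m => by rw [l3, l4]; exact ⟨rfl, rfl⟩,
    fun a0 r hr => ?_⟩
  obtain ⟨r1, f1, f2, a, k, f3, f4⟩ := q3 a0 (res (Kl δ) r)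
    (res_le' (closed_Kl δ) (hr.trans e1) q2) (res_inK _ _)
  obtain ⟨r2, g1, g2, -⟩ := amalg_lev δ r1 r f2 f1
  obtain ⟨r3, g3, g4⟩ := add_promise r2 hv (a, k)
  refine ⟨r3, g3.trans g2, a, k, f3, g4, ε, ?_, ?_⟩
  · rw [l1]
    exact (g3.trans (g2.trans hr)).ext.co _ _ e3
  · rw [l2]
    exact (Φ _ _ _ _).lower (g3.trans g1) f4

/-- A promise is kept: on the active half of the partition the generic slalom captures it. -/
theorem promise_kept {l : Lam} {i : J} {D : SD} (h : ∀ n m, nm l i n m = (D.a n m).toCond ∧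
    vl l i n m = D.v n m) {r q : P} (hq : q ≤ r) (hi : i ∈ r.E l) {ε : Bool}
    (hb : r.co (bt (dl l), 0) = some ε) {j n : ℕ} {s : List Bool} (h1 : r.len l ≤ n)
    (h2 : n < q.len l) (h3 : q ∈ yS D.S (et l i) ε (j, n, s)) : q ∈ tS l (j, n, s) := by
  refine ⟨h2, ?_⟩
  rcases Le.prom hq l i n hi h1 h2 with ⟨b, b1, b2⟩ | ⟨m, b1, b2⟩
  · have e1 := (hq.ext.co _ _ hb).symm.trans b1
    have e2 := h3.2.symm.trans b2
    rw [← Option.some.inj e1] at e2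
    cases ε <;> simp at e2
  · obtain ⟨m', c1, c2⟩ := h3.1
    rw [(h n m).1] at b1
    rw [(h n m).2, D.cons n m m' q b1 c1] at b2
    exact b2 c2

/-- The level of the fixed Cohen reals. -/
noncomputable def l0 : L := Classical.arbitrary L

noncomputable def w1 (i : O1) : Y := (l0, .inr (.inl i))
noncomputable def w2 (ξ : Set L) : Y := (l0, .inl ξ)

theorem exists_w1 (z : RN) : ∃ i, ⊤ ∈ InB (wS (w1 i)) z := by
  obtain ⟨K, k1, k2, k3, k4⟩ := exists_supp z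
  have : (w1 ⁻¹' K.y).Countable := k3.preimage fun i j e => by simpa [w1] using e
  obtain ⟨i, hi⟩ : ∃ i, i ∉ w1 ⁻¹' K.y := by
    by_contra hc
    push Not at hc
    exact Set.not_countable_univ (this.mono fun i _ => hc i)
  exact ⟨i, top_inB k1 k2 z k4 hi fun _ _ _ _ _ => by simp [w1, cc]⟩

theorem exists_w2 (A : L → Set RN) (hA : ∀ η, (A η).Countable) :
    ∃ ξ, ∀ η, ∀ z ∈ A η, ⊤ ∈ InB (wS (w2 ξ)) z := by
  have key : ∀ η, ∃ B : Set (Set L), B.Countable ∧ ∀ ξ ∉ B, ∀ z ∈ A η, ⊤ ∈ InB (wS (w2 ξ)) z := by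
    intro η
    have := (hA η).to_subtype
    obtain ⟨K, k1, k2, k3, k4⟩ := exists_supp fun x : A η × ℕ => x.1.1 x.2
    refine ⟨w2 ⁻¹' K.y, k3.preimage fun i j e => by simpa [w2] using e, fun ξ hξ z hz => ?_⟩
    exact top_inB k1 k2 z (fun n => k4 (⟨z, hz⟩, n)) hξ fun _ _ _ _ _ => by simp [w2, cc]
  choose B b1 b2 using key
  obtain ⟨ξ, hξ⟩ : ∃ ξ, ξ ∉ ⋃ η, B η := by
    by_contra hc
    push Not at hc
    have h1 := (Cardinal.mk_le_mk_of_subset (fun ξ _ => hc ξ : Set.univ ⊆ ⋃ η, B η)).trans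
      (Cardinal.mk_iUnion_le _)
    rw [Cardinal.mk_univ, Cardinal.mk_set, mk_L] at h1
    have h2 : Cardinal.aleph 2 * ⨆ η, Cardinal.mk (B η) ≤ Cardinal.aleph 2 * Cardinal.aleph 2 :=
      mul_le_mul' le_rfl (ciSup_le' fun η =>
        (Cardinal.le_aleph0_iff_set_countable.2 (b1 η)).trans (Cardinal.aleph0_le_aleph 2))
    rw [Cardinal.mul_eq_self (Cardinal.aleph0_le_aleph 2)] at h2
    exact absurd (h1.trans h2) (not_le.2 (Cardinal.cantor _))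
  exact ⟨ξ, fun η => b2 η ξ fun h => hξ (Set.mem_iUnion.2 ⟨η, h⟩)⟩

theorem top_inB_cc {S : SL} {η : L} (h : DetS η S) : ⊤ ∈ InB (wS (cc η)) (Av S) :=
  top_inB (closed_Kl η) (good_Kl η) _ (av_supp h) (lt_irrefl η) fun _ _ _ _ h => (h trivial).elim

end Pool.Agent.Lib.MP_145df4_lc
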