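import Mathlib
import Pool.Agent.Lib.MP_145df4_lc.Defs

/-! A sigma-ideal with a sigma-prime base has `cofin = add`. -/

set_option autoImplicit false
set_option maxHeartbeats 400000
open Set Cardinal

namespace Pool.Agent.Lib.MP_145df4_lc

theorem mk_image_Iio_le {Y : Type} (f : Ordinal.{0} → Y) (α : Ordinal.{0}) :
    #(f '' Iio α) ≤ α.card := by
  have h := Cardinal.mk_image_le_lift (f := f) (s := Iio α)
  rw [Cardinal.mk_Iio_ordinal, Cardinal.lift_lift] at h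
  exact Cardinal.lift_le.mp h

theorem sUnion_mem_of_lt_add {X : Type} {I : Set (Set X)} {S : Set (Set X)} (hS : S ⊆ I)
    (h : #S < add I) : ⋃₀ S ∈ I := by
  by_contra hn
  have : add I ≤ #S := csInf_le' ⟨S, hS, hn, rfl⟩
  exact absurd h (not_lt.mpr this)

/-- Every chain length is at least the additivity. -/
theorem add_le_of_isChainLength {X : Type} {I : Set (Set X)} {γ : Ordinal.{0}}
    (h : IsChainLength I γ) : (add I).ord ≤ γ := by
  obtain ⟨hlim, J, hJ, hmono, hI⟩ := h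
  have hex : ∀ α : Ordinal.{0}, ∃ A : Set X, α < γ → A ∈ J (Order.succ α) ∧ A ∉ J α := by
    intro α
    by_cases hα : α < γ
    · obtain ⟨A, h1, h2⟩ := exists_of_ssubset (hmono α _ (Order.lt_succ α) (hlim.succ_lt hα))
      exact ⟨A, fun _ => ⟨h1, h2⟩⟩
    · exact ⟨∅, fun h => absurd h hα⟩
  choose A hA using hex
  rw [Cardinal.ord_le]
  refine le_trans (csInf_le' ⟨A '' Iio γ, ?_, ?_, rfl⟩) (mk_image_Iio_le A γ)
  · rintro _ ⟨α, hα, rfl⟩
    rw [hI]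
    exact mem_biUnion (hlim.succ_lt hα) (hA α hα).1
  · intro hmem
    rw [hI] at hmem
    obtain ⟨β, hβ, hmem⟩ := mem_iUnion₂.mp hmem
    exact (hA β hβ).2 ((hJ β hβ).1 _ hmem _ (subset_sUnion_of_mem ⟨β, hβ, rfl⟩))

theorem aleph0_lt_add {X : Type} {I : Set (Set X)} (hI : IsSigmaIdeal I)
    (hne : ∃ S : Set (Set X), S ⊆ I ∧ ⋃₀ S ∉ I) : ℵ₀ < add I := by
  obtain ⟨S, h1, h2⟩ := hne
  obtain ⟨T, h3, h4, h5⟩ : add I ∈ {c | ∃ S : Set (Set X), S ⊆ I ∧ ⋃₀ S ∉ I ∧ #S = c} :=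
    csInf_mem ⟨_, S, h1, h2, rfl⟩
  by_contra hcon
  push Not at hcon
  rw [← h5, Cardinal.le_aleph0_iff_set_countable] at hcon
  exact h4 (hI.2 T h3 hcon)

theorem isChainLength_add {X : Type} {I : Set (Set X)} (hI : IsSigmaIdeal I)
    (huniv : Set.univ ∉ I) (hsing : ∀ x : X, {x} ∈ I) (B : Set (Set X)) (hBI : B ⊆ I)
    (hcof : ∀ A ∈ I, ∃ C ∈ B, A ⊆ C)
    (hprime : ∀ C ∈ B, ∀ f : ℕ → Set X, (∀ n, f n ∈ B) → C ⊆ ⋃ n, f n → ∃ n, C ⊆ f n) :
    IsChainLength I (add I).ord := by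
  have hne : ∃ S : Set (Set X), S ⊆ I ∧ ⋃₀ S ∉ I := by
    refine ⟨I, Subset.rfl, fun h => huniv (hI.1 _ h _ ?_)⟩
    intro x _
    exact ⟨{x}, hsing x, rfl⟩
  have hℵ := aleph0_lt_add hI hne
  obtain ⟨S, hS1, hS2, hS3⟩ :
      add I ∈ {c | ∃ S : Set (Set X), S ⊆ I ∧ ⋃₀ S ∉ I ∧ #S = c} := by
    obtain ⟨S, h1, h2⟩ := hne
    exact csInf_mem ⟨_, S, h1, h2, rfl⟩
  have hlim : Order.IsSuccLimit (add I).ord := Cardinal.isSuccLimit_ord hℵ.le
  have hempty : (∅ : Set X) ∈ I := by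
    simpa using hI.2 ∅ (empty_subset _) countable_empty
  have hunion : ∀ A ∈ I, ∀ A' ∈ I, A ∪ A' ∈ I := by
    intro A hA A' hA'
    have := hI.2 {A, A'} (by rintro _ (rfl | rfl) <;> assumption) (by simp)
    simpa using this
  -- enumerate `S`
  obtain ⟨e⟩ : Nonempty (Iio (add I).ord ≃ S) := by
    rw [← Cardinal.lift_mk_eq', Cardinal.mk_Iio_ordinal, Cardinal.card_ord, hS3,
      Cardinal.lift_lift]
  obtain ⟨a, ha1, ha2⟩ : ∃ a : Ordinal.{0} → Set X, (∀ α, a α ∈ I) ∧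
      ∀ A ∈ S, ∃ α < (add I).ord, a α = A := by
    classical
    refine ⟨fun α => if h : α < (add I).ord then e ⟨α, h⟩ else ∅, fun α => ?_, fun A hA => ?_⟩
    · by_cases h : α < (add I).ord
      · simp only [dif_pos h]
        exact hS1 (e ⟨α, h⟩).2
      · simp only [dif_neg h]
        exact hempty
    · have h : (e.symm ⟨A, hA⟩).1 < (add I).ord := (e.symm ⟨A, hA⟩).2
      refine ⟨(e.symm ⟨A, hA⟩).1, h, ?_⟩
      simp only [dif_pos h]
      simp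
  -- one step of the recursion
  have hstep : ∀ (A : Set X) (T : Set (Set X)), ∃ C ∈ B, A ∈ I → ⋃₀ T ∈ I →
      A ⊆ C ∧ ⋃₀ T ⊆ C ∧ ¬ C ⊆ ⋃₀ T := by
    intro A T
    by_cases h : A ∈ I ∧ ⋃₀ T ∈ I
    · obtain ⟨x, hx⟩ : ∃ x, x ∉ ⋃₀ T := by
        by_contra hcon
        push Not at hcon
        exact huniv (hI.1 _ h.2 _ (fun x _ => hcon x))
      obtain ⟨C, hC1, hC2⟩ := hcof _ (hunion _ (hunion _ h.1 _ h.2) _ (hsing x))
      refine ⟨C, hC1, fun _ _ => ⟨?_, ?_, ?_⟩⟩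
      · exact fun y hy => hC2 (Or.inl (Or.inl hy))
      · exact fun y hy => hC2 (Or.inl (Or.inr hy))
      · exact fun hsub => hx (hsub (hC2 (Or.inr rfl)))
    · obtain ⟨C, hC1, -⟩ := hcof _ hempty
      exact ⟨C, hC1, fun h1 h2 => absurd ⟨h1, h2⟩ h⟩
  choose nx hnx1 hnx2 using hstep
  obtain ⟨D, hD⟩ : ∃ D : Ordinal.{0} → Set X, ∀ α, D α = nx (a α) (D '' Iio α) := by
    let F : (α : Ordinal.{0}) → ((β : Ordinal.{0}) → β < α → Set X) → Set X :=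
      fun α g => nx (a α) {C | ∃ β, ∃ h : β < α, g β h = C}
    refine ⟨wellFounded_lt.fix F, fun α => ?_⟩
    rw [WellFounded.fix_eq]
    simp only [F]
    congr 1
    ext C
    simp
  have hDB : ∀ α, D α ∈ B := fun α => hD α ▸ hnx1 _ _
  have hDspec : ∀ α < (add I).ord,
      a α ⊆ D α ∧ ⋃₀ (D '' Iio α) ⊆ D α ∧ ¬ D α ⊆ ⋃₀ (D '' Iio α) := by
    intro α hα
    have h1 : ⋃₀ (D '' Iio α) ∈ I := by
      apply sUnion_mem_of_lt_add
      · rintro _ ⟨β, -, rfl⟩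
        exact hBI (hDB β)
      · exact (mk_image_Iio_le D α).trans_lt (Cardinal.lt_ord.mp hα)
    have := hnx2 (a α) (D '' Iio α) (ha1 α) h1
    rwa [← hD α] at this
  have hDmono : ∀ α β, α < β → β < (add I).ord → D α ⊆ D β ∧ ¬ D β ⊆ D α := by
    intro α β h1 h2
    have h3 : D α ⊆ ⋃₀ (D '' Iio β) := subset_sUnion_of_mem ⟨α, h1, rfl⟩
    exact ⟨h3.trans (hDspec β h2).2.1, fun h => (hDspec β h2).2.2 (h.trans h3)⟩
  let J : Ordinal.{0} → Set (Set X) := fun α =>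
    {A | ∃ T : Set (Set X), (∀ C ∈ T, C ∈ B ∧ ¬ D α ⊆ C) ∧ T.Countable ∧ A ⊆ ⋃₀ T}
  have hDJ : ∀ α < (add I).ord, D α ∉ J α := by
    rintro α hα ⟨T, h1, h2, h3⟩
    rcases T.eq_empty_or_nonempty with rfl | hT
    · exact (hDspec α hα).2.2 (h3.trans (by simp))
    · obtain ⟨f, rfl⟩ := h2.exists_eq_range hT
      obtain ⟨n, hn⟩ := hprime _ (hDB α) f (fun n => (h1 _ ⟨n, rfl⟩).1) (by simpa using h3)
      exact (h1 _ ⟨n, rfl⟩).2 hn
  refine ⟨hlim, J, ?_, ?_, ?_⟩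
  · intro α _
    refine ⟨?_, ?_⟩
    · rintro A ⟨T, h1, h2, h3⟩ A' hA'
      exact ⟨T, h1, h2, hA'.trans h3⟩
    · intro U hU hUc
      have hch : ∀ A : U, ∃ T : Set (Set X),
          (∀ C ∈ T, C ∈ B ∧ ¬ D α ⊆ C) ∧ T.Countable ∧ (A : Set X) ⊆ ⋃₀ T := fun A => hU A.2
      choose T h1 h2 h3 using hch
      have := hUc.to_subtype
      refine ⟨⋃ A, T A, ?_, countable_iUnion h2, ?_⟩
      · intro C hC
        obtain ⟨A, hA⟩ := mem_iUnion.mp hC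
        exact h1 A C hA
      · rintro x ⟨A, hA, hx⟩
        obtain ⟨C, hC, hxC⟩ := h3 ⟨A, hA⟩ hx
        exact ⟨C, mem_iUnion.mpr ⟨⟨A, hA⟩, hC⟩, hxC⟩
  · intro α β h1 h2
    have h3 := hDmono α β h1 h2
    refine ⟨?_, fun hsub => hDJ α (h1.trans h2) (hsub ?_)⟩
    · rintro A ⟨T, h4, h5, h6⟩
      exact ⟨T, fun C hC => ⟨(h4 C hC).1, fun h => (h4 C hC).2 (h3.1.trans h)⟩, h5, h6⟩
    · exact ⟨{D α}, by rintro _ rfl; exact ⟨hDB α, h3.2⟩, countable_singleton _, by simp⟩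
  · ext A
    simp only [mem_iUnion, exists_prop, mem_Iio]
    constructor
    · intro hA
      obtain ⟨C, hC1, hC2⟩ := hcof A hA
      by_contra hcon
      push Not at hcon
      apply hS2
      refine hI.1 C (hBI hC1) _ ?_
      rintro x ⟨A', hA', hx⟩
      obtain ⟨α, hα, rfl⟩ := ha2 A' hA'
      have h1 : D α ⊆ C := by
        by_contra h2
        exact hcon α hα ⟨{C}, by rintro _ rfl; exact ⟨hC1, h2⟩, countable_singleton _,
          by simpa using hC2⟩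
      exact h1 ((hDspec α hα).1 hx)
    · rintro ⟨α, -, T, h1, h2, h3⟩
      exact hI.1 _ (hI.2 T (fun C hC => hBI (h1 C hC).1) h2) _ h3

end Pool.Agent.Lib.MP_145df4_lc
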