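import Mathlib
import Pool.Agent.Lib.MP_145df4_lc.Prime

/-! The matching base of the meager ideal on the Cantor space is sigma-prime. -/

set_option autoImplicit false
set_option maxHeartbeats 400000
open Set Filter

namespace Pool.Agent.Lib.MP_145df4_lc

/-- Reals that differ from `x` on all but finitely many intervals `[e k, e (k+1))`. -/
def mset (x : ℕ → Bool) (e : ℕ → ℕ) : Set (ℕ → Bool) :=
  {z | ∀ᶠ k in atTop, ∃ i, e k ≤ i ∧ i < e (k + 1) ∧ z i ≠ x i}

theorem exists_cyl {U : Set (ℕ → Bool)} (hU : IsOpen U) {x : ℕ → Bool} (hx : x ∈ U) :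
    ∃ N, ∀ z : ℕ → Bool, (∀ i < N, z i = x i) → z ∈ U := by
  obtain ⟨v, ⟨y, n, rfl⟩, h1, h2⟩ :=
    (PiNat.isTopologicalBasis_cylinders (fun _ : ℕ => Bool)).exists_subset_of_mem_open hx hU
  refine ⟨n, fun z hz => h2 ?_⟩
  rw [PiNat.mem_cylinder_iff] at h1 ⊢
  intro i hi
  rw [hz i hi, h1 i hi]

theorem dense_of_cyl {U : Set (ℕ → Bool)}
    (h : ∀ (x : ℕ → Bool) (N : ℕ), ∃ z ∈ U, ∀ i < N, z i = x i) : Dense U := by
  rw [dense_iff_inter_open]
  rintro V hV ⟨x, hx⟩
  obtain ⟨N, hN⟩ := exists_cyl hV hx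
  obtain ⟨z, h1, h2⟩ := h x N
  exact ⟨z, hN z h2, h1⟩

theorem cyl_of_dense {U : Set (ℕ → Bool)} (hU : Dense U) (x : ℕ → Bool) (N : ℕ) :
    ∃ z ∈ U, ∀ i < N, z i = x i := by
  obtain ⟨z, h1, h2⟩ := hU.inter_open_nonempty (PiNat.cylinder x N)
    (PiNat.isOpen_cylinder (fun _ : ℕ => Bool) x N) ⟨x, PiNat.self_mem_cylinder x N⟩
  exact ⟨z, h2, PiNat.mem_cylinder_iff.mp h1⟩

theorem isMeagre_mset (x : ℕ → Bool) (e : ℕ → ℕ) (he : StrictMono e) : IsMeagre (mset x e) := by
  have h1 : ∀ m : ℕ,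
      (⋃ k ∈ Ici m, {z : ℕ → Bool | ∀ i ∈ Finset.Ico (e k) (e (k + 1)), z i = x i})
        ∈ residual (ℕ → Bool) := by
    intro m
    apply residual_of_dense_open
    · refine isOpen_biUnion (fun k _ => ?_)
      have : {z : ℕ → Bool | ∀ i ∈ Finset.Ico (e k) (e (k + 1)), z i = x i}
          = ⋂ i ∈ Finset.Ico (e k) (e (k + 1)), (fun z : ℕ → Bool => z i) ⁻¹' {x i} := by
        ext z
        simp
      rw [this]
      exact isOpen_biInter_finset
        (fun i _ => (isOpen_discrete _).preimage (continuous_apply i))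
    · apply dense_of_cyl
      intro y N
      refine ⟨fun i => if i < N then y i else x i, ?_, fun i hi => if_pos hi⟩
      refine mem_biUnion (x := max m N) (mem_Ici.mpr (le_max_left _ _)) ?_
      intro i hi
      have h2 : max m N ≤ e (max m N) := he.id_le _
      have h3 := (Finset.mem_Ico.mp hi).1
      have h4 : ¬ i < N := by
        have := le_max_right m N
        omega
      exact if_neg h4
  refine mem_of_superset ((countable_iInter_mem).mpr h1) ?_
  intro z hz hmem
  obtain ⟨m, hm⟩ := eventually_atTop.mp hmem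
  obtain ⟨k, hk, hz2⟩ := mem_iUnion₂.mp (mem_iInter.mp hz m)
  obtain ⟨i, h2, h3, h4⟩ := hm k hk
  exact h4 (hz2 i (Finset.mem_Ico.mpr ⟨h2, h3⟩))

theorem exists_block {V : Set (ℕ → Bool)} (hV : IsOpen V) (hd : Dense V) (m : ℕ) :
    ∃ p : ℕ × (ℕ → Bool), m < p.1 ∧
      ∀ z : ℕ → Bool, (∀ i, m ≤ i → i < p.1 → z i = p.2 i) → z ∈ V := by
  let T : (Fin m → Bool) → (ℕ → Bool) → (ℕ → Bool) :=
    fun s z i => if h : i < m then s ⟨i, h⟩ else z i
  have hTc : ∀ s, Continuous (T s) := by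
    intro s
    refine continuous_pi (fun i => ?_)
    by_cases h : i < m
    · simp only [T, dif_pos h]
      exact continuous_const
    · simp only [T, dif_neg h]
      exact continuous_apply i
  have hTd : ∀ s, Dense (T s ⁻¹' V) := by
    intro s
    apply dense_of_cyl
    intro y N
    obtain ⟨w, hw1, hw2⟩ := cyl_of_dense hd (T s y) (max N m)
    refine ⟨fun i => if i < m then y i else w i, ?_, ?_⟩
    · have : T s (fun i => if i < m then y i else w i) = w := by
        funext i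
        by_cases h : i < m
        · rw [hw2 i (lt_max_of_lt_right h)]
          simp only [T, dif_pos h]
        · simp only [T, dif_neg h, if_neg h]
      rw [mem_preimage, this]
      exact hw1
    · intro i hi
      by_cases h : i < m
      · exact if_pos h
      · simp only [if_neg h]
        rw [hw2 i (lt_max_of_lt_left hi)]
        simp only [T, dif_neg h]
  have hW : Dense (⋂ s, T s ⁻¹' V) :=
    dense_iInter_of_isOpen (fun s => hV.preimage (hTc s)) hTd
  obtain ⟨σ, hσ⟩ := hW.nonempty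
  obtain ⟨N, hN⟩ := exists_cyl (isOpen_iInter_of_finite (fun s => hV.preimage (hTc s))) hσ
  refine ⟨(max N (m + 1), σ), lt_max_of_lt_right (Nat.lt_succ_self m), fun z hz => ?_⟩
  have h1 := hN (fun i => if i < m then σ i else z i) (by
    intro i hi
    by_cases h : i < m
    · exact if_pos h
    · simp only [if_neg h]
      exact hz i (not_lt.mp h) (lt_max_of_lt_left hi))
  have h2 := mem_iInter.mp h1 (fun i : Fin m => z i)
  have h3 : T (fun i : Fin m => z i) (fun i => if i < m then σ i else z i) = z := by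
    funext i
    by_cases h : i < m
    · simp only [T, dif_pos h]
    · simp only [T, dif_neg h, if_neg h]
  rwa [mem_preimage, h3] at h2

/-- Gluing along pairwise disjoint intervals. -/
theorem exists_glue (a b : ℕ → ℕ) (hab : ∀ j, a j ≤ b j) (hba : ∀ j, b j ≤ a (j + 1))
    (σ : ℕ → ℕ → Bool) (d : ℕ → Bool) :
    ∃ z : ℕ → Bool, (∀ j i, a j ≤ i → i < b j → z i = σ j i) ∧
      ∀ i, (∀ j, ¬ (a j ≤ i ∧ i < b j)) → z i = d i := by
  classical
  have hmono : Monotone a := monotone_nat_of_le_succ (fun j => (hab j).trans (hba j))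
  have hlt : ∀ j j', j < j' → b j ≤ a j' := fun j j' h => (hba j).trans (hmono h)
  refine ⟨fun i => if h : ∃ j, a j ≤ i ∧ i < b j then σ h.choose i else d i, ?_, ?_⟩
  · intro j i h1 h2
    have h : ∃ j, a j ≤ i ∧ i < b j := ⟨j, h1, h2⟩
    simp only [dif_pos h]
    have h3 := h.choose_spec
    have : h.choose = j := by
      rcases lt_trichotomy h.choose j with h4 | h4 | h4
      · have := hlt _ _ h4
        omega
      · exact h4
      · have := hlt _ _ h4
        omega
    rw [this]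
  · intro i h
    have h' : ¬ ∃ j, a j ≤ i ∧ i < b j := fun ⟨j, hj⟩ => h j hj
    simp only [dif_neg h']

theorem exists_mset {A : Set (ℕ → Bool)} (hA : IsMeagre A) :
    ∃ x e, StrictMono e ∧ A ⊆ mset x e := by
  obtain ⟨S, hS1, hS2, hS3, hS4⟩ := mem_residual_iff.mp hA
  obtain ⟨U, hU⟩ := (hS3.insert univ).exists_eq_range (insert_nonempty _ _)
  have hUo : ∀ n, IsOpen (U n) := by
    intro n
    have : U n ∈ insert univ S := hU ▸ mem_range_self n
    rcases this with h | h
    · rw [h]; exact isOpen_univ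
    · exact hS1 _ h
  have hUd : ∀ n, Dense (U n) := by
    intro n
    have : U n ∈ insert univ S := hU ▸ mem_range_self n
    rcases this with h | h
    · rw [h]; exact dense_univ
    · exact hS2 _ h
  have hblock : ∀ k m : ℕ, ∃ p : ℕ × (ℕ → Bool), m < p.1 ∧
      ∀ z : ℕ → Bool, (∀ i, m ≤ i → i < p.1 → z i = p.2 i) → z ∈ ⋂ n : Fin k, U n :=
    fun k m => exists_block (isOpen_iInter_of_finite (fun n : Fin k => hUo n))
      (dense_iInter_of_isOpen (fun n : Fin k => hUo n) (fun n : Fin k => hUd n)) m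
  choose p hp1 hp2 using hblock
  let e : ℕ → ℕ := fun k => Nat.rec 0 (fun k m => (p k m).1) k
  have he : ∀ k, e (k + 1) = (p k (e k)).1 := fun k => rfl
  have hmono : StrictMono e := strictMono_nat_of_lt_succ (fun k => hp1 k (e k))
  obtain ⟨x, hx, -⟩ := exists_glue e (fun k => e (k + 1)) (fun k => (hp1 k (e k)).le)
    (fun k => le_rfl) (fun k => (p k (e k)).2) (fun _ => true)
  refine ⟨x, e, hmono, fun z hz => ?_⟩
  by_contra hcon
  simp only [mset, mem_ofPred_eq, not_eventually] at hcon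
  refine hS4 (fun t ht => ?_) hz
  obtain ⟨n, rfl⟩ : t ∈ range U := hU ▸ mem_insert_of_mem _ ht
  obtain ⟨k, hk1, hk2⟩ := frequently_atTop.mp hcon (n + 1)
  push Not at hk2
  have := hp2 k (e k) z (fun i h1 h2 => by rw [hk2 i h1 h2, hx k i h1 h2])
  exact mem_iInter.mp this ⟨n, hk1⟩

theorem mset_subset {x y : ℕ → Bool} {e f : ℕ → ℕ} (hf : StrictMono f)
    (h : ∀ᶠ k in atTop, ∃ l, f k ≤ e l ∧ e (l + 1) ≤ f (k + 1) ∧
      ∀ i, e l ≤ i → i < e (l + 1) → y i = x i) : mset x e ⊆ mset y f := by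
  intro z hz
  obtain ⟨m, hm⟩ := eventually_atTop.mp hz
  have hfin : ∀ᶠ k in atTop, ∀ l < m, e l < f k := by
    have : ∀ l, ∀ᶠ k in atTop, e l < f k := fun l => hf.tendsto_atTop.eventually_gt_atTop _
    have h2 := (eventually_all_finite (finite_Iio m)).mpr (fun l _ => this l)
    exact h2
  filter_upwards [h, hfin] with k ⟨l, h1, h2, h3⟩ h4
  have hl : m ≤ l := by
    by_contra hcon
    have := h4 l (not_le.mp hcon)
    omega
  obtain ⟨i, h5, h6, h7⟩ := hm l hl
  exact ⟨i, h1.trans h5, h6.trans_le h2, by rw [h3 i h5 h6]; exact h7⟩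

theorem mset_prime {x : ℕ → Bool} {e : ℕ → ℕ} (he : StrictMono e) (y : ℕ → ℕ → Bool)
    (f : ℕ → ℕ → ℕ) (hf : ∀ n, StrictMono (f n)) (h : mset x e ⊆ ⋃ n, mset (y n) (f n)) :
    ∃ n, mset x e ⊆ mset (y n) (f n) := by
  by_contra hcon
  push Not at hcon
  have hgood : ∀ n p : ℕ, ∃ k, p ≤ k ∧ p < f n k ∧ ∀ l, f n k ≤ e l → e (l + 1) ≤ f n (k + 1) →
      ∃ i, e l ≤ i ∧ i < e (l + 1) ∧ y n i ≠ x i := by
    intro n p
    have h1 := mt (mset_subset (x := x) (y := y n) (e := e) (hf n)) (hcon n)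
    rw [not_eventually] at h1
    obtain ⟨k, hk1, hk2⟩ := frequently_atTop.mp h1 (p + 1)
    push Not at hk2
    have : k ≤ f n k := (hf n).id_le k
    exact ⟨k, by omega, by omega, hk2⟩
  choose g hg1 hg2 hg3 using hgood
  let q : ℕ → ℕ := fun j => Nat.rec 0
    (fun j p => f (Nat.unpair j).1 (g (Nat.unpair j).1 p + 1)) j
  let kk : ℕ → ℕ := fun j => g (Nat.unpair j).1 (q j)
  let a : ℕ → ℕ := fun j => f (Nat.unpair j).1 (kk j)
  let b : ℕ → ℕ := fun j => f (Nat.unpair j).1 (kk j + 1)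
  have hq : ∀ j, q (j + 1) = b j := fun j => rfl
  have hqa : ∀ j, q j < a j := fun j => hg2 _ _
  have hab : ∀ j, a j < b j := fun j => hf _ (Nat.lt_succ_self _)
  have hba : ∀ j, b j < a (j + 1) := fun j => hq j ▸ hqa (j + 1)
  have hamono : StrictMono a := strictMono_nat_of_lt_succ (fun j => (hab j).trans (hba j))
  have hbmono : StrictMono b := strictMono_nat_of_lt_succ (fun j => (hba j).trans (hab _))
  have hqmono : StrictMono q := strictMono_nat_of_lt_succ (fun j => (hqa j).trans (hab j))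
  obtain ⟨z, hz1, hz2⟩ := exists_glue a b (fun j => (hab j).le) (fun j => (hba j).le)
    (fun j => y (Nat.unpair j).1) (fun i => !x i)
  have hzmem : z ∈ mset x e := by
    refine Eventually.of_forall (fun l => ?_)
    have hl : e l < e (l + 1) := he (Nat.lt_succ_self l)
    by_cases h1 : ∃ j, a j ≤ e l ∧ e l < b j
    · obtain ⟨j, h2, h3⟩ := h1
      by_cases h4 : e (l + 1) ≤ b j
      · obtain ⟨i, h5, h6, h7⟩ := hg3 (Nat.unpair j).1 (q j) l h2 h4
        exact ⟨i, h5, h6, by rw [hz1 j i (h2.trans h5) (h6.trans_le h4)]; exact h7⟩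
      · refine ⟨b j, h3.le, not_le.mp h4, ?_⟩
        rw [hz2 (b j)]
        · simp
        · rintro j' ⟨h5, h6⟩
          have h7 : j < j' := hbmono.lt_iff_lt.mp h6
          have h8 : a (j + 1) ≤ a j' := hamono.monotone h7
          have := hba j
          omega
    · refine ⟨e l, le_rfl, hl, ?_⟩
      rw [hz2 (e l) (fun j hj => h1 ⟨j, hj⟩)]
      simp
  obtain ⟨n, hn⟩ := mem_iUnion.mp (h hzmem)
  obtain ⟨m, hm⟩ := eventually_atTop.mp hn
  have hj : (Nat.unpair (Nat.pair n m)).1 = n := by simp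
  have hk : m ≤ kk (Nat.pair n m) :=
    (Nat.right_le_pair n m).trans ((hqmono.id_le _).trans (hg1 _ _))
  obtain ⟨i, h1, h2, h3⟩ := hm _ hk
  apply h3
  have := hz1 (Nat.pair n m) i (by simpa only [a, hj] using h1) (by simpa only [b, hj] using h2)
  rwa [hj] at this

theorem isSigmaIdeal_meagre : IsSigmaIdeal {A : Set (ℕ → Bool) | IsMeagre A} := by
  refine ⟨fun A hA B hB => IsMeagre.mono hB hA, fun S hS hc => ?_⟩
  rw [sUnion_eq_biUnion]
  exact isMeagre_biUnion hc hS

theorem isChainLength_add_meagre :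
    IsChainLength {A : Set (ℕ → Bool) | IsMeagre A}
      (add {A : Set (ℕ → Bool) | IsMeagre A}).ord := by
  refine isChainLength_add isSigmaIdeal_meagre
    (not_isMeagre_of_isOpen isOpen_univ univ_nonempty) ?_
    {C | ∃ x e, StrictMono e ∧ C = mset x e} ?_ ?_ ?_
  · intro x
    refine IsMeagre.mono ?_ (isMeagre_mset (fun i => !x i) id strictMono_id)
    rintro _ rfl
    exact Eventually.of_forall (fun k => ⟨k, le_rfl, Nat.lt_succ_self k, by simp⟩)
  · rintro _ ⟨x, e, he, rfl⟩
    exact isMeagre_mset x e he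
  · intro A hA
    obtain ⟨x, e, he, h⟩ := exists_mset hA
    exact ⟨_, ⟨x, e, he, rfl⟩, h⟩
  · rintro _ ⟨x, e, he, rfl⟩ F hF h
    choose y f hf hF using hF
    obtain rfl : F = fun n => mset (y n) (f n) := funext hF
    exact mset_prime he y f hf h

end Pool.Agent.Lib.MP_145df4_lc
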