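import Mathlib
import Pool.Agent.Shared.Forcing
import Pool.Agent.Lib.MP_145df4_lc.Kill

/-! Names, codes of ground objects, and the closure operations of the countable model. -/

set_option autoImplicit false

namespace Pool.Agent.Lib.MP_145df4_lc

open Classical Pool.Agent.Lib.MP_053343_lc Pool.Agent.Lib.MP_053343_lc.Name
  Pool.Agent.Shared.Forcing

universe u v

abbrev Nm : Type 1 := Name P

theorem natN_eq (n : ℕ) : (natN n : Nm) = setN fun i : Fin n => natN i := by rw [natN]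

theorem feq_natN {n : ℕ} : ∀ {m : ℕ} {p : P}, FEq (natN n) (natN m) p → n = m := by
  induction n using Nat.strong_induction_on with
  | h n ih =>
    intro m p h
    rw [natN_eq n, natN_eq m, feq_iff] at h
    rcases lt_trichotomy n m with hl | hl | hl
    · obtain ⟨r, _, i, _, h'⟩ := h.2 (⟨n, hl⟩ : Fin m) p le_rfl le_top
      exact absurd (ih _ i.2 h') (Nat.ne_of_lt i.2)
    · exact hl
    · obtain ⟨r, _, i, _, h'⟩ := h.1 (⟨m, hl⟩ : Fin n) p le_rfl le_top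
      exact absurd (ih _ hl h').symm (Nat.ne_of_lt i.2)

section ord

variable {W : Type} [LinearOrder W] [WellFoundedLT W]

/-- The canonical name of the ordinal given by a point of a well-order. -/
noncomputable def ordN : W → Nm :=
  (wellFounded_lt (α := W)).fix fun w ih => setN fun v : Set.Iio w => ih v.1 v.2

theorem ordN_eq (w : W) : ordN w = setN fun v : Set.Iio w => ordN v.1 := by
  rw [ordN, WellFounded.fix_eq]

theorem feq_ordN {a : W} : ∀ {b : W} {p : P}, FEq (ordN a) (ordN b) p → a = b := by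
  induction a using WellFoundedLT.induction with
  | ind a ih =>
    intro b p h
    rw [ordN_eq a, ordN_eq b, feq_iff] at h
    rcases lt_trichotomy a b with hl | hl | hl
    · obtain ⟨r, _, i, _, h'⟩ := h.2 (⟨a, hl⟩ : Set.Iio b) p le_rfl le_top
      exact absurd (ih _ i.2 h') (ne_of_lt i.2)
    · exact hl
    · obtain ⟨r, _, i, _, h'⟩ := h.1 (⟨b, hl⟩ : Set.Iio a) p le_rfl le_top
      exact absurd (ih _ hl h').symm (ne_of_lt i.2)

theorem ordN_inj : Function.Injective (ordN : W → Nm) := fun a _ h =>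
  feq_ordN (p := ⊤) (h ▸ FEq.refl (ordN a) ⊤)

variable (W) in
noncomputable def oN : Nm := setN (ordN : W → Nm)

noncomputable def GN (τ : W → Nm) : Nm := setN fun w => pairN (ordN w) (τ w)

end ord

/-- A type with a chosen well-order. -/
def WO (α : Type) : Type := α

noncomputable instance (α : Type) : LinearOrder (WO α) := (exists_wellFoundedLT α).choose
instance (α : Type) : WellFoundedLT (WO α) := (exists_wellFoundedLT α).choose_spec

/-- Ground objects coded as names. -/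
class Cd (α : Type u) where
  c : α → Nm

class CdI (α : Type u) [Cd α] : Prop where
  inj : Function.Injective (Cd.c : α → Nm)

def setC (X : LowerSet P) : Nm := ⟨X, fun _ => empty, fun p => p.1⟩

theorem fmem_setC {X : LowerSet P} {r : P} : FMem empty (setC X) r ↔ r ∈ X :=
  ⟨fun ⟨j, a, _⟩ => X.lower a j.2, fun h => ⟨⟨r, h⟩, le_rfl, FEq.refl _ _⟩⟩

theorem setN_inj {α : Type} {A B : α → Nm} (h : setN A = setN B) : A = B := by
  unfold setN at h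
  injection h

instance : Cd Nm := ⟨id⟩
instance : CdI Nm := ⟨fun _ _ h => h⟩
instance : Cd P := ⟨cN⟩
instance : CdI P := ⟨fun _ _ h => cN_inj h⟩
instance : Cd (LowerSet P) := ⟨setC⟩
instance : CdI (LowerSet P) := ⟨fun X Y h => by
  have h' : setC X = setC Y := h
  ext r
  exact fmem_setC.symm.trans (h' ▸ fmem_setC)⟩
noncomputable instance : Cd L := ⟨ordN⟩
instance : CdI L := ⟨ordN_inj⟩
noncomputable instance : Cd O1 := ⟨ordN⟩
instance : CdI O1 := ⟨ordN_inj⟩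
noncomputable instance (α : Type) : Cd (WO α) := ⟨ordN⟩
instance (α : Type) : CdI (WO α) := ⟨ordN_inj⟩
instance {ι : Type} {α : Type u} [Cd α] : Cd (ι → α) := ⟨fun f => setN fun i => Cd.c (f i)⟩
instance {ι : Type} {α : Type u} [Cd α] [CdI α] : CdI (ι → α) :=
  ⟨fun _ _ h => funext fun i => CdI.inj (congrFun (setN_inj h) i)⟩
instance {α : Type u} {β : Type v} [Cd α] [Cd β] : Cd (α × β) :=
  ⟨fun x => pairN (Cd.c x.1) (Cd.c x.2)⟩
instance {α : Type u} {β : Type v} [Cd α] [Cd β] [CdI α] [CdI β] : CdI (α × β) :=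
  ⟨fun _ _ h => by
    have h1 := setN_inj (congrFun (setN_inj h) false)
    exact Prod.ext (CdI.inj (congrFun h1 true)) (CdI.inj (congrFun h1 false))⟩

def mkR {α : Type u} {β : Type v} [Cd α] [Cd β] (r : α → β → Prop) (l : List Nm) (x : Nm) :
    Prop := ∃ a b, l.getD 0 empty = Cd.c a ∧ x = Cd.c b ∧ r a b

def mkF {α : Type u} {β : Type v} [Cd α] [Cd β] (f : α → β) : List Nm → Nm → Prop :=
  mkR fun a b => b = f a

/-- The name of the subset of `ω` given by a family of open sets. -/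
def rN {ι : Type} [Encodable ι] (x : ι → LowerSet P) : Nm :=
  ⟨{a : ι × P // a.2 ∈ x a.1}, fun a => natN (Encodable.encode a.1.1), fun a => a.1.2⟩

def dR (ι : Type) [Encodable ι] (τ : Nm) : ι → LowerSet P := fun i =>
  ⟨{r | FMem (natN (Encodable.encode i)) τ r}, fun _ _ h hp => FMem.mono hp h⟩

theorem dR_rN {ι : Type} [Encodable ι] (x : ι → LowerSet P) : dR ι (rN x) = x := by
  funext i
  ext r
  constructor
  · rintro ⟨j, a, b⟩
    rw [Encodable.encode_injective (feq_natN b)]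
    exact (x _).lower a j.2
  · exact fun h => ⟨⟨(i, r), h⟩, le_rfl, FEq.refl _ _⟩

/-- The name of a set of reals. -/
def SN (Ψ : RN → LowerSet P) : Nm :=
  ⟨{a : RN × P // a.2 ∈ Ψ a.1}, fun a => rN a.1.1, fun a => a.1.2⟩

def dS (σ : Nm) : RN → LowerSet P := fun z =>
  ⟨{r | FMem (rN z) σ r}, fun _ _ h hp => FMem.mono hp h⟩

def BN (S : SL) : Nm := SN (InB S)

def XB (S : SL) (z : RN) (j : ℕ) : LowerSet P :=
  ⟨{r | ∃ k, r ∈ neg (Hs S z j k)}, fun _ _ h ⟨k, a⟩ => ⟨k, (neg _).lower h a⟩⟩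

/-- The conditions forcing `ρ ∈ φ(τ)`. -/
def App (φ τ ρ : Nm) : LowerSet P :=
  ⟨{r | ∃ σ, FMem (pairN τ σ) φ r ∧ FMem ρ σ r}, fun _ _ h ⟨σ, a, b⟩ => ⟨σ, a.mono h, b.mono h⟩⟩

def subF : Fml := .neg (.ex (.and (.mem 0 1) (.neg (.mem 0 2))))

noncomputable def Sel {X : Type} (D : P → X → Prop) : Set (P × X) := (ccc_sel D).choose

theorem Sel.spec {X : Type} (D : P → X → Prop) : (Sel D).Countable ∧
    (∀ a ∈ Sel D, D a.1 a.2) ∧ (∀ a ∈ Sel D, ∀ b ∈ Sel D, (∃ r, r ≤ a.1 ∧ r ≤ b.1) → a = b) ∧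
    ∀ p x, D p x → ∃ a ∈ Sel D, ∃ r, r ≤ p ∧ r ≤ a.1 := (ccc_sel D).choose_spec

instance {X : Type} (D : P → X → Prop) : Countable (Sel D) := (Sel.spec D).1

def below {X : Type} (A : Set (P × X)) : LowerSet P :=
  ⟨{r | ∃ a ∈ A, r ≤ a.1}, fun _ _ h ⟨a, b, c⟩ => ⟨a, b, le_trans h c⟩⟩

noncomputable def SelN {X : Type} [Cd X] (D : P → X → Prop) : Nm :=
  Cd.c (below (Sel D), fun a : Sel D => a.1.2)

abbrev ON : Type := List Bool → LowerSet P

def CN (υ : ON) : Nm := SN fun z =>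
  ⟨{r | ∃ s, r ∈ υ s ∧ PreF z s r}, fun _ _ h ⟨s, a, b⟩ => ⟨s, (υ s).lower h a, b.mono h⟩⟩

def Big (υ : ON) (k : ℕ) : LowerSet P :=
  ⟨{r | 2⁻¹ ^ k < wt {s | r ∈ υ s}}, fun _ _ h hp =>
    lt_of_lt_of_le hp (wt_mono fun s hs => (υ s).lower h hs)⟩

def D1 (σ : Nm) (k : ℕ) (q : P) (υ : ON) : Prop := q ∈ neg (Big υ k) ∧ Fo subF [σ, CN υ] q

def OO (σ : Nm) : ON := fun s =>
  ⟨{r | ∃ k, ∃ a ∈ Sel (D1 σ k), r ≤ a.1 ∧ r ∈ a.2 s},
    fun _ _ h ⟨k, a, b, c, d⟩ => ⟨k, a, b, le_trans h c, (a.2 s).lower h d⟩⟩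

theorem wt_OO (σ : Nm) (r : P) : wt {s | r ∈ OO σ s} ≤ 2 := by
  have : {s | r ∈ OO σ s} = ⋃ k, {s | ∃ a ∈ Sel (D1 σ k), r ≤ a.1 ∧ r ∈ a.2 s} := by
    ext s
    rw [Set.mem_iUnion]
    exact Iff.rfl
  rw [this]
  refine wt_total _ fun k => ?_
  by_cases h : ∃ a ∈ Sel (D1 σ k), r ≤ a.1
  · obtain ⟨a, a1, a2⟩ := h
    refine le_trans (wt_mono ?_) (not_lt.1 (((Sel.spec _).2.1 a a1).1 r a2))
    rintro s ⟨b, b1, b2, b3⟩
    rwa [(Sel.spec _).2.2.1 b b1 a a1 ⟨r, b2, a2⟩] at b3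
  · refine le_trans (wt_mono (W := ∅) ?_) (by simp [wt_empty])
    rintro s ⟨a, a1, a2, -⟩
    exact h ⟨a, a1, a2⟩

noncomputable def cvD (σ : Nm) : SD := (conv_slalom (wt_OO σ)).choose

def CvB (σ : Nm) (x : ℕ × List Bool) : LowerSet P :=
  ⟨{r | ∃ n, x.1 ≤ n ∧ r ∈ (cvD σ).S (0, n, x.2)},
    fun _ _ h ⟨n, a, b⟩ => ⟨n, a, ((cvD σ).S _).lower h b⟩⟩

def CvA (σ : Nm) (n : ℕ) : LowerSet P :=
  ⟨{q | ∃ m, ∀ s : List Bool, m ≤ s.length → ∀ r ≤ q, r ∈ OO σ s → ∃ r' ≤ r, r' ∈ CvB σ (n, s)},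
    fun _ _ h ⟨m, a⟩ => ⟨m, fun s b r c => a s b r (c.trans h)⟩⟩

theorem cvA_dense (σ : Nm) (n : ℕ) (p : P) : ∃ q ≤ p, q ∈ CvA σ n :=
  (conv_slalom (wt_OO σ)).choose_spec n p

abbrev FN : Type := WO {S : SL // Wt S}

def DC (φ : Nm) (η : L) (q : P) (z : RN) : Prop := q ∈ neg (App φ (ordN η) (rN z))

theorem exists_xi (φ : Nm) : ∃ ξ, ∀ η, ∀ a ∈ Sel (DC φ η), ⊤ ∈ InB (wS (w2 ξ)) a.2 := by
  obtain ⟨ξ, h⟩ := exists_w2 (fun η => Prod.snd '' Sel (DC φ η))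
    fun η => (Sel.spec _).1.image _
  exact ⟨ξ, fun η a ha => h η _ ⟨a, ha, rfl⟩⟩

def DI (σ : Nm) (η : L) (q : P) (S : SL) : Prop := Wt S ∧ DetS η S ∧ Fo subF [σ, BN S] q

/-- The name of the ideal generated by the null sets coded below a level. -/
def IN (η : L) : Nm :=
  ⟨{a : (RN → LowerSet P) × P // ∃ S, DI (SN a.1) η a.2 S}, fun a => SN a.1.1, fun a => a.1.2⟩

def apS (ψ : Nm) (n : ℕ) : RN → LowerSet P := fun z => App ψ (natN n) (rN z)

def apU (ψ : Nm) : RN → LowerSet P := fun z =>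
  ⟨{r | ∃ n, r ∈ apS ψ n z}, fun _ _ h ⟨n, a⟩ => ⟨n, (apS ψ n z).lower h a⟩⟩

noncomputable def sgM (ψ : Nm) (η : L) : SL :=
  mrg fun x : Σ n, Sel (DI (SN (apS ψ n)) η) => x.2.1.2

noncomputable def nxt (η : L) : L := (exists_gt η).choose

def coD (η : L) (n : ℕ) : LowerSet P :=
  ⟨{r | r.co (cc η, n) ≠ none}, fun _ _ h hp => ne_none_mono h hp⟩

def DN (φ : Nm) (a : O1) (q : P) (D : SD) : Prop := q ∈ neg (App φ (ordN a) (BN D.S))

noncomputable def sk (φ : Nm) (a : O1) (k : ℕ) : SD :=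
  (Set.enumerateCountable (Sel.spec (DN φ a)).1 (⊤, default) k).2

instance (a : O1) : Countable (Set.Iio a) := O1.countable_Iio a

noncomputable def skM (φ : Nm) (a : O1) : SL := mrg fun x : Set.Iio a × ℕ => (sk φ x.1 x.2).S

noncomputable def Ph (φ : Nm) (a : O1) (k : ℕ) (ε : Bool) (η : L) : LowerSet P :=
  neg (App φ (ordN a) (BN (yS (sk φ a k).S η ε)))

def KW (φ : Nm) (l : Lam) (a0 : O1) (r : P) (a : O1) : Prop :=
  ∃ k, a0 ≤ a ∧ (a, k) ∈ r.E l ∧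
    ∃ ε, r.co (bt (dl l), 0) = some ε ∧ r ∈ Ph φ a k ε (et l (a, k))

theorem KW.mono {φ : Nm} {l : Lam} {a0 a : O1} {r q : P} (h : KW φ l a0 r a) (hq : q ≤ r) :
    KW φ l a0 q a := by
  obtain ⟨k, a1, a2, ε, a3, a4⟩ := h
  exact ⟨k, a1, hq.ext.E l a2, ε, hq.ext.co _ _ a3, (Ph _ _ _ _ _).lower hq a4⟩

def KWS (φ : Nm) (l : Lam) (a0 : O1) : LowerSet P :=
  ⟨{r | ∃ a, KW φ l a0 r a}, fun _ _ h ⟨a, b⟩ => ⟨a, b.mono h⟩⟩

def GoodK (φ : Nm) (q : P) (l : Lam) : Prop :=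
  Valid l ∧ (∀ a k n m, nm l (a, k) n m = ((sk φ a k).a n m).toCond ∧
    vl l (a, k) n m = (sk φ a k).v n m) ∧ ∀ a0, ∀ r ≤ q, ∃ r' ≤ r, r' ∈ KWS φ l a0

def BadK (φ : Nm) (q : P) (x : O1 × L) : Prop := ∀ r ≤ q, ∀ k ε, r ∉ Ph φ x.1 k ε x.2

def KD (φ : Nm) : LowerSet P :=
  ⟨{q | (∃ l, GoodK φ q l) ∨ ∃ x, BadK φ q x}, fun _ _ h hp => hp.imp
    (fun ⟨l, a, b, c⟩ => ⟨l, a, b, fun a0 r hr => c a0 r (hr.trans h)⟩)
    fun ⟨x, a⟩ => ⟨x, fun r hr => a r (hr.trans h)⟩⟩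

theorem kd_dense (φ : Nm) (p : P) : ∃ q ≤ p, q ∈ KD φ := by
  by_cases h : ∃ q ≤ p, ∃ x, BadK φ q x
  · obtain ⟨q, a, b⟩ := h
    exact ⟨q, a, Or.inr b⟩
  · obtain ⟨q, a, l, b, c, d⟩ := kill (Ph φ) (sk φ) p fun a η r hr => by
      by_contra hc
      exact h ⟨r, hr, (a, η), fun r' h1 k ε h2 => hc ⟨r', h1, k, ε, h2⟩⟩
    refine ⟨q, a, Or.inl ⟨l, b, c, fun a0 r hr => ?_⟩⟩
    obtain ⟨r', e, a, k, f⟩ := d a0 r hr
    exact ⟨r', e, a, k, f⟩

def lenD (l : Lam) (n : ℕ) : LowerSet P :=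
  ⟨{r | n < r.len l}, fun _ _ h hp => lt_of_lt_of_le hp (h.ext.len l)⟩

inductive UR : Type
  | nice1 | nice2 | rn | us | sets | bn | hs | app | appw | cn | conv | av | lev | w1w | w1s
  | const | cofl | cofs | fn1 | fn2 | lop | inw | mrg2 | sig | nc | ys | kd | kg | kb | lam
  | kw | kww | etl
  deriving Countable

def UR.ev : UR → List Nm → Nm → Prop
  | .nice1 => mkF (dR ℕ)
  | .nice2 => mkF (dR (List Bool))
  | .rn => mkF fun z : RN => rN z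
  | .us => mkF fun (S : SL) (k : ℕ) => rN (US S k)
  | .sets => mkF fun σ : Nm => SN (dS σ)
  | .bn => mkF BN
  | .hs => mkF fun x : SL × RN => (fun y : ℕ × ℕ => Hs x.1 x.2 y.1 y.2, XB x.1 x.2)
  | .app => mkF fun x : Nm × Nm × Nm => App x.1 x.2.1 x.2.2
  | .appw => mkR fun (x : P × Nm × Nm × Nm) (σ : Nm) =>
      FMem (pairN x.2.2.1 σ) x.2.1 x.1 ∧ FMem x.2.2.2 σ x.1
  | .cn => mkF fun υ : ON => (CN υ, Big υ)
  | .conv => mkF fun σ : Nm => (fun k => SelN (D1 σ k), (cvD σ).S, CvA σ, CvB σ)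
  | .av => mkF Av
  | .lev => mkR fun (S : SL) (η : L) => DetS η S
  | .w1w => mkR fun (z : RN) (i : O1) => ⊤ ∈ InB (wS (w1 i)) z
  | .w1s => mkF fun i : O1 => wS (w1 i)
  | .const => mkF fun _ : Nm => (oN O1, oN L, oN FN, GN fun i : O1 => BN (wS (w1 i)), GN IN,
      GN fun S : FN => BN S.1, l0)
  | .cofl => mkF fun φ : Nm => wS (w2 (exists_xi φ).choose)
  | .cofs => mkF fun x : Nm × L => SelN (DC x.1 x.2)
  | .fn1 => mkF fun S : FN => S.1
  | .fn2 => mkR fun (S : SL) (S' : FN) => S'.1 = S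
  | .lop => mkF fun η : L => (IN η, wS (cc η), nxt η, coD η)
  | .inw => mkR fun (x : P × Nm × L) (S : SL) => DI x.2.1 x.2.2 x.1 S
  | .mrg2 => mkF fun x : SL × SL => mrg fun b : Bool => cond b x.1 x.2
  | .sig => mkF fun x : Nm × L => (fun n => SN (apS x.1 n), SN (apU x.1),
      fun n => SelN (DI (SN (apS x.1 n)) x.2), sgM x.1 x.2)
  | .nc => mkF fun x : Nm × O1 =>
      (below (Sel (DN x.1 x.2)), fun k => (sk x.1 x.2 k).S, skM x.1 x.2)
  | .ys => mkF fun x : SL × L => yS x.1 x.2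
  | .kd => mkF KD
  | .kg => mkR fun (x : P × Nm) (l : WO Lam) => GoodK x.2 x.1 l
  | .kb => mkR fun (x : P × Nm) (y : O1 × L) => BadK x.2 x.1 y
  | .lam => mkF fun l : WO Lam => (tS l, lenD l)
  | .kw => mkF fun x : Nm × WO Lam × O1 => KWS x.1 x.2.1 x.2.2
  | .kww => mkR fun (x : P × Nm × WO Lam × O1) (a : O1) => KW x.2.1 x.2.2.1 x.2.2.2 x.1 a
  | .etl => mkF fun (x : WO Lam × O1) (k : ℕ) => et x.1 (x.2, k)

end Pool.Agent.Lib.MP_145df4_lc
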