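import Mathlib
import Pool.Agent.Lib.MP_145df4_lc.Names

/-! Reals, sets of reals, null sets and ordinals of the generic extension. -/

set_option autoImplicit false

namespace Pool.Agent.Lib.MP_145df4_lc

open Classical Pool.Agent.Lib.MP_053343_lc Pool.Agent.Lib.MP_053343_lc.Name
  Pool.Agent.Shared.Forcing

universe u v

theorem mem_enc {A : Set ℕ} {x : ZFSet} : x ∈ enc A ↔ ∃ n ∈ A, x = nat n := by
  unfold enc
  rw [ZFSet.mem_range]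
  exact ⟨fun ⟨a, h⟩ => ⟨a.1, a.2, h.symm⟩, fun ⟨a, h1, h⟩ => ⟨⟨a, h1⟩, h.symm⟩⟩

theorem nat_mem_enc {A : Set ℕ} {n : ℕ} : nat n ∈ enc A ↔ n ∈ A := by
  rw [mem_enc]
  exact ⟨fun ⟨m, h1, h⟩ => by rwa [nat_inj h], fun h => ⟨n, h, rfl⟩⟩

theorem enc_inj {A B : Set ℕ} (h : enc A = enc B) : A = B := by
  ext n
  rw [← nat_mem_enc, h, nat_mem_enc]

theorem rc_inj {x y : ℕ → Bool} (h : rc x = rc y) : x = y := by
  funext n
  have := Set.ext_iff.1 (enc_inj h) n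
  exact Bool.eq_iff_iff.2 this

theorem mem_sc {A : Set (ℕ → Bool)} {x : ZFSet} : x ∈ sc A ↔ ∃ z ∈ A, x = rc z := by
  unfold sc
  rw [ZFSet.mem_range]
  exact ⟨fun ⟨a, h⟩ => ⟨a.1, a.2, h.symm⟩, fun ⟨a, h1, h⟩ => ⟨⟨a, h1⟩, h.symm⟩⟩

theorem rc_mem_sc {A : Set (ℕ → Bool)} {z : ℕ → Bool} : rc z ∈ sc A ↔ z ∈ A := by
  rw [mem_sc]
  exact ⟨fun ⟨m, h1, h⟩ => by rwa [rc_inj h], fun h => ⟨z, h, rfl⟩⟩

theorem sc_subset {A B : Set (ℕ → Bool)} : sc A ⊆ sc B ↔ A ⊆ B := by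
  constructor
  · exact fun h z hz => rc_mem_sc.1 (h (rc_mem_sc.2 hz))
  · intro h x hx
    obtain ⟨z, a, rfl⟩ := mem_sc.1 hx
    exact rc_mem_sc.2 (h a)

theorem sc_inj {A B : Set (ℕ → Bool)} (h : sc A = sc B) : A = B :=
  (sc_subset.1 (h ▸ subset_rfl)).antisymm (sc_subset.1 (h ▸ subset_rfl))

theorem mem_fc {S : Set (Set (ℕ → Bool))} {x : ZFSet} : x ∈ fc S ↔ ∃ A ∈ S, x = sc A := by
  unfold fc
  rw [ZFSet.mem_range]
  exact ⟨fun ⟨a, h⟩ => ⟨a.1, a.2, h.symm⟩, fun ⟨a, h1, h⟩ => ⟨⟨a, h1⟩, h.symm⟩⟩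

theorem sc_mem_fc {S : Set (Set (ℕ → Bool))} {A : Set (ℕ → Bool)} : sc A ∈ fc S ↔ A ∈ S := by
  rw [mem_fc]
  exact ⟨fun ⟨m, h1, h⟩ => by rwa [sc_inj h], fun h => ⟨A, h, rfl⟩⟩

abbrev Cx : Type 1 := Ctx UR.ev fun (_ : Empty) (_ : List Nm) => (∅ : Set P)

variable (C : Cx)

/-- The object is known to the countable set of names. -/
def K {α : Type u} [Cd α] (x : α) : Prop := Cd.c x ∈ C.N

/-- The generic filter meets the open set. -/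
def Hd (X : LowerSet P) : Prop := ∃ p ∈ C.G, p ∈ X

variable {C}

theorem kR (t : UR) {α : Type u} {β : Type v} [Cd α] [Cd β] [CdI α] {r : α → β → Prop}
    (h : t.ev = mkR r) {a : α} (ha : K C a) (hb : ∃ b, r a b) : ∃ b, K C b ∧ r a b := by
  obtain ⟨b, hb⟩ := hb
  obtain ⟨x, hx, e⟩ := C.uwit t (C.one ha) ⟨Cd.c b, by rw [h]; exact ⟨a, b, rfl, rfl, hb⟩⟩
  rw [h] at e
  obtain ⟨a', b', e1, rfl, e3⟩ := e
  rw [← CdI.inj e1] at e3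
  exact ⟨b', hx, e3⟩

theorem kF (t : UR) {α : Type u} {β : Type v} [Cd α] [Cd β] [CdI α] (f : α → β)
    (h : t.ev = mkF f) {a : α} (ha : K C a) : K C (f a) := by
  obtain ⟨b, h1, rfl⟩ := kR t h ha ⟨_, rfl⟩
  exact h1

theorem K.pair {α : Type u} {β : Type v} [Cd α] [Cd β] {a : α} {b : β} (h : K C a)
    (h' : K C b) : K C (a, b) := C.pair_memN h h'

theorem K.fst {α : Type u} {β : Type v} [Cd α] [Cd β] {a : α} {b : β} (h : K C (a, b)) :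
    K C a := C.pairN_left h

theorem K.snd {α : Type u} {β : Type v} [Cd α] [Cd β] {a : α} {b : β} (h : K C (a, b)) :
    K C b := C.pairN_right h

theorem K.app {ι : Type} {α : Type u} [Countable ι] [Cd α] {f : ι → α} (h : K C f) (i : ι) :
    K C (f i) := C.setN_child (A := fun i => Cd.c (f i)) h i

theorem kn {σ : Nm} (h : σ ∈ C.N) : K C σ := h

theorem K.dec {X : LowerSet P} (h : K C X) : Hd C X ∨ Hd C (neg X) := by
  obtain ⟨p, hp, a | a⟩ := C.gfrc (.mem 0 1) (C.two C.emp h)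
  · exact Or.inl ⟨p, hp, fmem_setC.1 a⟩
  · exact Or.inr ⟨p, hp, fun q hq b => a q hq (fmem_setC.2 b)⟩

theorem Hd.not_neg {X : LowerSet P} (h : Hd C X) : ¬ Hd C (neg X) := by
  rintro ⟨p, hp, a⟩
  obtain ⟨q, hq, b⟩ := h
  obtain ⟨r, _, r1, r2⟩ := C.dir p hp q hq
  exact a r r1 (X.lower r2 b)

theorem K.meet {X : LowerSet P} (h : K C X) {p : P} (hp : p ∈ C.G)
    (hd : ∀ q ≤ p, ∃ r ≤ q, r ∈ X) : Hd C X := by
  refine h.dec.resolve_right ?_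
  rintro ⟨q, hq, a⟩
  obtain ⟨r, _, r1, r2⟩ := C.dir p hp q hq
  obtain ⟨s, s1, s2⟩ := hd r r1
  exact a s (s1.trans r2) s2

theorem Hd.known {X : LowerSet P} (h : Hd C X) : ∃ q ∈ C.G, K C q ∧ q ∈ X := by
  obtain ⟨p, hp, a⟩ := h
  obtain ⟨q, hq, q1, q2⟩ := C.cof p hp
  exact ⟨q, hq, q2, X.lower q1 a⟩

theorem hd_finite {ι : Type} {S : Set ι} (hS : S.Finite) (D : ι → P → Prop)
    (hm : ∀ i p q, D i p → q ≤ p → D i q) (h : ∀ i ∈ S, ∃ p ∈ C.G, D i p) :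
    ∃ p ∈ C.G, ∀ i ∈ S, D i p := by
  induction S, hS using Set.Finite.induction_on with
  | empty => exact ⟨⊤, C.top, by simp⟩
  | @insert x S _ _ ih =>
    obtain ⟨q, a, b⟩ := ih fun y hy => h y (Set.mem_insert_of_mem _ hy)
    obtain ⟨s, d, e⟩ := h x (Set.mem_insert _ _)
    obtain ⟨r, r0, r1, r2⟩ := C.dir q a s d
    refine ⟨r, r0, ?_⟩
    rintro y (rfl | hy)
    exacts [hm _ _ _ e r2, hm _ _ _ (b y hy) r1]

theorem sel {X : Type} {D : P → X → Prop} (h : K C (below (Sel D))) {q : P} (hq : q ∈ C.G)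
    {x : X} (hm : ∀ r ≤ q, D r x) : ∃ a ∈ Sel D, a.1 ∈ C.G := by
  obtain ⟨r, hr, a, a1, a2⟩ := h.meet hq fun r hr => by
    obtain ⟨a, a1, s, s1, s2⟩ := (Sel.spec D).2.2.2 r x (hm r hr)
    exact ⟨s, s1, a, a1, s2⟩
  exact ⟨a, a1, C.up r hr _ a2⟩

theorem selN {X : Type} [Cd X] {D : P → X → Prop} (h : K C (SelN D)) {q : P} (hq : q ∈ C.G)
    {x : X} (hm : ∀ r ≤ q, D r x) : ∃ a ∈ Sel D, a.1 ∈ C.G ∧ K C a.2 ∧ D a.1 a.2 := by
  have h' : K C (below (Sel D), fun a : Sel D => a.1.2) := h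
  obtain ⟨a, a1, a2⟩ := sel h'.fst hq hm
  exact ⟨a, a1, a2, h'.snd.app ⟨a, a1⟩, (Sel.spec D).2.1 a a1⟩

theorem val_rN {ι : Type} [Encodable ι] (x : ι → LowerSet P) :
    C.val (rN x) = enc (Encodable.encode '' {i | Hd C (x i)}) := by
  ext y
  rw [C.mem_val, mem_enc]
  constructor
  · rintro ⟨⟨⟨i, p⟩, h⟩, -, b, rfl⟩
    exact ⟨_, ⟨i, ⟨p, b, h⟩, rfl⟩, C.val_natN _⟩
  · rintro ⟨_, ⟨i, ⟨p, b, h⟩, rfl⟩, rfl⟩
    exact ⟨⟨(i, p), h⟩, C.natN_mem _, b, (C.val_natN _).symm⟩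

theorem hd_dR {ι : Type} [Encodable ι] {σ : Nm} (hσ : σ ∈ C.N) {U : Set ι}
    (h : C.val σ = enc (Encodable.encode '' U)) (i : ι) : Hd C (dR ι σ i) ↔ i ∈ U := by
  rw [← Encodable.encode_injective.mem_set_image, ← nat_mem_enc, ← h, ← C.val_natN,
    C.val_mem_iff (C.natN_mem _) hσ]
  rfl

variable (C) in
/-- The real given by a name. -/
noncomputable def ev (z : RN) : ℕ → Bool := fun n => decide (Hd C (z n))

theorem val_real (z : RN) : C.val (rN z) = rc (ev C z) := by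
  rw [val_rN, rc]
  congr 1
  ext n
  simp [ev]

theorem K.rn {z : RN} (h : K C z) : rN z ∈ C.N := kF .rn (fun z : RN => rN z) rfl h

theorem K.of_rn {z : RN} (h : rN z ∈ C.N) : K C z := by
  have := kF .nice1 (dR ℕ) rfl (kn h)
  rwa [dR_rN] at this

theorem K.real {z : RN} (h : K C z) : rc (ev C z) ∈ C.M := val_real z ▸ C.val_mem_M h.rn

theorem exists_real {x : ℕ → Bool} (h : rc x ∈ C.M) : ∃ z, K C z ∧ ev C z = x := by
  obtain ⟨σ, hσ, e⟩ := C.mem_M.1 h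
  refine ⟨dR ℕ σ, kF .nice1 (dR ℕ) rfl (kn hσ), funext fun n => ?_⟩
  have := hd_dR (ι := ℕ) hσ (U := {n | x n = true}) (by rw [e, rc]; congr 1; ext n; simp) n
  simp only [ev, this, Set.mem_ofPred_eq, Bool.decide_eq_true]

theorem decB_ev {z : RN} {n : ℕ} {b : Bool} {p : P} (hp : p ∈ C.G) (h : DecB (z n) b p) :
    b = ev C z n := by
  cases b
  · exact (decide_eq_false fun a => a.not_neg ⟨p, hp, h⟩).symm
  · exact (decide_eq_true ⟨p, hp, h⟩).symm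

theorem pre_ev {z : RN} (hz : K C z) {s : List Bool} :
    Pre s (ev C z) ↔ ∃ p ∈ C.G, PreF z s p := by
  constructor
  · intro h
    refine hd_finite (Set.finite_lt_nat s.length) (fun i p => DecB (z i) (s.getD i false) p)
      (fun _ _ _ => DecB.mono) fun i hi => ?_
    rw [List.getD_eq_getElem _ _ hi, h i hi]
    by_cases a : Hd C (z i)
    · rw [show ev C z i = true from decide_eq_true a]
      exact a
    · rw [show ev C z i = false from decide_eq_false a]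
      exact (hz.app i).dec.resolve_left a
  · rintro ⟨p, hp, h⟩ i hi
    rw [← decB_ev hp (h i hi), List.getD_eq_getElem _ _ hi]

variable (C) in
def setV (Ψ : RN → LowerSet P) : Set (ℕ → Bool) := {x | ∃ z, K C z ∧ Hd C (Ψ z) ∧ x = ev C z}

theorem val_SN (Ψ : RN → LowerSet P) : C.val (SN Ψ) = sc (setV C Ψ) := by
  ext y
  rw [C.mem_val, mem_sc]
  constructor
  · rintro ⟨⟨⟨z, p⟩, h⟩, a, b, rfl⟩
    exact ⟨_, ⟨z, K.of_rn a, ⟨p, b, h⟩, rfl⟩, val_real z⟩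
  · rintro ⟨_, ⟨z, a, ⟨p, b, h⟩, rfl⟩, rfl⟩
    exact ⟨⟨(z, p), h⟩, a.rn, b, (val_real z).symm⟩

theorem setV_eq {Ψ : RN → LowerSet P} {A : Set (ℕ → Bool)} (h1 : ∀ x ∈ A, rc x ∈ C.M)
    (h2 : ∀ z, K C z → (Hd C (Ψ z) ↔ ev C z ∈ A)) : setV C Ψ = A := by
  ext x
  constructor
  · rintro ⟨z, a, b, rfl⟩
    exact (h2 z a).1 b
  · intro hx
    obtain ⟨z, a, rfl⟩ := exists_real (h1 x hx)
    exact ⟨z, a, (h2 z a).2 hx, rfl⟩

theorem real_of_mem {A : Set (ℕ → Bool)} (h : sc A ∈ C.M) {x : ℕ → Bool} (hx : x ∈ A) :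
    rc x ∈ C.M := C.trans _ h (rc_mem_sc.2 hx)

theorem exists_SN {A : Set (ℕ → Bool)} (h : sc A ∈ C.M) :
    ∃ Ψ, SN Ψ ∈ C.N ∧ setV C Ψ = A := by
  obtain ⟨σ, hσ, e⟩ := C.mem_M.1 h
  refine ⟨dS σ, kF .sets (fun σ : Nm => SN (dS σ)) rfl (kn hσ),
    setV_eq (fun x => real_of_mem h) fun z hz => ?_⟩
  rw [← rc_mem_sc, ← e, ← val_real, C.val_mem_iff hz.rn hσ]
  rfl

theorem truth_sub {σ τ : Nm} (hσ : σ ∈ C.N) (hτ : τ ∈ C.N) :
    C.val σ ⊆ C.val τ ↔ ∃ p ∈ C.G, Fo subF [σ, τ] p := by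
  rw [← C.truth subF (C.two hσ hτ)]
  simp only [subF, Sat, List.map_cons, List.getD_cons_zero, List.getD_cons_succ]
  constructor
  · rintro h ⟨x, _, a, b⟩
    exact b (h a)
  · intro h x hx
    by_contra hc
    exact h ⟨x, C.trans _ (C.val_mem_M hσ) hx, hx, hc⟩

theorem k_app {φ τ ρ : Nm} (h1 : φ ∈ C.N) (h2 : τ ∈ C.N) (h3 : ρ ∈ C.N) : K C (App φ τ ρ) :=
  kF .app (fun x : Nm × Nm × Nm => App x.1 x.2.1 x.2.2) rfl ((kn h1).pair ((kn h2).pair (kn h3)))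

theorem hd_app {φ τ ρ : Nm} (h1 : φ ∈ C.N) (h2 : τ ∈ C.N) (h3 : ρ ∈ C.N) :
    Hd C (App φ τ ρ) ↔ ∃ y, ZFSet.pair (C.val τ) y ∈ C.val φ ∧ C.val ρ ∈ y := by
  constructor
  · intro h
    obtain ⟨q, hq, a, b⟩ := h.known
    obtain ⟨σ, c, d, e⟩ := kR .appw rfl (a.pair ((kn h1).pair ((kn h2).pair (kn h3)))) b
    replace c : σ ∈ C.N := c
    refine ⟨C.val σ, ?_, (C.val_mem_iff h3 c).2 ⟨q, hq, e⟩⟩
    rw [← C.val_pairN (C.pair_memN h2 c)]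
    exact (C.val_mem_iff (C.pair_memN h2 c) h1).2 ⟨q, hq, d⟩
  · rintro ⟨y, a, b⟩
    have hy : y ∈ C.M := C.trans _ (C.trans _ (C.trans _ (C.val_mem_M h1) a)
      (show ({C.val τ, y} : ZFSet) ∈ ZFSet.pair (C.val τ) y by simp [ZFSet.pair])) (by simp)
    obtain ⟨σ, c, rfl⟩ := C.mem_M.1 hy
    rw [← C.val_pairN (C.pair_memN h2 c)] at a
    obtain ⟨p, hp, d⟩ := (C.val_mem_iff (C.pair_memN h2 c) h1).1 a
    obtain ⟨q, hq, e⟩ := (C.val_mem_iff h3 c).1 b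
    obtain ⟨r, hr, r1, r2⟩ := C.dir p hp q hq
    exact ⟨r, hr, σ, d.mono r1, e.mono r2⟩

variable (C) in
/-- The reals of the model captured infinitely often by a slalom of the family. -/
def BS (S : SL) : Set (ℕ → Bool) :=
  {x | rc x ∈ C.M ∧ ∃ j, ∀ k, ∃ n, k ≤ n ∧ ∃ s, Hd C (S (j, n, s)) ∧ Pre s x}

theorem hd_Hs {S : SL} {z : RN} (hz : K C z) {j k : ℕ} :
    Hd C (Hs S z j k) ↔ ∃ n, k ≤ n ∧ ∃ s, Hd C (S (j, n, s)) ∧ Pre s (ev C z) := by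
  constructor
  · rintro ⟨p, hp, n, a, s, b, c⟩
    exact ⟨n, a, s, ⟨p, hp, b⟩, (pre_ev hz).2 ⟨p, hp, c⟩⟩
  · rintro ⟨n, a, s, ⟨p, hp, b⟩, c⟩
    obtain ⟨q, hq, d⟩ := (pre_ev hz).1 c
    obtain ⟨r, hr, r1, r2⟩ := C.dir p hp q hq
    exact ⟨r, hr, n, a, s, (S _).lower r1 b, d.mono r2⟩

theorem hd_InB {S : SL} (hS : K C S) {z : RN} (hz : K C z) :
    Hd C (InB S z) ↔ ev C z ∈ BS C S := by
  have h := kF .hs (fun x : SL × RN => (fun y : ℕ × ℕ => Hs x.1 x.2 y.1 y.2, XB x.1 x.2)) rfl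
    (hS.pair hz)
  constructor
  · rintro ⟨p, hp, j, a⟩
    exact ⟨hz.real, j, fun k => (hd_Hs hz).1 ((h.fst.app (j, k)).meet hp (a k))⟩
  · rintro ⟨-, j, a⟩
    rcases (h.snd.app j).dec with ⟨p, hp, k, b⟩ | ⟨p, hp, b⟩
    · exact (((hd_Hs hz).2 (a k)).not_neg ⟨p, hp, b⟩).elim
    · refine ⟨p, hp, j, fun k r hr => ?_⟩
      by_contra hc
      exact b r hr ⟨k, fun s a b => hc ⟨s, a, b⟩⟩

theorem K.bn {S : SL} (hS : K C S) : BN S ∈ C.N := kF .bn BN rfl hS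

theorem val_BN {S : SL} (hS : K C S) : C.val (BN S) = sc (BS C S) := by
  rw [BN, val_SN, setV_eq (fun x hx => hx.1) fun z hz => hd_InB hS hz]

theorem BS_mem {S : SL} (hS : K C S) : sc (BS C S) ∈ C.M := val_BN hS ▸ C.val_mem_M hS.bn

theorem mem_BS_of_top {S : SL} (hS : K C S) {z : RN} (hz : K C z) (h : ⊤ ∈ InB S z) :
    ev C z ∈ BS C S := (hd_InB hS hz).1 ⟨⊤, C.top, h⟩

theorem wt_hd {ι : Type} {c : ENNReal} (X : ι → List Bool → LowerSet P) (i : ι)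
    (h : ∀ r, wt {s | r ∈ X i s} ≤ c) : wt {s | Hd C (X i s)} ≤ c := by
  refine wt_le_of_finite fun F hF => ?_
  obtain ⟨p, _, a⟩ := hd_finite F.finite_toSet (fun s p => p ∈ X i s)
    (fun s _ _ a b => (X i s).lower b a) fun s hs => hF hs
  exact (wt_mono fun s hs => a s hs).trans (h p)

theorem null_BS {S : SL} (hS : K C S) (h : Wt S) : Null C.M (BS C S) := by
  refine ⟨BS_mem hS, fun k => ⟨{s | Hd C (US S k s)}, ?_, ?_, ?_⟩⟩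
  · rw [← val_rN]
    exact C.val_mem_M ((kF .us (fun (S : SL) (k : ℕ) => rN (US S k)) rfl hS).app k)
  · rintro x ⟨-, j, a⟩
    obtain ⟨n, b, s, ⟨p, hp, c⟩, d⟩ := a (k + j + 2)
    exact ⟨s, ⟨p, hp, j, n, b, c⟩, d⟩
  · exact wt_hd (US S) k fun r => wt_tail (fun j n => {s | r ∈ S (j, n, s)}) (h r) k

theorem Null.mono {M : ZFSet} {A B : Set (ℕ → Bool)} (h : Null M A) (hB : sc B ∈ M)
    (hs : B ⊆ A) : Null M B :=
  ⟨hB, fun k => (h.2 k).imp fun _ a => ⟨a.1, fun z hz => a.2.1 z (hs hz), a.2.2⟩⟩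

theorem val_CN (υ : ON) :
    C.val (CN υ) = sc {x | rc x ∈ C.M ∧ ∃ s, Hd C (υ s) ∧ Pre s x} := by
  rw [CN, val_SN]
  refine congrArg sc (setV_eq (fun x hx => hx.1) fun z hz => ?_)
  constructor
  · rintro ⟨p, hp, s, a, b⟩
    exact ⟨hz.real, s, ⟨p, hp, a⟩, (pre_ev hz).2 ⟨p, hp, b⟩⟩
  · rintro ⟨-, s, ⟨p, hp, a⟩, b⟩
    obtain ⟨q, hq, d⟩ := (pre_ev hz).1 b
    obtain ⟨r, hr, r1, r2⟩ := C.dir p hp q hq
    exact ⟨r, hr, s, (υ s).lower r1 a, d.mono r2⟩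

/-- Every null set of the model is captured by a known slalom. -/
theorem conv {A : Set (ℕ → Bool)} (h : Null C.M A) : ∃ D : SD, K C D.S ∧ A ⊆ BS C D.S := by
  obtain ⟨σ, hσ, e⟩ := C.mem_M.1 h.1
  have hk := kF .conv (fun σ : Nm => (fun k => SelN (D1 σ k), (cvD σ).S, CvA σ, CvB σ)) rfl
    (kn hσ)
  have kcn : ∀ υ : ON, K C υ → CN υ ∈ C.N ∧ K C (Big υ) := fun υ hυ =>
    have := kF .cn (fun υ : ON => (CN υ, Big υ)) rfl hυ
    ⟨this.fst, this.snd⟩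
  have key : ∀ x ∈ A, ∀ k, ∃ s : List Bool, k ≤ s.length ∧ Pre s x ∧ Hd C (OO σ s) := by
    intro x hx k
    obtain ⟨U, u1, u2, u3⟩ := h.2 k
    obtain ⟨τ, hτ, e'⟩ := C.mem_M.1 u1
    have hυ := kF .nice2 (dR (List Bool)) rfl (kn hτ)
    have hU := hd_dR hτ e'
    obtain ⟨p, hp, a⟩ : Hd C (neg (Big (dR (List Bool) τ) k)) := by
      refine ((kcn _ hυ).2.app k).dec.resolve_left ?_
      rintro ⟨p, hp, a⟩
      exact absurd (lt_of_lt_of_le a ((wt_mono fun s hs => (hU s).1 ⟨p, hp, hs⟩).trans u3))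
        (lt_irrefl _)
    obtain ⟨q, hq, b⟩ := (truth_sub hσ (kcn _ hυ).1).1 (by
      rw [e, val_CN, sc_subset]
      intro y hy
      obtain ⟨s, s1, s2⟩ := u2 y hy
      exact ⟨real_of_mem h.1 hy, s, (hU s).2 s1, s2⟩)
    obtain ⟨r, hr, r1, r2⟩ := C.dir p hp q hq
    obtain ⟨c, c1, c2, c3, c4, c5⟩ := selN (hk.fst.app k) hr (x := dR (List Bool) τ)
      fun s hs => ⟨(neg _).lower (hs.trans r1) a, b.mono (hs.trans r2)⟩
    have := (truth_sub hσ (kcn _ c3).1).2 ⟨_, c2, c5⟩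
    rw [e, val_CN, sc_subset] at this
    obtain ⟨-, s, ⟨t, ht, s1⟩, s2⟩ := this hx
    obtain ⟨w, hw, w1, w2⟩ := C.dir t ht _ c2
    have s3 := (c.2 s).lower w1 s1
    exact ⟨s, length_ge_of_wt (U := {s | w ∈ c.2 s}) s3 (not_lt.1 (c4 w w2)), s2,
      w, hw, k, c, c1, w2, s3⟩
  refine ⟨cvD σ, hk.snd.fst, fun x hx => ⟨real_of_mem h.1 hx, 0, fun k => ?_⟩⟩
  obtain ⟨q, hq, m, a⟩ := (hk.snd.snd.fst.app k).meet C.top fun q _ => cvA_dense σ k q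
  obtain ⟨s, s1, s2, p, hp, s3⟩ := key x hx m
  obtain ⟨r, hr, r1, r2⟩ := C.dir p hp q hq
  obtain ⟨t, ht, n, b, c⟩ := (hk.snd.snd.snd.app (k, s)).meet hr fun t ht =>
    a s s1 t (ht.trans r2) ((OO σ s).lower (ht.trans r1) s3)
  exact ⟨n, b, s, ⟨t, ht, c⟩, s2⟩

theorem K.av {S : SL} (hS : K C S) : K C (Av S) := kF .av Av rfl hS

theorem av_notMem {S : SL} (hS : K C S) (h : Wt S) : ev C (Av S) ∉ BS C S := by
  rintro ⟨-, j, a⟩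
  obtain ⟨n, b, s, ⟨p, hp, c⟩, d⟩ := a (j + 3)
  obtain ⟨q, hq, e⟩ := (pre_ev hS.av).1 d
  obtain ⟨r, _, r1, r2⟩ := C.dir p hp q hq
  exact av_avoid h b ((S _).lower r1 c) (e.mono r2)

theorem exists_notMem {A : Set (ℕ → Bool)} (h : Null C.M A) : ∃ z, K C z ∧ ev C z ∉ A := by
  obtain ⟨D, a, b⟩ := conv h
  exact ⟨_, a.av, fun hc => av_notMem a D.wt_S (b hc)⟩

theorem BS_mrg {ι : Type} [Countable ι] (S : ι → SL) (i : ι) : BS C (S i) ⊆ BS C (mrg S) := by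
  rintro x ⟨a, j, b⟩
  obtain ⟨j', c⟩ := le_mrg S i j
  refine ⟨a, j', fun k => ?_⟩
  obtain ⟨n, d, s, ⟨p, hp, e⟩, f⟩ := b k
  exact ⟨n, d, s, ⟨p, hp, c n s p e⟩, f⟩

section ord

variable {W : Type} [LinearOrder W] [WellFoundedLT W]

theorem mem_val_ordN {w : W} {x : ZFSet} :
    x ∈ C.val (ordN w) ↔ ∃ v < w, ordN v ∈ C.N ∧ x = C.val (ordN v) := by
  rw [ordN_eq w, C.mem_val]
  exact ⟨fun ⟨v, a, _, b⟩ => ⟨v.1, v.2, a, b⟩, fun ⟨v, a, b, c⟩ => ⟨⟨v, a⟩, b, C.top, c⟩⟩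

theorem mem_val_oN {x : ZFSet} :
    x ∈ C.val (oN W) ↔ ∃ v : W, ordN v ∈ C.N ∧ x = C.val (ordN v) := by
  rw [oN, C.mem_val]
  exact ⟨fun ⟨v, a, _, b⟩ => ⟨v, a, b⟩, fun ⟨v, b, c⟩ => ⟨v, b, C.top, c⟩⟩

theorem val_ordN_inj {v w : W} (hv : ordN v ∈ C.N) (hw : ordN w ∈ C.N)
    (h : C.val (ordN v) = C.val (ordN w)) : v = w := by
  obtain ⟨p, _, a⟩ := (C.val_eq_iff hv hw).1 h
  exact feq_ordN a

theorem val_ordN_mem {v w : W} (hv : ordN v ∈ C.N) :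
    C.val (ordN v) ∈ C.val (ordN w) ↔ v < w := by
  rw [mem_val_ordN]
  exact ⟨fun ⟨u, a, b, c⟩ => val_ordN_inj hv b c ▸ a, fun h => ⟨v, h, hv, rfl⟩⟩

theorem trans_ordN (w : W) : (C.val (ordN w)).IsTransitive := by
  intro x hx y hy
  obtain ⟨v, a, -, rfl⟩ := mem_val_ordN.1 hx
  obtain ⟨u, b, c, rfl⟩ := mem_val_ordN.1 hy
  exact mem_val_ordN.2 ⟨u, b.trans a, c, rfl⟩

theorem ord_oN : (C.val (oN W)).IsOrdinal := by
  rw [ZFSet.isOrdinal_iff_forall_mem_isTransitive]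
  refine ⟨fun x hx y hy => ?_, fun x hx => ?_⟩
  · obtain ⟨v, -, rfl⟩ := mem_val_oN.1 hx
    obtain ⟨u, -, c, rfl⟩ := mem_val_ordN.1 hy
    exact mem_val_oN.2 ⟨u, c, rfl⟩
  · obtain ⟨v, -, rfl⟩ := mem_val_oN.1 hx
    exact trans_ordN v

variable (C) in
noncomputable def dcd [Nonempty W] (α : ZFSet) : W :=
  if h : ∃ w : W, ordN w ∈ C.N ∧ α = C.val (ordN w) then h.choose else Classical.arbitrary W

theorem dcd_val [Nonempty W] {w : W} (h : ordN w ∈ C.N) : dcd C (C.val (ordN w)) = w := by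
  have h' : ∃ v : W, ordN v ∈ C.N ∧ C.val (ordN w) = C.val (ordN v) := ⟨w, h, rfl⟩
  rw [dcd, dif_pos h']
  exact (val_ordN_inj h h'.choose_spec.1 h'.choose_spec.2).symm

theorem graph_GN [Nonempty W] {τ : W → Nm} (h : GN τ ∈ C.N) (F : W → ZFSet)
    (hτ : ∀ w, ordN w ∈ C.N → τ w ∈ C.N ∧ C.val (τ w) = F w) :
    Graph C.M (C.val (oN W)) fun α => F (dcd C α) := by
  refine ⟨_, C.val_mem_M h, fun z => ?_⟩
  have key : ∀ w : W, ordN w ∈ C.N → C.val (pairN (ordN w) (τ w)) =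
      ZFSet.pair (C.val (ordN w)) (F (dcd C (C.val (ordN w)))) := fun w b => by
    rw [dcd_val b, ← (hτ w b).2]
    exact C.val_pairN (C.pair_memN b (hτ w b).1)
  rw [GN, C.mem_val]
  constructor
  · rintro ⟨w, a, -, rfl⟩
    have b := C.pairN_left a
    exact ⟨_, mem_val_oN.2 ⟨w, b, rfl⟩, key w b⟩
  · rintro ⟨_, a, rfl⟩
    obtain ⟨w, b, rfl⟩ := mem_val_oN.1 a
    exact ⟨w, C.pair_memN b (hτ w b).1, C.top, (key w b).symm⟩

end ord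

theorem graph_app {γ : ZFSet} {F : ZFSet → ZFSet} (h : Graph C.M γ F) :
    ∃ φ ∈ C.N, ∀ τ ∈ C.N, ∀ ρ ∈ C.N, C.val τ ∈ γ →
      (Hd C (App φ τ ρ) ↔ C.val ρ ∈ F (C.val τ)) := by
  obtain ⟨f, hf, a⟩ := h
  obtain ⟨φ, hφ, rfl⟩ := C.mem_M.1 hf
  refine ⟨φ, hφ, fun τ hτ ρ hρ h => ?_⟩
  rw [hd_app hφ hτ hρ]
  constructor
  · rintro ⟨y, b, c⟩
    obtain ⟨α, _, e⟩ := (a _).1 b
    rw [ZFSet.pair_inj] at e
    rwa [e.1, ← e.2]
  · exact fun b => ⟨_, (a _).2 ⟨_, h, rfl⟩, b⟩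

end Pool.Agent.Lib.MP_145df4_lc
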