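import Mathlib
import Pool.Agent.Lib.MP_145df4_lc.Model1

/-! The values of `add`, `cofin` and `cof` of the null ideal in the generic extension. -/

set_option autoImplicit false

namespace Pool.Agent.Lib.MP_145df4_lc

open Classical Pool.Agent.Lib.MP_053343_lc Pool.Agent.Lib.MP_053343_lc.Name
  Pool.Agent.Shared.Forcing

variable {C : Cx}

theorem k_const : K C (oN O1, oN L, oN FN, GN fun i : O1 => BN (wS (w1 i)), GN IN,
    GN fun S : FN => BN S.1, l0) :=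
  kF .const (fun _ : Nm => (oN O1, oN L, oN FN, GN fun i : O1 => BN (wS (w1 i)), GN IN,
      GN fun S : FN => BN S.1, l0)) rfl (kn C.emp)

theorem k_w1 {i : O1} (h : K C i) : K C (wS (w1 i)) := kF .w1s (fun i : O1 => wS (w1 i)) rfl h

theorem addWit : AddWit C.M (C.val (oN O1)) := by
  refine ⟨fun α => BS C (wS (w1 (dcd C α))),
    graph_GN k_const.snd.snd.snd.fst (fun i => sc (BS C (wS (w1 i))))
      fun i hi => ⟨(k_w1 hi).bn, val_BN (k_w1 hi)⟩, fun α hα => ?_, fun h => ?_⟩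
  · obtain ⟨i, a, rfl⟩ := mem_val_oN.1 hα
    beta_reduce
    rw [dcd_val a]
    exact null_BS (k_w1 a) (wt_wS _)
  · obtain ⟨z, a, b⟩ := exists_notMem h
    obtain ⟨i, c, d⟩ := kR .w1w rfl a (exists_w1 z)
    refine b ⟨_, mem_val_oN.2 ⟨i, c, rfl⟩, ?_⟩
    beta_reduce
    rw [dcd_val c]
    exact mem_BS_of_top (k_w1 c) a d

instance : Nonempty FN := ⟨(⟨wS (cc l0), wt_wS _⟩ : {S : SL // Wt S})⟩

theorem cofWit : CofWit C.M (C.val (oN FN)) := by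
  have k1 : ∀ S : FN, K C S → K C S.1 := fun S h => kF .fn1 (fun S : FN => S.1) rfl h
  refine ⟨fun α => BS C (dcd (W := FN) C α).1,
    graph_GN k_const.snd.snd.snd.snd.snd.fst (fun S : FN => sc (BS C S.1))
      fun S hS => ⟨(k1 S hS).bn, val_BN (k1 S hS)⟩, fun α hα => ?_, fun A h => ?_⟩
  · obtain ⟨S, a, rfl⟩ := mem_val_oN.1 hα
    beta_reduce
    rw [dcd_val a]
    exact null_BS (k1 S a) S.2
  · obtain ⟨D, a, b⟩ := conv h
    obtain ⟨S, c, d⟩ := kR .fn2 rfl a ⟨(⟨D.S, D.wt_S⟩ : {S : SL // Wt S}), rfl⟩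
    refine ⟨_, mem_val_oN.2 ⟨S, c, rfl⟩, ?_⟩
    beta_reduce
    rw [dcd_val c, d]
    exact b

theorem not_cofWit {γ : ZFSet} (hγ : γ ⊆ C.val (oN L)) : ¬ CofWit C.M γ := by
  rintro ⟨F, h1, h2, h3⟩
  obtain ⟨φ, hφ, a⟩ := graph_app h1
  have hS := kF .cofl (fun φ : Nm => wS (w2 (exists_xi φ).choose)) rfl (kn hφ)
  obtain ⟨α, b, c⟩ := h3 _ (null_BS hS (wt_wS _))
  obtain ⟨η, d, rfl⟩ := mem_val_oN.1 (hγ b)
  obtain ⟨z, e, f⟩ := exists_notMem (h2 _ b)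
  have key : ∀ z, K C z → (Hd C (App φ (ordN η) (rN z)) ↔ ev C z ∈ F (C.val (ordN η))) :=
    fun z hz => by rw [a _ d _ hz.rn b, val_real, rc_mem_sc]
  obtain ⟨q, hq, g⟩ := (k_app hφ d e.rn).dec.resolve_left fun h => f ((key z e).1 h)
  obtain ⟨x, x1, x2, x3, x4⟩ := selN (kF .cofs (fun x : Nm × L => SelN (DC x.1 x.2)) rfl
    ((kn hφ).pair (show K C η from d))) hq (x := z) fun r hr => (neg _).lower hr g
  exact ((key _ x3).2 (c (mem_BS_of_top hS x3 ((exists_xi φ).choose_spec η x x1)))).not_neg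
    ⟨_, x2, x4⟩

variable (C) in
/-- The ideal generated by the null sets coded below a level. -/
def II (η : L) : Set (Set (ℕ → Bool)) :=
  {A | sc A ∈ C.M ∧ ∃ S, K C S ∧ Wt S ∧ DetS η S ∧ A ⊆ BS C S}

theorem k_lop {η : L} (h : K C η) : K C (IN η, wS (cc η), nxt η, coD η) :=
  kF .lop (fun η : L => (IN η, wS (cc η), nxt η, coD η)) rfl h

theorem sub_BN {Ψ : RN → LowerSet P} (h : SN Ψ ∈ C.N) {S : SL} (hS : K C S) :
    setV C Ψ ⊆ BS C S ↔ ∃ p ∈ C.G, Fo subF [SN Ψ, BN S] p := by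
  rw [← truth_sub h hS.bn, val_SN, val_BN hS, sc_subset]

theorem val_IN {η : L} (h : K C η) : C.val (IN η) = fc (II C η) := by
  ext y
  rw [C.mem_val, mem_fc]
  constructor
  · rintro ⟨⟨⟨Ψ, p⟩, S, a1, a2, a3⟩, b, c, rfl⟩
    replace b : SN Ψ ∈ C.N := b
    obtain ⟨q, hq, q1, q2⟩ := C.cof p c
    obtain ⟨S, s1, s2, s3, s4⟩ := kR .inw rfl ((show K C q from q2).pair ((kn b).pair h))
      ⟨S, a1, a2, a3.mono q1⟩
    exact ⟨setV C Ψ, ⟨val_SN Ψ ▸ C.val_mem_M b, S, s1, s2, s3, (sub_BN b s1).2 ⟨q, hq, s4⟩⟩,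
      val_SN Ψ⟩
  · rintro ⟨A, ⟨a, S, s1, s2, s3, s4⟩, rfl⟩
    obtain ⟨Ψ, b, rfl⟩ := exists_SN a
    obtain ⟨p, hp, c⟩ := (sub_BN b s1).1 s4
    exact ⟨⟨(Ψ, p), S, s2, s3, c⟩, b, hp, (val_SN Ψ).symm⟩

theorem sc_union_mem {A B : Set (ℕ → Bool)} (h : sc A ∈ C.M) (h' : sc B ∈ C.M) :
    sc (A ∪ B) ∈ C.M := by
  have : sc (A ∪ B) = ZFSet.sUnion {sc A, sc B} := by
    ext x
    simp only [ZFSet.mem_sUnion, ZFSet.mem_pair, exists_eq_or_imp, exists_eq_left, mem_sc,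
      Set.mem_union]
    constructor
    · rintro ⟨z, a | a, b⟩
      exacts [Or.inl ⟨z, a, b⟩, Or.inr ⟨z, a, b⟩]
    · rintro (⟨z, a, b⟩ | ⟨z, a, b⟩)
      exacts [⟨z, Or.inl a, b⟩, ⟨z, Or.inr a, b⟩]
  rw [this]
  exact C.modelZF.union _ (C.modelZF.pair _ h _ h')

theorem sigmaId_II {η : L} (h : K C η) : SigmaId C.M (II C η) := by
  refine ⟨?_, ?_, ?_, ?_⟩
  · have e : sc ∅ = ∅ := by
      ext x
      simp [mem_sc]
    obtain ⟨D, a, -⟩ := conv (C := C) (A := ∅) ⟨by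
      rw [e, ← C.val_empty]; exact C.val_mem_M C.emp, fun k => ⟨∅, by
        have : enc (Encodable.encode '' (∅ : Set (List Bool))) = ∅ := by
          ext x
          simp [mem_enc]
        rw [this, ← C.val_empty]; exact C.val_mem_M C.emp, by simp, by simp [wt_empty]⟩⟩
    have hψ : K C ((empty : Nm), η) := (kn C.emp).pair h
    have hk := kF .sig (fun x : Nm × L => (fun n => SN (apS x.1 n), SN (apU x.1),
      fun n => SelN (DI (SN (apS x.1 n)) x.2), sgM x.1 x.2)) rfl hψ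
    exact ⟨by rw [e, ← C.val_empty]; exact C.val_mem_M C.emp, _, hk.snd.snd.snd,
      wt_mrg fun x => ((Sel.spec _).2.1 _ x.2.2).1,
      det_mrg fun x => ((Sel.spec _).2.1 _ x.2.2).2.1, Set.empty_subset _⟩
  · rintro A ⟨-, S, s1, s2, s3, s4⟩ B a b
    exact ⟨a, S, s1, s2, s3, b.trans s4⟩
  · rintro A ⟨a, S, s1, s2, s3, s4⟩ B ⟨b, S', t1, t2, t3, t4⟩
    refine ⟨sc_union_mem a b, _, kF .mrg2 (fun x : SL × SL => mrg fun b : Bool => cond b x.1 x.2)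
      rfl (s1.pair t1), wt_mrg fun b => ?_, det_mrg fun b => ?_, Set.union_subset
        (s4.trans (BS_mrg (fun b : Bool => cond b S S') true))
        (t4.trans (BS_mrg (fun b : Bool => cond b S S') false))⟩
    · cases b
      exacts [t2, s2]
    · cases b
      exacts [t3, s3]
  · rintro A ⟨g, hg, a⟩ hA
    obtain ⟨ψ, hψ, rfl⟩ := C.mem_M.1 hg
    have hk := kF .sig (fun x : Nm × L => (fun n => SN (apS x.1 n), SN (apU x.1),
      fun n => SelN (DI (SN (apS x.1 n)) x.2), sgM x.1 x.2)) rfl ((kn hψ).pair h)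
    have key : ∀ n z, K C z → (Hd C (apS ψ n z) ↔ ev C z ∈ A n) := by
      intro n z hz
      rw [apS, hd_app hψ (C.natN_mem n) hz.rn, C.val_natN, val_real]
      constructor
      · rintro ⟨y, b, c⟩
        obtain ⟨m, e⟩ := (a _).1 b
        rw [ZFSet.pair_inj] at e
        rwa [nat_inj e.1, ← rc_mem_sc, ← e.2]
      · exact fun b => ⟨_, (a _).2 ⟨n, rfl⟩, rc_mem_sc.2 b⟩
    have e1 : ∀ n, setV C (apS ψ n) = A n := fun n =>
      setV_eq (fun x => real_of_mem (hA n).1) (key n)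
    have e2 : setV C (apU ψ) = ⋃ n, A n := by
      refine setV_eq (fun x hx => ?_) fun z hz => ?_
      · obtain ⟨n, hn⟩ := Set.mem_iUnion.1 hx
        exact real_of_mem (hA n).1 hn
      · rw [Set.mem_iUnion]
        constructor
        · rintro ⟨p, hp, n, b⟩
          exact ⟨n, (key n z hz).1 ⟨p, hp, b⟩⟩
        · rintro ⟨n, b⟩
          obtain ⟨p, hp, c⟩ := (key n z hz).2 b
          exact ⟨p, hp, n, c⟩
    refine ⟨by rw [← e2, ← val_SN]; exact C.val_mem_M hk.snd.fst, _, hk.snd.snd.snd,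
      wt_mrg fun x => ((Sel.spec _).2.1 _ x.2.2).1,
      det_mrg fun x => ((Sel.spec _).2.1 _ x.2.2).2.1, Set.iUnion_subset fun n => ?_⟩
    obtain ⟨-, S, s1, s2, s3, s4⟩ := hA n
    have hn : SN (apS ψ n) ∈ C.N := hk.fst.app n
    obtain ⟨p, hp, b⟩ := (sub_BN hn s1).1 (e1 n ▸ s4)
    obtain ⟨x, x1, x2, x3, -, -, x4⟩ := selN (hk.snd.snd.fst.app n) hp (x := S)
      fun r hr => ⟨s2, s3, b.mono hr⟩
    rw [← e1 n]
    exact ((sub_BN hn x3).2 ⟨_, x2, x4⟩).trans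
      (BS_mrg (fun x : Σ n, Sel (DI (SN (apS ψ n)) η) => x.2.1.2) ⟨n, x, x1⟩)

theorem II_lt {η θ : L} (h : K C η) (hl : η < θ) : II C η ⊂ II C θ := by
  have hS := (k_lop h).snd.fst
  refine ⟨fun A ⟨a, S, s1, s2, s3, s4⟩ => ⟨a, S, s1, s2, fun x => (s3 x).mono hl.le, s4⟩,
    fun hc => ?_⟩
  obtain ⟨-, S, s1, s2, s3, s4⟩ := hc (show BS C (wS (cc η)) ∈ II C θ from
    ⟨BS_mem hS, _, hS, wt_wS _, det_wS hl, subset_rfl⟩)
  exact av_notMem s1 s2 (s4 (mem_BS_of_top hS s1.av (top_inB_cc s3)))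

theorem chainWit : ChainWit C.M (C.val (oN L)) := by
  refine ⟨fun h => ?_, fun α hα => ?_, fun α => II C (dcd C α),
    graph_GN k_const.snd.snd.snd.snd.fst (fun η => fc (II C η))
      fun η hη => ⟨(k_lop hη).fst, val_IN hη⟩, fun α hα => ?_, fun α hα β hβ h => ?_,
    fun A => ⟨fun h => ?_, ?_⟩⟩
  · have : C.val (ordN l0) ∈ C.val (oN L) :=
      mem_val_oN.2 ⟨l0, k_const.snd.snd.snd.snd.snd.snd, rfl⟩
    rw [h] at this
    simp at this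
  · obtain ⟨η, a, rfl⟩ := mem_val_oN.1 hα
    exact ⟨_, mem_val_oN.2 ⟨nxt η, (k_lop a).snd.snd.fst, rfl⟩,
      (val_ordN_mem a).2 (exists_gt η).choose_spec⟩
  · obtain ⟨η, a, rfl⟩ := mem_val_oN.1 hα
    beta_reduce
    rw [dcd_val a]
    exact sigmaId_II a
  · obtain ⟨η, a, rfl⟩ := mem_val_oN.1 hα
    obtain ⟨θ, b, rfl⟩ := mem_val_oN.1 hβ
    beta_reduce
    rw [dcd_val a, dcd_val b]
    exact II_lt a ((val_ordN_mem a).1 h)
  · obtain ⟨D, a, b⟩ := conv h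
    obtain ⟨η, c, d⟩ := kR .lev rfl a D.det
    refine ⟨_, mem_val_oN.2 ⟨η, c, rfl⟩, ?_⟩
    beta_reduce
    rw [dcd_val c]
    exact ⟨h.1, _, a, D.wt_S, d, b⟩
  · rintro ⟨α, -, a, S, s1, s2, -, s4⟩
    exact (null_BS s1 s2).mono a s4

theorem BS_split {S : SL} {η : L} (h : K C η) :
    BS C S ⊆ BS C (yS S η false) ∪ BS C (yS S η true) := by
  rintro x ⟨a, j, b⟩
  by_contra hc
  simp only [Set.mem_union, BS, Set.mem_ofPred_eq, a, true_and, not_or, not_exists,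
    not_forall] at hc
  obtain ⟨k0, h0⟩ := hc.1 j
  obtain ⟨k1, h1⟩ := hc.2 j
  obtain ⟨n, c, s, ⟨p, hp, d⟩, e⟩ := b (max k0 k1)
  obtain ⟨q, hq, f⟩ := ((k_lop h).snd.snd.snd.app n).meet C.top fun q _ => by
    obtain ⟨r, r1, -, -, -, -, r2, -⟩ := cohen_one q (cc η, n) true
    exact ⟨r, r1, r2⟩
  obtain ⟨r, hr, r1, r2⟩ := C.dir p hp q hq
  obtain ⟨ε, hε⟩ := Option.ne_none_iff_exists'.1 (ne_none_mono r2 f)
  cases ε
  · exact h0 n ⟨(le_max_left _ _).trans c, s, ⟨r, hr, (S _).lower r1 d, hε⟩, e⟩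
  · exact h1 n ⟨(le_max_right _ _).trans c, s, ⟨r, hr, (S _).lower r1 d, hε⟩, e⟩

theorem not_chainWit {γ : ZFSet} (hγ : γ = C.val (oN O1) ∨ γ ∈ C.val (oN O1)) :
    ¬ ChainWit C.M γ := by
  rintro ⟨-, h1, I, h2, h3, h4, h5⟩
  have hs : γ ⊆ C.val (oN O1) := by
    rcases hγ with rfl | h
    exacts [subset_rfl, ord_oN.subset_of_mem h]
  obtain ⟨φ, hφ, a⟩ := graph_app h2
  have key : ∀ i : O1, K C i → C.val (ordN i) ∈ γ → ∀ S, K C S →
      (Hd C (App φ (ordN i) (BN S)) ↔ BS C S ∈ I (C.val (ordN i))) :=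
    fun i hi b S hS => by rw [a (ordN i) hi _ hS.bn b, val_BN hS, sc_mem_fc]
  have knc : ∀ i : O1, K C i → K C (below (Sel (DN φ i)), fun k => (sk φ i k).S, skM φ i) :=
    fun i hi => kF .nc (fun x : Nm × O1 =>
      (below (Sel (DN x.1 x.2)), fun k => (sk x.1 x.2 k).S, skM x.1 x.2)) rfl (a := (φ, i))
        ((kn hφ).pair hi)
  have out : ∀ i : O1, K C i → C.val (ordN i) ∈ γ →
      ∃ k, BS C (sk φ i k).S ∉ I (C.val (ordN i)) := by
    intro i hi b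
    obtain ⟨β, c, d⟩ := h1 _ b
    obtain ⟨A, e, f⟩ := Set.exists_of_ssubset (h4 _ b β c d)
    have hA := (h5 A).2 ⟨β, c, e⟩
    obtain ⟨D, g1, g2⟩ := conv hA
    obtain ⟨q, hq, g3⟩ := (k_app hφ hi g1.bn).dec.resolve_left fun h =>
      f ((h3 _ b).2.1 _ ((key i hi b _ g1).1 h) A hA.1 g2)
    obtain ⟨x, x1, x2⟩ := sel (knc i hi).fst hq (x := D) fun r hr => (neg _).lower hr g3
    obtain ⟨k, hk⟩ := Set.subset_range_enumerate (Sel.spec (DN φ i)).1 (⊤, default) x1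
    have e : sk φ i k = x.2 := congrArg Prod.snd hk
    refine ⟨k, fun h => ((key i hi b _ ((knc i hi).snd.fst.app k)).2 h).not_neg ⟨_, x2, ?_⟩⟩
    rw [e]
    exact (Sel.spec _).2.1 x x1
  have kys : ∀ (S : SL) (η : L) ε, K C S → K C η → K C (yS S η ε) := fun S η ε a b =>
    (kF .ys (fun x : SL × L => yS x.1 x.2) rfl (a.pair b)).app ε
  rcases hγ with rfl | hγ
  · obtain ⟨q, hq, b, ⟨l, c⟩ | c⟩ :=
      ((kF .kd KD rfl (kn hφ)).meet C.top fun q _ => kd_dense φ q).known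
    · obtain ⟨l, l1, l2, l3, l4⟩ := kR .kg (r := fun (x : P × Nm) (l : WO Lam) => GoodK x.2 x.1 l)
        rfl (b.pair (kn hφ)) ⟨l, c⟩
      have hl := kF .lam (fun l : WO Lam => (tS l, lenD l)) rfl l1
      obtain ⟨α, d, e⟩ := (h5 _).1 (null_BS hl.fst (wt_tS _))
      obtain ⟨a0, f, rfl⟩ := mem_val_oN.1 d
      have hw : K C (φ, l, a0) := (kn hφ).pair (l1.pair f)
      obtain ⟨r, hr, r1, r2⟩ := ((kF .kw (fun x : Nm × WO Lam × O1 => KWS x.1 x.2.1 x.2.2) rfl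
        hw).meet hq (l4 a0)).known
      obtain ⟨i, i1, k, i2, i3, ε, i4, i5⟩ := kR .kww
        (r := fun (x : P × Nm × WO Lam × O1) (a : O1) => KW x.2.1 x.2.2.1 x.2.2.2 x.1 a)
        rfl (r1.pair hw) r2
      have hη : K C (et l (i, k)) :=
        (kF .etl (fun (x : WO Lam × O1) (k : ℕ) => et x.1 (x.2, k)) rfl (l1.pair i1)).app k
      have hy := kys _ _ ε ((knc i i1).snd.fst.app k) hη
      have hi : C.val (ordN i) ∈ C.val (oN O1) := mem_val_oN.2 ⟨i, i1, rfl⟩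
      refine ((key i i1 hi _ hy).2 ?_).not_neg ⟨r, hr, i5⟩
      have e' : BS C (tS l) ∈ I (C.val (ordN i)) := by
        rcases i2.eq_or_lt with h | h
        · rwa [← h]
        · exact (h4 _ d _ hi ((val_ordN_mem f).2 h)).1 e
      refine (h3 _ hi).2.1 _ e' _ (BS_mem hy) ?_
      rintro x ⟨x1, j, x2⟩
      refine ⟨x1, j, fun m => ?_⟩
      obtain ⟨n, n1, s, ⟨p, hp, n2⟩, n3⟩ := x2 (max m (r.len l))
      obtain ⟨t, ht, t1⟩ := (hl.snd.app n).meet C.top fun q _ => by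
        obtain ⟨r, r1, r2, -⟩ := long q l2 n
        exact ⟨r, r1, r2⟩
      obtain ⟨u, hu, u1, u2, u3⟩ := C.dir3 hr hp ht
      exact ⟨n, (le_max_left _ _).trans n1, s, ⟨u, hu, promise_kept (l3 i k) u1 i3 i4
        ((le_max_right _ _).trans n1) ((lenD l n).lower u3 t1) ((yS _ _ _ _).lower u2 n2)⟩, n3⟩
    · obtain ⟨⟨i, η⟩, x1, x2⟩ := kR .kb (r := fun (x : P × Nm) (y : O1 × L) => BadK x.2 x.1 y)
        rfl (b.pair (kn hφ)) c
      have hi : C.val (ordN i) ∈ C.val (oN O1) := mem_val_oN.2 ⟨i, x1.fst, rfl⟩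
      obtain ⟨k, hk⟩ := out i x1.fst hi
      have hS := (knc i x1.fst).snd.fst.app k
      have : ∀ ε, BS C (yS (sk φ i k).S η ε) ∈ I (C.val (ordN i)) := fun ε => by
        have hy := kys _ _ ε hS x1.snd
        refine (key i x1.fst hi _ hy).1 ((k_app hφ x1.fst hy.bn).dec.resolve_right ?_)
        rintro ⟨p, hp, d⟩
        obtain ⟨r, _, r1, r2⟩ := C.dir p hp q hq
        exact x2 r r2 k ε ((neg _).lower r1 d)
      exact hk ((h3 _ hi).2.1 _ ((h3 _ hi).2.2.1 _ (this false) _ (this true)) _ (BS_mem hS)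
        (BS_split x1.snd))
  · obtain ⟨a0, b, rfl⟩ := mem_val_oN.1 hγ
    obtain ⟨α, d, e⟩ := (h5 _).1 (null_BS (knc a0 b).snd.snd (wt_mrg fun _ => SD.wt_S _))
    obtain ⟨i, i1, i2, rfl⟩ := mem_val_ordN.1 d
    obtain ⟨k, hk⟩ := out i i2 d
    exact hk ((h3 _ d).2.1 _ e _ (BS_mem ((knc i i2).snd.fst.app k))
      (BS_mrg (fun x : Set.Iio a0 × ℕ => (sk φ x.1 x.2).S) (⟨i, i1⟩, k)))

theorem exists_least {M : ZFSet} (hM : M.IsTransitive) {W : ZFSet → Prop} {κ : ZFSet}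
    (h1 : κ ∈ M) (h2 : κ.IsOrdinal) (h3 : W κ) : ∃ a, LeastOrd M W a ∧ a ⊆ κ := by
  obtain ⟨a, ⟨a1, a2, a3⟩, a4⟩ := ZFSet.mem_wf.has_min {γ | γ ∈ M ∧ γ.IsOrdinal ∧ W γ}
    ⟨κ, h1, h2, h3⟩
  exact ⟨a, ⟨a1, a2, a3, fun γ b c => a4 γ ⟨hM _ a1 b, a2.mem b, c⟩ b⟩,
    (h2.notMem_iff_subset a2).1 (a4 κ ⟨h1, h2, h3⟩)⟩

theorem null_gaps : ∃ M : ZFSet.{0}, ModelZF M ∧ AC M ∧ ∃ a c f,
    LeastOrd M (AddWit M) a ∧ LeastOrd M (ChainWit M) c ∧ LeastOrd M (CofWit M) f ∧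
      a ∈ c ∧ c ∈ f := by
  obtain ⟨C⟩ : Nonempty Cx := exists_ctx _ _
  obtain ⟨a, a1, a2⟩ := exists_least C.trans (C.val_mem_M k_const.fst) ord_oN (addWit (C := C))
  obtain ⟨c, c1, c2⟩ :=
    exists_least C.trans (C.val_mem_M k_const.snd.fst) ord_oN (chainWit (C := C))
  obtain ⟨f, f1, -⟩ :=
    exists_least C.trans (C.val_mem_M k_const.snd.snd.fst) ord_oN (cofWit (C := C))
  refine ⟨C.M, C.modelZF, C.choice, a, c, f, a1, c1, f1, ?_, ?_⟩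
  · refine a1.2.1.mem_of_subset_of_mem c1.2.1 a2 ((c1.2.1.not_subset_iff_mem ord_oN).1 fun h => ?_)
    exact not_chainWit ((c1.2.1.subset_iff_eq_or_mem ord_oN).1 h) c1.2.2.1
  · exact c1.2.1.mem_of_subset_of_mem f1.2.1 c2
      ((f1.2.1.not_subset_iff_mem ord_oN).1 fun h => not_cofWit h f1.2.2.1)

end Pool.Agent.Lib.MP_145df4_lc
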