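import Mathlib

/-! Chains of ideals on the natural numbers. -/

set_option autoImplicit false

namespace Pool.Agent.Lib.MP_145df4_lc

/-- An ideal on the natural numbers: contains all finite sets, and is closed under subsets and
under unions of two sets. -/
def IsNatIdeal (J : Set (Set ℕ)) : Prop :=
  (∀ T : Set ℕ, T.Finite → T ∈ J) ∧ (∀ A ∈ J, ∀ B : Set ℕ, B ⊆ A → B ∈ J) ∧
    ∀ A ∈ J, ∀ B ∈ J, A ∪ B ∈ J

/-- `γ` is a limit ordinal and `I` is the union of a strictly increasing `γ`-sequence of ideals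
on the natural numbers. -/
def IsNatChainLength (I : Set (Set ℕ)) (γ : Ordinal.{0}) : Prop :=
  Order.IsSuccLimit γ ∧ ∃ J : Ordinal.{0} → Set (Set ℕ),
    (∀ α < γ, IsNatIdeal (J α)) ∧ (∀ α β, α < β → β < γ → J α ⊂ J β) ∧
      I = ⋃ α ∈ Set.Iio γ, J α

end Pool.Agent.Lib.MP_145df4_lc
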