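import Mathlib
import Pool.Agent.Lib.MP_145df4_lc.Prime
import Pool.Agent.Lib.MP_145df4_lc.SummDefs

/-! Thinning a weakly increasing chain to a strictly increasing one, and existence of a chain for
the summable ideal. -/

set_option autoImplicit false
set_option maxHeartbeats 400000
open Set Cardinal

namespace Pool.Agent.Lib.MP_145df4_lc

theorem chain_extract {Y : Type} (P : Set Y → Prop) (I : Set Y) (γ : Ordinal.{0})
    (J : Ordinal.{0} → Set Y) (hP : ∀ α < γ, P (J α))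
    (hm : ∀ α β, α < β → β < γ → J α ⊆ J β) (hI : I = ⋃ α ∈ Iio γ, J α)
    (hne : ∀ α < γ, J α ≠ I) (h0 : I.Nonempty) :
    ∃ δ ≤ γ, Order.IsSuccLimit δ ∧ ∃ K : Ordinal.{0} → Set Y, (∀ α < δ, P (K α)) ∧
      (∀ α β, α < β → β < δ → K α ⊂ K β) ∧ I = ⋃ α ∈ Iio δ, K α := by
  set S : Set Ordinal.{0} := {α | γ ≤ α ∨ ∀ β < α, J β ≠ J α} with hS
  have hb : ¬ BddAbove S := by
    rintro ⟨b, hb⟩
    have h1 : Order.succ (max b γ) ∈ S := Or.inl ((le_max_right b γ).trans (Order.le_succ _))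
    exact absurd (hb h1) (not_le.mpr ((le_max_left b γ).trans_lt (Order.lt_succ _)))
  have hmono := Ordinal.enumOrd_strictMono hb
  have hex : {ξ | γ ≤ Ordinal.enumOrd S ξ}.Nonempty := ⟨γ, Ordinal.le_enumOrd_self hb⟩
  set δ := sInf {ξ | γ ≤ Ordinal.enumOrd S ξ} with hδ
  have hδ1 : γ ≤ Ordinal.enumOrd S δ := csInf_mem hex
  have hδ2 : ∀ ξ < δ, Ordinal.enumOrd S ξ < γ := fun ξ hξ => by
    by_contra h
    exact absurd (csInf_le' (s := {ξ | γ ≤ Ordinal.enumOrd S ξ}) (not_lt.mp h)) (not_le.mpr hξ)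
  have hcov : ∀ α < γ, ∃ ξ < δ, J (Ordinal.enumOrd S ξ) = J α := by
    intro α hα
    have h1 : {β | J β = J α}.Nonempty := ⟨α, rfl⟩
    have h2 : J (sInf {β | J β = J α}) = J α := csInf_mem h1
    have h3 : sInf {β | J β = J α} ≤ α := csInf_le' (s := {β | J β = J α}) rfl
    have h4 : sInf {β | J β = J α} ∈ S := Or.inr fun β hβ h =>
      absurd (csInf_le' (s := {β | J β = J α}) (h.trans h2)) (not_le.mpr hβ)
    obtain ⟨ξ, hξ⟩ := Ordinal.enumOrd_surjective hb h4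
    refine ⟨ξ, ?_, by rw [hξ, h2]⟩
    by_contra h
    have h5 := hmono.monotone (not_lt.mp h)
    rw [hξ] at h5
    exact absurd (hδ1.trans (h5.trans h3)) (not_le.mpr hα)
  have hstr : ∀ α β, α < β → β < δ → J (Ordinal.enumOrd S α) ⊂ J (Ordinal.enumOrd S β) := by
    intro α β h1 h2
    refine ssubset_iff_subset_ne.mpr ⟨hm _ _ (hmono h1) (hδ2 β h2), ?_⟩
    rcases Ordinal.enumOrd_mem hb β with h | h
    · exact absurd h (not_le.mpr (hδ2 β h2))
    · exact h _ (hmono h1)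
  have hI2 : I = ⋃ α ∈ Iio δ, J (Ordinal.enumOrd S α) := by
    rw [hI]
    ext y
    simp only [mem_iUnion, exists_prop, mem_Iio]
    constructor
    · rintro ⟨α, hα, hy⟩
      obtain ⟨ξ, h1, h2⟩ := hcov α hα
      exact ⟨ξ, h1, h2 ▸ hy⟩
    · rintro ⟨ξ, h1, hy⟩
      exact ⟨_, hδ2 ξ h1, hy⟩
  refine ⟨δ, csInf_le' (s := {ξ | γ ≤ Ordinal.enumOrd S ξ}) (Ordinal.le_enumOrd_self hb), ?_,
    fun α => J (Ordinal.enumOrd S α), fun α hα => hP _ (hδ2 α hα), hstr, hI2⟩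
  refine ⟨?_, ?_⟩
  · intro hmin
    obtain ⟨y, hy⟩ := h0
    rw [hI2] at hy
    obtain ⟨ξ, h1, -⟩ := mem_iUnion₂.mp hy
    exact absurd (hmin (le_of_lt h1)) (not_le.mpr h1)
  · intro ξ hξ
    apply hne _ (hδ2 ξ hξ.lt)
    apply Subset.antisymm
    · rw [hI2]
      exact subset_biUnion_of_mem (u := fun α => J (Ordinal.enumOrd S α)) (mem_Iio.mpr hξ.lt)
    · rw [hI2]
      refine iUnion₂_subset fun α hα => ?_
      rcases lt_trichotomy α ξ with h | h | h
      · exact (hstr α ξ h hξ.lt).subset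
      · rw [h]
      · exact absurd hα (hξ.2 h)

/-- An ideal in which no set almost contains all the others is the union of a chain. -/
theorem exists_natChain {I : Set (Set ℕ)} (hI : IsNatIdeal I)
    (hnp : ∀ T ∈ I, ∃ T' ∈ I, (T' \ T).Infinite) : ∃ γ, IsNatChainLength I γ := by
  classical
  let gen : Set (Set ℕ) → Set (Set ℕ) := fun F =>
    {T | ∃ G : Set (Set ℕ), G ⊆ F ∧ G.Finite ∧ (T \ ⋃₀ G).Finite}
  have hU : ∀ G : Set (Set ℕ), G.Finite → G ⊆ I → ⋃₀ G ∈ I := by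
    intro G hG
    induction G, hG using Set.Finite.induction_on with
    | empty => intro _; simpa using hI.1 ∅ finite_empty
    | insert _ _ ih =>
      intro h
      rw [sUnion_insert]
      exact hI.2.2 _ (h (mem_insert _ _)) _ (ih ((subset_insert _ _).trans h))
  have hgen : ∀ F, IsNatIdeal (gen F) := by
    intro F
    refine ⟨fun T hT => ⟨∅, empty_subset _, finite_empty, hT.subset sdiff_subset⟩, ?_, ?_⟩
    · rintro A ⟨G, h1, h2, h3⟩ B hB
      exact ⟨G, h1, h2, h3.subset (sdiff_subset_sdiff_left hB)⟩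
    · rintro A ⟨G, h1, h2, h3⟩ B ⟨G', h4, h5, h6⟩
      refine ⟨G ∪ G', union_subset h1 h4, h2.union h5, (h3.union h6).subset ?_⟩
      rintro x ⟨hx | hx, hx'⟩
      · exact Or.inl ⟨hx, fun h => hx' (sUnion_mono subset_union_left h)⟩
      · exact Or.inr ⟨hx, fun h => hx' (sUnion_mono subset_union_right h)⟩
  have hgI : ∀ F ⊆ I, gen F ⊆ I := by
    rintro F hF T ⟨G, h1, h2, h3⟩
    refine hI.2.1 _ (hI.2.2 _ (hI.1 _ h3) _ (hU G h2 (h1.trans hF))) _ ?_
    intro x hx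
    by_cases h : x ∈ ⋃₀ G
    · exact Or.inr h
    · exact Or.inl ⟨hx, h⟩
  have hne : {c | ∃ F : Set (Set ℕ), F ⊆ I ∧ I ⊆ gen F ∧ #F = c}.Nonempty :=
    ⟨_, I, Subset.rfl, fun T hT => ⟨{T}, by simpa using hT, finite_singleton _, by simp⟩, rfl⟩
  obtain ⟨F, hF1, hF2, hF3⟩ := csInf_mem hne
  set c := sInf {c | ∃ F : Set (Set ℕ), F ⊆ I ∧ I ⊆ gen F ∧ #F = c} with hc
  have hinf : ℵ₀ ≤ c := by
    rw [← hF3, Cardinal.aleph0_le_mk_iff, Set.infinite_coe_iff]
    intro hfin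
    obtain ⟨T', h1, h2⟩ := hnp _ (hU F hfin hF1)
    obtain ⟨G, h3, -, h4⟩ := hF2 h1
    exact h2 (h4.subset (sdiff_subset_sdiff_right (sUnion_mono h3)))
  have hlim : Order.IsSuccLimit c.ord := Cardinal.isSuccLimit_ord hinf
  obtain ⟨e⟩ : Nonempty (Iio c.ord ≃ F) := by
    rw [← Cardinal.lift_mk_eq', Cardinal.mk_Iio_ordinal, Cardinal.card_ord, hF3,
      Cardinal.lift_lift]
  obtain ⟨a, ha1, ha2⟩ : ∃ a : Ordinal.{0} → Set ℕ, (∀ α, a α ∈ I) ∧
      ∀ A ∈ F, ∃ α < c.ord, a α = A := by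
    refine ⟨fun α => if h : α < c.ord then e ⟨α, h⟩ else ∅, fun α => ?_, fun A hA => ?_⟩
    · by_cases h : α < c.ord
      · simp only [dif_pos h]
        exact hF1 (e ⟨α, h⟩).2
      · simp only [dif_neg h]
        exact hI.1 ∅ finite_empty
    · have h : (e.symm ⟨A, hA⟩).1 < c.ord := (e.symm ⟨A, hA⟩).2
      refine ⟨(e.symm ⟨A, hA⟩).1, h, ?_⟩
      simp only [dif_pos h]
      simp
  have haI : ∀ α, a '' Iio α ⊆ I := by
    rintro α _ ⟨β, -, rfl⟩
    exact ha1 β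
  obtain ⟨δ, -, h1, K, h2, h3, h4⟩ := chain_extract IsNatIdeal I c.ord (fun α => gen (a '' Iio α))
    (fun α _ => hgen _) (by
      rintro α β h - T ⟨G, h1, h2, h3⟩
      exact ⟨G, h1.trans (image_mono (Iio_subset_Iio h.le)), h2, h3⟩) (by
      apply Subset.antisymm
      · intro T hT
        obtain ⟨G, h1, h2, h3⟩ := hF2 hT
        have key : ∀ G : Set (Set ℕ), G.Finite → G ⊆ F → ∃ α < c.ord, G ⊆ a '' Iio α := by
          intro G hG
          induction G, hG using Set.Finite.induction_on with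
          | empty => intro _; exact ⟨0, hlim.bot_lt, empty_subset _⟩
          | insert _ _ ih =>
            intro h
            obtain ⟨α, hα, h5⟩ := ih ((subset_insert _ _).trans h)
            obtain ⟨β, hβ, h6⟩ := ha2 _ (h (mem_insert _ _))
            refine ⟨max α (Order.succ β), max_lt hα (hlim.succ_lt hβ), insert_subset ?_ ?_⟩
            · exact ⟨β, (Order.lt_succ β).trans_le (le_max_right _ _), h6⟩
            · exact h5.trans (image_mono (Iio_subset_Iio (le_max_left _ _)))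
        obtain ⟨α, hα, h5⟩ := key G h2 h1
        exact mem_biUnion hα ⟨G, h5, h2, h3⟩
      · exact iUnion₂_subset fun α _ => hgI _ (haI α)) (by
      intro α hα h
      have h5 : c ≤ #(a '' Iio α) := csInf_le' ⟨_, haI α, h.symm.subset, rfl⟩
      exact absurd ((mk_image_Iio_le a α).trans_lt (Cardinal.lt_ord.mp hα)) (not_lt.mpr h5))
    ⟨∅, hI.1 ∅ finite_empty⟩
  exact ⟨δ, h1, K, h2, h3, h4⟩

end Pool.Agent.Lib.MP_145df4_lc
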