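import Mathlib

/-! The coin-tossing measure: cylinders, zeroing finitely many coordinates, and a second-moment
bound on the number of blocks that are correlated with a given event. -/

set_option autoImplicit false
set_option maxHeartbeats 400000
open Set Filter MeasureTheory ProbabilityTheory
open scoped ENNReal

namespace Pool.Agent.Lib.MP_145df4_lc.Summ

/-- The coin-tossing measure. -/
noncomputable abbrev mu : Measure (ℕ → Bool) :=
  Measure.infinitePi (fun _ : ℕ => uniformOn (Set.univ : Set Bool))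

theorem coin (b : Bool) : uniformOn (Set.univ : Set Bool) {b} = 2⁻¹ := by
  rw [uniformOn_univ]
  simp

/-- Points that agree with `x` on `B`. -/
def cy (B : Finset ℕ) (x : ℕ → Bool) : Set (ℕ → Bool) := {y | ∀ i ∈ B, y i = x i}

theorem cy_eq (B : Finset ℕ) (x : ℕ → Bool) : cy B x = Set.pi B (fun i => {x i}) := by
  ext y
  simp [cy]

theorem meas_cy (B : Finset ℕ) (x : ℕ → Bool) : MeasurableSet (cy B x) := by
  rw [cy_eq]
  exact MeasurableSet.pi B.countable_toSet (fun i _ => measurableSet_singleton _)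

theorem mu_cy (B : Finset ℕ) (x : ℕ → Bool) : mu (cy B x) = 2⁻¹ ^ B.card := by
  rw [cy_eq, Measure.infinitePi_pi _ (fun i _ => measurableSet_singleton _)]
  simp only [coin, Finset.prod_const]

/-- Set the coordinates in `Z` to `false`. -/
def zer (Z : Finset ℕ) (x : ℕ → Bool) : ℕ → Bool := fun i => if i ∈ Z then false else x i

theorem meas_zer (Z : Finset ℕ) : Measurable (zer Z) := by
  refine measurable_pi_lambda _ fun i => ?_
  by_cases h : i ∈ Z
  · simp only [zer, if_pos h]
    exact measurable_const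
  · simp only [zer, if_neg h]
    exact measurable_pi_apply i

theorem zer_union (Z B : Finset ℕ) (x : ℕ → Bool) : zer (Z ∪ B) x = zer Z (zer B x) := by
  funext i
  by_cases h : i ∈ Z <;> by_cases h' : i ∈ B <;> simp [zer, h, h']

/-- Flip one coordinate. -/
def flp (k : ℕ) (x : ℕ → Bool) : ℕ → Bool := fun i => (if i = k then Bool.not else id) (x i)

theorem mu_flp (k : ℕ) {E : Set (ℕ → Bool)} (hE : MeasurableSet E) : mu (flp k ⁻¹' E) = mu E := by
  have hf : ∀ i : ℕ, Measurable (if i = k then Bool.not else id : Bool → Bool) :=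
    fun i => measurable_of_finite _
  have h1 := Measure.infinitePi_map_pi (fun _ : ℕ => uniformOn (Set.univ : Set Bool)) hf
  have h2 : ∀ i : ℕ, (uniformOn (Set.univ : Set Bool)).map (if i = k then Bool.not else id) =
      uniformOn (Set.univ : Set Bool) := by
    intro i
    split_ifs
    · refine Measure.ext_of_singleton fun b => ?_
      rw [Measure.map_apply (measurable_of_finite _) (measurableSet_singleton _)]
      have : Bool.not ⁻¹' {b} = {!b} := by
        ext c
        cases b <;> cases c <;> simp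
      rw [this, coin, coin]
    · exact Measure.map_id
  simp only [h2] at h1
  have hm : Measurable (flp k) :=
    measurable_pi_lambda _ fun i => (hf i).comp (measurable_pi_apply i)
  rw [← Measure.map_apply hm hE]
  exact congrArg (fun m : Measure (ℕ → Bool) => m E) h1

theorem mu_zer_one (k : ℕ) {E : Set (ℕ → Bool)} (hE : MeasurableSet E) :
    mu (zer {k} ⁻¹' E) = 2 * mu (E ∩ cy {k} (fun _ => false)) := by
  have hm : Measurable (flp k) :=
    measurable_pi_lambda _ fun i => (measurable_of_finite _).comp (measurable_pi_apply i)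
  have hF := hE.inter (meas_cy {k} (fun _ => false))
  have h1 : zer {k} ⁻¹' E =
      (E ∩ cy {k} (fun _ => false)) ∪ flp k ⁻¹' (E ∩ cy {k} (fun _ => false)) := by
    ext x
    have ha : x k = false → zer {k} x = x := fun h => by
      funext i
      by_cases hi : i = k <;> simp [zer, hi, h]
    have hb : x k = true → zer {k} x = flp k x := fun h => by
      funext i
      by_cases hi : i = k <;> simp [zer, flp, hi, h]
    cases h : x k
    · simp [cy, flp, h, ha h]
    · simp [cy, hb h, h]
      simp [flp, h]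
  have h2 : Disjoint (E ∩ cy {k} (fun _ => false)) (flp k ⁻¹' (E ∩ cy {k} (fun _ => false))) := by
    rw [Set.disjoint_left]
    rintro x ⟨-, hx⟩ ⟨-, hx'⟩
    have h3 := hx k (Finset.mem_singleton_self k)
    have h4 := hx' k (Finset.mem_singleton_self k)
    simp [flp, h3] at h4
  rw [h1, measure_union h2 (hm hF), mu_flp k hF, two_mul]

theorem mu_zer (B : Finset ℕ) : ∀ {E : Set (ℕ → Bool)}, MeasurableSet E →
    mu (zer B ⁻¹' E) = 2 ^ B.card * mu (E ∩ cy B (fun _ => false)) := by
  induction B using Finset.induction_on with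
  | empty =>
    intro E _
    have h1 : zer ∅ = id := by
      funext x i
      simp [zer]
    simp [h1, cy]
  | @insert k B hk ih =>
    intro E hE
    have h1 : zer (insert k B) ⁻¹' E = zer {k} ⁻¹' (zer B ⁻¹' E) := by
      ext x
      rw [Finset.insert_eq, Finset.union_comm]
      simp only [mem_preimage, zer_union]
    have h2 : zer B ⁻¹' E ∩ cy {k} (fun _ => false) = zer B ⁻¹' (E ∩ cy {k} (fun _ => false)) := by
      ext x
      simp [cy, zer, hk]
    have h3 : E ∩ cy {k} (fun _ => false) ∩ cy B (fun _ => false) =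
        E ∩ cy (insert k B) (fun _ => false) := by
      ext x
      simp [cy, and_assoc]
    rw [h1, mu_zer_one k (meas_zer B hE), h2, ih (hE.inter (meas_cy _ _)), h3,
      Finset.card_insert_of_notMem hk, pow_succ]
    ring

/-- Few of a family of disjoint blocks of size `j` are positively correlated with `E`. -/
theorem card_bad {j : ℕ} (B : ℕ → Finset ℕ) (hc : ∀ m, (B m).card = j)
    (hd : ∀ m m', m ≠ m' → Disjoint (B m) (B m')) {E : Set (ℕ → Bool)} (hE : MeasurableSet E)
    {η : ℝ} (hη : 0 < η) (M : Finset ℕ)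
    (hM : ∀ m ∈ M, mu.real E + η < mu.real (zer (B m) ⁻¹' E)) :
    (M.card : ℝ) * η ^ 2 ≤ 2 ^ j := by
  rcases M.eq_empty_or_nonempty with rfl | hne
  · simp
  set p : ℝ := 2⁻¹ ^ j with hp
  have hp0 : 0 < p := by positivity
  have hp1 : p * 2 ^ j = 1 := by
    rw [hp, ← mul_pow]
    norm_num
  set L : ℝ := (M.card : ℝ) with hL
  have hL0 : 0 < L := by
    rw [hL]
    exact_mod_cast hne.card_pos
  let G : ℕ → Set (ℕ → Bool) := fun m => cy (B m) (fun _ => false)
  have hG : ∀ m, MeasurableSet (G m) := fun m => meas_cy _ _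
  have hG1 : ∀ m, mu.real (G m) = p := fun m => by
    simp [Measure.real, G, mu_cy, hc, hp]
  have hG2 : ∀ m m', m ≠ m' → mu.real (G m ∩ G m') = p ^ 2 := fun m m' h => by
    have h1 : G m ∩ G m' = cy (B m ∪ B m') (fun _ => false) := by
      ext x
      simp [G, cy, or_imp, forall_and]
    rw [h1]
    simp [Measure.real, mu_cy, Finset.card_union_of_disjoint (hd m m' h), hc, hp, pow_add, sq]
  have hEG : ∀ m ∈ M, p * (mu.real E + η) ≤ mu.real (E ∩ G m) := fun m hm => by
    have h1 := hM m hm
    have h2 : mu.real (zer (B m) ⁻¹' E) = 2 ^ j * mu.real (E ∩ G m) := by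
      simp [Measure.real, mu_zer _ hE, hc, G]
    rw [h2] at h1
    calc p * (mu.real E + η) ≤ p * (2 ^ j * mu.real (E ∩ G m)) := by gcongr
      _ = mu.real (E ∩ G m) := by rw [← mul_assoc, hp1, one_mul]
  let ind : Set (ℕ → Bool) → (ℕ → Bool) → ℝ := fun S => S.indicator 1
  have hi : ∀ S, MeasurableSet S → Integrable (ind S) mu := fun S hS =>
    (integrable_const (1 : ℝ)).indicator hS
  have hi1 : ∀ S, MeasurableSet S → ∫ x, ind S x ∂mu = mu.real S := fun S hS =>
    integral_indicator_one hS
  have hi2 : ∀ S T x, ind (S ∩ T) x = ind S x * ind T x := fun S T x => by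
    by_cases h : x ∈ S <;> by_cases h' : x ∈ T <;> simp [ind, h, h']
  set c : ℝ := L * p * η / 2 with hcdef
  have hc0 : 0 < c := by positivity
  have hpt : ∀ x, 4 * c * (∑ m ∈ M, ind (E ∩ G m) x - L * p * ind E x) ≤
      (∑ m ∈ M, ∑ m' ∈ M, ind (G m ∩ G m') x - 2 * (L * p) * ∑ m ∈ M, ind (G m) x) +
        ((L * p) ^ 2 + 4 * c ^ 2) := by
    intro x
    simp only [hi2, ← Finset.mul_sum, ← Finset.sum_mul]
    set Y := ∑ m ∈ M, ind (G m) x
    by_cases h : x ∈ E
    · have : ind E x = 1 := by simp [ind, h]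
      rw [this]
      nlinarith [sq_nonneg (Y - L * p - 2 * c)]
    · have : ind E x = 0 := by simp [ind, h]
      rw [this]
      nlinarith [sq_nonneg (Y - L * p), sq_nonneg c]
  have i1 : Integrable (fun x => ∑ m ∈ M, ind (E ∩ G m) x) mu :=
    integrable_finsetSum _ fun m _ => hi _ (hE.inter (hG m))
  have i2 : Integrable (fun x => L * p * ind E x) mu := (hi _ hE).const_mul _
  have i3 : Integrable (fun x => ∑ m ∈ M, ∑ m' ∈ M, ind (G m ∩ G m') x) mu :=
    integrable_finsetSum _ fun m _ => integrable_finsetSum _ fun m' _ =>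
      hi _ ((hG m).inter (hG m'))
  have i4 : Integrable (fun x => 2 * (L * p) * ∑ m ∈ M, ind (G m) x) mu :=
    (integrable_finsetSum _ fun m _ => hi _ (hG m)).const_mul _
  have i5 : Integrable (fun x => ∑ m ∈ M, ∑ m' ∈ M, ind (G m ∩ G m') x -
      2 * (L * p) * ∑ m ∈ M, ind (G m) x) mu := i3.sub i4
  have key := integral_mono ((i1.sub i2).const_mul (4 * c))
    ((i3.sub i4).add (integrable_const ((L * p) ^ 2 + 4 * c ^ 2))) hpt
  simp only [Pi.sub_apply, Pi.add_apply] at key
  rw [integral_const_mul, integral_sub i1 i2, integral_add i5 (integrable_const _),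
    integral_sub i3 i4, integral_const_mul, integral_const_mul,
    integral_finsetSum _ (fun m _ => hi _ (hE.inter (hG m))),
    integral_finsetSum _ (fun m _ => integrable_finsetSum _ fun m' _ =>
      hi _ ((hG m).inter (hG m'))),
    integral_finsetSum _ (fun m _ => hi _ (hG m)), hi1 _ hE] at key
  have e1 : L * (p * (mu.real E + η)) ≤ ∑ m ∈ M, ∫ x, ind (E ∩ G m) x ∂mu := by
    rw [hL, ← nsmul_eq_mul, ← Finset.sum_const]
    exact Finset.sum_le_sum fun m hm => by rw [hi1 _ (hE.inter (hG m))]; exact hEG m hm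
  have e2 : ∑ m ∈ M, ∫ x, ind (G m) x ∂mu = L * p := by
    rw [hL, ← nsmul_eq_mul, ← Finset.sum_const]
    exact Finset.sum_congr rfl fun m _ => by rw [hi1 _ (hG m), hG1]
  have e3 : ∑ m ∈ M, ∫ x, ∑ m' ∈ M, ind (G m ∩ G m') x ∂mu ≤ L * (p + L * p ^ 2) := by
    rw [hL, ← nsmul_eq_mul, ← Finset.sum_const]
    refine Finset.sum_le_sum fun m hm => ?_
    rw [integral_finsetSum _ (fun m' _ => hi _ ((hG m).inter (hG m')))]
    calc ∑ m' ∈ M, ∫ x, ind (G m ∩ G m') x ∂mu
        ≤ ∑ m' ∈ M, ((if m = m' then p else 0) + p ^ 2) := by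
          refine Finset.sum_le_sum fun m' _ => ?_
          rw [hi1 _ ((hG m).inter (hG m'))]
          by_cases h : m = m'
          · rw [if_pos h, ← h, inter_self, hG1]
            nlinarith [sq_nonneg p]
          · rw [if_neg h, hG2 m m' h, zero_add]
      _ = p + (M.card : ℝ) * p ^ 2 := by
          rw [Finset.sum_add_distrib, Finset.sum_ite_eq, if_pos hm, Finset.sum_const, nsmul_eq_mul]
  rw [e2] at key
  simp only [integral_const, probReal_univ, smul_eq_mul, one_mul] at key
  have e4 : 4 * c * (L * p * η) ≤ L * p + 4 * c ^ 2 := by nlinarith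
  have e5 : (L * p) * (L * p * η ^ 2) ≤ (L * p) * 1 := by
    rw [hcdef] at e4
    nlinarith
  have e6 : L * p * η ^ 2 ≤ 1 := le_of_mul_le_mul_left e5 (by positivity)
  calc L * η ^ 2 = (L * p * η ^ 2) * 2 ^ j := by
        rw [show L * p * η ^ 2 * 2 ^ j = L * η ^ 2 * (p * 2 ^ j) by ring, hp1, mul_one]
    _ ≤ 1 * 2 ^ j := by gcongr
    _ = 2 ^ j := one_mul _

end Pool.Agent.Lib.MP_145df4_lc.Summ
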