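import Mathlib
import Pool.Agent.Lib.MP_145df4_lc.SummMeas

/-! Null sets `Nf f` that are covered by countably many null sets only if `f` is captured by
finitely many of the associated slaloms. -/

set_option autoImplicit false
set_option maxHeartbeats 400000
open Set Filter MeasureTheory ProbabilityTheory Topology
open scoped ENNReal

namespace Pool.Agent.Lib.MP_145df4_lc.Summ

/-- The `m`-th block of size `j`. -/
def blk (j m : ℕ) : Finset ℕ := (Finset.range j).image fun i => Nat.pair (Nat.pair j m) i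

theorem card_blk (j m : ℕ) : (blk j m).card = j := by
  rw [blk, Finset.card_image_of_injective _ (fun a b h => (Nat.pair_eq_pair.mp h).2),
    Finset.card_range]

theorem disj_blk (j m m' : ℕ) (h : m ≠ m') : Disjoint (blk j m) (blk j m') := by
  rw [Finset.disjoint_left]
  intro a h1 h2
  obtain ⟨i, -, rfl⟩ := Finset.mem_image.mp h1
  obtain ⟨i', -, h3⟩ := Finset.mem_image.mp h2
  exact h (Nat.pair_eq_pair.mp (Nat.pair_eq_pair.mp h3).1).2.symm

/-- Points that vanish on infinitely many of the blocks selected by `f`. -/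
def Nf (f : ℕ → ℕ) : Set (ℕ → Bool) :=
  {x | ∃ᶠ j in atTop, x ∈ cy (blk j (f j)) (fun _ => false)}

theorem mu_Nf (f : ℕ → ℕ) : mu (Nf f) = 0 := by
  apply measure_setOfPred_frequently_eq_zero
  simp only [ofPred_mem_eq, mu_cy, card_blk]
  rw [ENNReal.tsum_geometric]
  simp

theorem exists_cover : ∃ O : Set (ℕ → Bool) → ℕ → Set (ℕ → Bool), (∀ A i, IsOpen (O A i)) ∧
    ∀ A, mu A = 0 → ∀ i, A ⊆ O A i ∧ mu (O A i) ≤ 2⁻¹ ^ i := by
  have h : ∀ (A : Set (ℕ → Bool)) (i : ℕ), ∃ U, IsOpen U ∧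
      (mu A = 0 → A ⊆ U ∧ mu U ≤ 2⁻¹ ^ i) := by
    intro A i
    by_cases hA : mu A = 0
    · obtain ⟨U, h1, h2, h3⟩ := A.exists_isOpen_lt_of_lt (μ := mu) (2⁻¹ ^ i)
        (by rw [hA]; exact ENNReal.pow_pos (by simp) i)
      exact ⟨U, h2, fun _ => ⟨h1, h3.le⟩⟩
    · exact ⟨∅, isOpen_empty, fun h => absurd h hA⟩
  choose O h1 h2 using h
  exact ⟨O, h1, fun A hA i => h2 A i hA⟩

theorem exists_bad (j : ℕ) {E : Set (ℕ → Bool)} (hE : MeasurableSet E) :
    ∃ S : Finset ℕ, S.card ≤ 8 ^ j ∧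
      ∀ m ∉ S, mu.real (zer (blk j m) ⁻¹' E) ≤ mu.real E + 2⁻¹ ^ j := by
  set T : Set ℕ := {m | mu.real E + 2⁻¹ ^ j < mu.real (zer (blk j m) ⁻¹' E)} with hT
  have h1 : ∀ M : Finset ℕ, (M : Set ℕ) ⊆ T → M.card ≤ 8 ^ j := by
    intro M hM
    have h2 := card_bad (blk j) (card_blk j) (disj_blk j) hE (η := 2⁻¹ ^ j) (by positivity) M
      (fun m hm => hM hm)
    have h3 : ((2 : ℝ)⁻¹ ^ j) ^ 2 * 4 ^ j = 1 := by
      rw [← pow_mul, mul_comm j 2, pow_mul, ← mul_pow]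
      norm_num
    have h4 : (M.card : ℝ) ≤ 8 ^ j := by
      calc (M.card : ℝ) = M.card * ((2 : ℝ)⁻¹ ^ j) ^ 2 * 4 ^ j := by rw [mul_assoc, h3, mul_one]
        _ ≤ 2 ^ j * 4 ^ j := by gcongr
        _ = 8 ^ j := by rw [← mul_pow]; norm_num
    exact_mod_cast h4
  have h2 : T.Finite := by
    by_contra h
    obtain ⟨M, h3, h4⟩ := Set.Infinite.exists_subset_card_eq h (8 ^ j + 1)
    have := h1 M h3
    omega
  refine ⟨h2.toFinset, h1 _ (by simp), fun m hm => ?_⟩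
  rw [Finite.mem_toFinset, hT, mem_ofPred_eq, not_lt] at hm
  exact hm

theorem exists_slalom : ∃ S : Set (ℕ → Bool) → ℕ → Finset ℕ, (∀ A j, (S A j).card ≤ 16 ^ j) ∧
    ∀ (A : ℕ → Set (ℕ → Bool)) (f : ℕ → ℕ), (∀ n, mu (A n) = 0) → Nf f ⊆ ⋃ n, A n →
      ∃ N J, ∀ j ≥ J, ∃ n ≤ N, f j ∈ S (A n) j := by
  classical
  obtain ⟨O, hO1, hO2⟩ := exists_cover
  obtain ⟨e, he⟩ := exists_surjective_nat (Finset ℕ × ℕ)
  choose code hcode using he
  have hm : ∀ A (q : Finset ℕ × ℕ), MeasurableSet (zer q.1 ⁻¹' O A q.2) :=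
    fun A q => meas_zer _ (hO1 A q.2).measurableSet
  choose b hb1 hb2 using fun j A q => exists_bad j (hm A q)
  refine ⟨fun A j => (Finset.range (j + 1)).biUnion fun c => b j A (e c), fun A j => ?_, ?_⟩
  · calc _ ≤ (Finset.range (j + 1)).card * 8 ^ j :=
          Finset.card_biUnion_le_card_mul _ _ _ fun c _ => hb1 j A (e c)
      _ ≤ 2 ^ j * 8 ^ j := by
          rw [Finset.card_range]
          exact Nat.mul_le_mul_right _ Nat.lt_two_pow_self
      _ = 16 ^ j := (mul_pow 2 8 j).symm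
  intro A f hA hsub
  by_contra hcon
  push Not at hcon
  have hstep : ∀ (t : ℕ) (Z : Finset ℕ), ∃ j, t ≤ j ∧ ∀ n ≤ t, ∀ i ≤ Z.card + t,
      mu.real (zer (Z ∪ blk j (f j)) ⁻¹' O (A n) i) ≤ mu.real (zer Z ⁻¹' O (A n) i) + 2⁻¹ ^ t := by
    intro t Z
    obtain ⟨j, h1, h2⟩ := hcon t (max t ((Finset.range (Z.card + t + 1)).sup fun i => code (Z, i)))
    refine ⟨j, le_of_max_le_left h1, fun n hn i hi => ?_⟩
    have h3 : code (Z, i) ≤ j :=
      (Finset.le_sup (f := fun i => code (Z, i)) (Finset.mem_range.mpr (by omega))).trans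
        (le_of_max_le_right h1)
    have h4 : f j ∉ b j (A n) (Z, i) := fun h => h2 n hn (Finset.mem_biUnion.mpr
      ⟨code (Z, i), Finset.mem_range.mpr (by omega), by rw [hcode]; exact h⟩)
    have h5 := hb2 j (A n) (Z, i) (f j) h4
    have h6 : zer (Z ∪ blk j (f j)) ⁻¹' O (A n) i =
        zer (blk j (f j)) ⁻¹' (zer Z ⁻¹' O (A n) i) := by
      ext x
      simp only [mem_preimage, zer_union]
    rw [h6]
    refine h5.trans (add_le_add le_rfl ?_)
    exact pow_le_pow_of_le_one (by norm_num) (by norm_num) (le_of_max_le_left h1)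
  choose nx hnx1 hnx2 using hstep
  obtain ⟨Z, hZ⟩ : ∃ Z : ℕ → Finset ℕ,
      ∀ t, Z (t + 1) = Z t ∪ blk (nx t (Z t)) (f (nx t (Z t))) :=
    ⟨fun t => Nat.rec ∅ (fun t Z => Z ∪ blk (nx t Z) (f (nx t Z))) t, fun _ => rfl⟩
  have hmono : Monotone Z := monotone_nat_of_le_succ fun t => by
    rw [hZ]
    exact Finset.subset_union_left
  obtain ⟨Φ, hΦa, hΦb⟩ : ∃ Φ : (ℕ → Bool) → ℕ → Bool, (∀ x i, (∃ t, i ∈ Z t) → Φ x i = false) ∧
      ∀ x i, ¬ (∃ t, i ∈ Z t) → Φ x i = x i :=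
    ⟨fun x i => @ite _ (∃ t, i ∈ Z t) (Classical.propDecidable _) false (x i),
      fun x i h => if_pos h, fun x i h => if_neg h⟩
  have hΦ1 : ∀ x, Φ x ∈ Nf f := by
    intro x
    refine frequently_atTop.mpr fun t => ⟨nx t (Z t), hnx1 t (Z t), fun i hi => ?_⟩
    exact hΦa x i ⟨t + 1, by rw [hZ]; exact Finset.mem_union_right _ hi⟩
  have hΦ2 : ∀ x, Tendsto (fun t => zer (Z t) x) atTop (𝓝 (Φ x)) := by
    intro x
    refine tendsto_pi_nhds.mpr fun i => ?_
    apply (tendsto_const_nhds (x := Φ x i)).congr'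
    rcases Classical.em (∃ t, i ∈ Z t) with h | h
    · obtain ⟨t, ht⟩ := h
      filter_upwards [eventually_ge_atTop t] with s hs
      simp only [zer, if_pos (hmono hs ht), hΦa x i ⟨t, ht⟩]
    · refine Eventually.of_forall fun s => ?_
      simp only [zer, hΦb x i h, if_neg (fun hs : i ∈ Z s => h ⟨s, hs⟩)]
  have hb : ∀ n t₀, n ≤ t₀ → ∀ t ≥ t₀, mu.real (zer (Z t) ⁻¹' O (A n) ((Z t₀).card + t₀)) ≤
      3 * 2⁻¹ ^ t₀ - 2 * 2⁻¹ ^ t := by
    intro n t₀ hn t ht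
    induction t, ht using Nat.le_induction with
    | base =>
      have h1 : mu (zer (Z t₀) ⁻¹' O (A n) ((Z t₀).card + t₀)) ≤ 2⁻¹ ^ t₀ := by
        rw [mu_zer _ (hO1 _ _).measurableSet]
        calc _ ≤ 2 ^ (Z t₀).card * (2⁻¹ : ℝ≥0∞) ^ ((Z t₀).card + t₀) := by
              gcongr
              exact (measure_mono inter_subset_left).trans (hO2 _ (hA n) _).2
          _ = 2⁻¹ ^ t₀ := by
              rw [pow_add, ← mul_assoc, ← mul_pow, ENNReal.mul_inv_cancel (by simp) (by simp),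
                one_pow, one_mul]
      have h2 := ENNReal.toReal_mono (by simp) h1
      simp only [ENNReal.toReal_pow, ENNReal.toReal_inv, ENNReal.toReal_ofNat] at h2
      rw [Measure.real]
      linarith
    | succ t ht ih =>
      have h1 := hnx2 t (Z t) n (hn.trans ht) ((Z t₀).card + t₀)
        (add_le_add (Finset.card_le_card (hmono ht)) ht)
      rw [hZ, pow_succ]
      linarith
  have hz : ∀ n, mu (Φ ⁻¹' A n) = 0 := by
    intro n
    have h1 : ∀ t₀ ≥ n, mu.real (Φ ⁻¹' A n) ≤ 3 * 2⁻¹ ^ t₀ := by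
      intro t₀ ht₀
      let F : ℕ → Set (ℕ → Bool) := fun s =>
        {x | ∀ t ≥ s, zer (Z t) x ∈ O (A n) ((Z t₀).card + t₀)}
      have hF : Monotone F := fun s s' h x hx t ht => hx t (h.trans ht)
      have h2 : Φ ⁻¹' A n ⊆ ⋃ s, F s := by
        intro x hx
        obtain ⟨s, hs⟩ := eventually_atTop.mp
          ((hΦ2 x).eventually ((hO1 _ _).mem_nhds ((hO2 _ (hA n) ((Z t₀).card + t₀)).1 hx)))
        exact mem_iUnion.mpr ⟨s, hs⟩
      refine ENNReal.toReal_le_of_le_ofReal (by positivity) ((measure_mono h2).trans ?_)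
      rw [hF.measure_iUnion]
      refine iSup_le fun s => ?_
      have h3 : F s ⊆ zer (Z (max s t₀)) ⁻¹' O (A n) ((Z t₀).card + t₀) :=
        fun x hx => hx _ (le_max_left _ _)
      refine (measure_mono h3).trans ?_
      rw [← ofReal_measureReal (measure_ne_top mu _)]
      refine ENNReal.ofReal_le_ofReal ((hb n t₀ ht₀ _ (le_max_right _ _)).trans ?_)
      have : (0 : ℝ) ≤ 2⁻¹ ^ max s t₀ := by positivity
      linarith
    have h2 : Tendsto (fun t : ℕ => (3 : ℝ) * 2⁻¹ ^ t) atTop (𝓝 (3 * 0)) :=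
      (tendsto_pow_atTop_nhds_zero_of_lt_one (by norm_num) (by norm_num)).const_mul 3
    have h3 := ge_of_tendsto h2 (eventually_atTop.mpr ⟨n, h1⟩)
    rw [← measureReal_eq_zero_iff (measure_ne_top mu _)]
    exact le_antisymm (by simpa using h3) measureReal_nonneg
  have h4 : (univ : Set (ℕ → Bool)) ⊆ ⋃ n, Φ ⁻¹' A n := fun x _ => by
    obtain ⟨n, hn⟩ := mem_iUnion.mp (hsub (hΦ1 x))
    exact mem_iUnion.mpr ⟨n, hn⟩
  have h5 := measure_mono_null h4 (measure_iUnion_null hz)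
  simp at h5

end Pool.Agent.Lib.MP_145df4_lc.Summ
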