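import Mathlib
import Pool.Agent.Lib.MP_145df4_lc.SummKey
import Pool.Agent.Lib.MP_145df4_lc.SummChain

/-! Chains for the null ideal and chains for the summable ideal can be turned into each other. -/

set_option autoImplicit false
set_option maxHeartbeats 400000
open Set Filter MeasureTheory ProbabilityTheory Topology
open scoped ENNReal

namespace Pool.Agent.Lib.MP_145df4_lc.Summ

/-- The weight `1 / (n + 1)`. -/
noncomputable def wt (n : ℕ) : ℝ≥0∞ := ENNReal.ofReal (1 / (n + 1))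

/-- The weighted counting measure. -/
noncomputable def nu : Measure ℕ := Measure.sum fun n => wt n • Measure.dirac n

theorem nu_apply (T : Set ℕ) : nu T = ∑' n, T.indicator wt n := by
  rw [nu, Measure.sum_apply _ (MeasurableSet.of_discrete)]
  refine tsum_congr fun n => ?_
  by_cases h : n ∈ T <;> simp [h]

theorem nu_single (n : ℕ) : nu {n} = wt n := by
  rw [nu_apply, tsum_eq_single n (fun m hm => by simp [hm])]
  simp

/-- The summable ideal. -/
def SI : Set (Set ℕ) := {T | Summable (T.indicator fun n => (1 : ℝ) / (n + 1))}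

theorem mem_SI {T : Set ℕ} : T ∈ SI ↔ nu T ≠ ∞ := by
  have h0 : ∀ n, 0 ≤ T.indicator (fun n : ℕ => (1 : ℝ) / (n + 1)) n := fun n =>
    indicator_nonneg (fun m _ => by positivity) n
  have h1 : ∀ n, T.indicator wt n =
      ENNReal.ofReal (T.indicator (fun n : ℕ => (1 : ℝ) / (n + 1)) n) := fun n => by
    by_cases h : n ∈ T <;> simp [h, wt]
  rw [nu_apply]
  simp only [h1]
  constructor
  · intro h
    rw [← ENNReal.ofReal_tsum_of_nonneg h0 h]
    exact ENNReal.ofReal_ne_top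
  · intro h
    have := ENNReal.summable_toReal h
    simp only [ENNReal.toReal_ofReal (h0 _)] at this
    exact this

theorem nu_finite {T : Set ℕ} (h : T.Finite) : nu T ≠ ∞ := by
  induction T, h using Set.Finite.induction_on with
  | empty => simp
  | @insert a s _ _ ih =>
    rw [insert_eq]
    refine ne_top_of_le_ne_top ?_ (measure_union_le _ _)
    rw [nu_single]
    exact ENNReal.add_ne_top.mpr ⟨ENNReal.ofReal_ne_top, ih⟩

theorem isNatIdeal_SI : IsNatIdeal SI := by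
  refine ⟨fun T h => mem_SI.mpr (nu_finite h), fun A hA B h => mem_SI.mpr
    (ne_top_of_le_ne_top (mem_SI.mp hA) (measure_mono h)), fun A hA B hB => mem_SI.mpr ?_⟩
  exact ne_top_of_le_ne_top (ENNReal.add_ne_top.mpr ⟨mem_SI.mp hA, mem_SI.mp hB⟩)
    (measure_union_le _ _)

theorem geo_ne_top : ∑' j : ℕ, (2⁻¹ : ℝ≥0∞) ^ j ≠ ∞ := by
  rw [ENNReal.tsum_geometric]
  simp

theorem wt_le {k n : ℕ} (h : 2 ^ k ≤ n + 1) : wt n ≤ 2⁻¹ ^ k := by
  have h1 : (2⁻¹ : ℝ≥0∞) ^ k = ENNReal.ofReal (1 / 2 ^ k) := by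
    rw [ENNReal.ofReal_div_of_pos (by positivity), ENNReal.ofReal_pow (by norm_num)]
    simp [ENNReal.inv_pow]
  rw [h1]
  refine ENNReal.ofReal_le_ofReal (one_div_le_one_div_of_le (by positivity) ?_)
  exact_mod_cast h

theorem le_wt {k n : ℕ} (h : n + 1 ≤ 2 ^ k) : 2⁻¹ ^ k ≤ wt n := by
  have h1 : (2⁻¹ : ℝ≥0∞) ^ k = ENNReal.ofReal (1 / 2 ^ k) := by
    rw [ENNReal.ofReal_div_of_pos (by positivity), ENNReal.ofReal_pow (by norm_num)]
    simp [ENNReal.inv_pow]
  rw [h1]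
  refine ENNReal.ofReal_le_ofReal (one_div_le_one_div_of_le (by positivity) ?_)
  exact_mod_cast h

theorem SI_not_principal : ∀ T ∈ SI, ∃ T' ∈ SI, (T' \ T).Infinite := by
  intro T hT
  have h1 : Tᶜ.Infinite := by
    intro h
    have h2 := isNatIdeal_SI.2.2 _ hT _ (isNatIdeal_SI.1 _ h)
    rw [union_compl_self] at h2
    have h3 : Summable fun n : ℕ => (1 : ℝ) / (n + 1) := by simpa [SI] using h2
    apply Real.not_summable_one_div_natCast
    rw [← summable_nat_add_iff 1]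
    simpa using h3
  choose g hg1 hg2 using fun j => h1.exists_gt (2 ^ j)
  refine ⟨range g, mem_SI.mpr ?_, ?_⟩
  · rw [← iUnion_singleton_eq_range]
    refine ne_top_of_le_ne_top geo_ne_top ((measure_iUnion_le _).trans
      (ENNReal.tsum_le_tsum fun j => ?_))
    rw [nu_single]
    exact wt_le (by have := hg2 j; omega)
  · refine Set.infinite_of_forall_exists_gt fun j => ⟨g j, ⟨⟨j, rfl⟩, hg1 j⟩, ?_⟩
    exact Nat.lt_two_pow_self.trans (hg2 j)

/-- From a chain for the summable ideal to a chain for the null ideal. -/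
theorem null_of_nat {γ : Ordinal.{0}} (h : IsNatChainLength SI γ) :
    ∃ δ ≤ γ, IsChainLength {A : Set (ℕ → Bool) | mu A = 0} δ := by
  obtain ⟨hlim, D, hD, hmono, hcov⟩ := h
  obtain ⟨S, hS1, hS2⟩ := exists_slalom
  obtain ⟨d, hd⟩ := exists_surjective_nat (Finset ℕ)
  let TA : Set (ℕ → Bool) → Set ℕ := fun A =>
    ⋃ j, ⋃ m ∈ S A j, {n | nu (d m) ≤ 32⁻¹ ^ j ∧ n ∈ d m}
  have hTA : ∀ A, TA A ∈ SI := by
    intro A
    refine mem_SI.mpr (ne_top_of_le_ne_top geo_ne_top ((measure_iUnion_le _).trans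
      (ENNReal.tsum_le_tsum fun j => (measure_biUnion_finset_le _ _).trans ?_)))
    calc _ ≤ (S A j).card • (32⁻¹ : ℝ≥0∞) ^ j := by
          refine Finset.sum_le_card_nsmul _ _ _ fun m _ => ?_
          by_cases hm : nu (d m) ≤ 32⁻¹ ^ j
          · exact (measure_mono fun n hn => hn.2).trans hm
          · simp [hm]
      _ ≤ 16 ^ j * (32⁻¹ : ℝ≥0∞) ^ j := by
          rw [nsmul_eq_mul]
          gcongr
          exact_mod_cast hS1 A j
      _ = 2⁻¹ ^ j := by
          rw [← mul_pow]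
          congr 1
          rw [show (32 : ℝ≥0∞) = 16 * 2 by norm_num, ENNReal.mul_inv (by simp) (by simp),
            ← mul_assoc, ENNReal.mul_inv_cancel (by simp) (by simp), one_mul]
  let J : Ordinal.{0} → Set (Set (ℕ → Bool)) := fun α =>
    {A | ∃ T : Set (Set (ℕ → Bool)), (∀ C ∈ T, mu C = 0 ∧ TA C ∈ D α) ∧ T.Countable ∧ A ⊆ ⋃₀ T}
  refine chain_extract IsSigmaIdeal _ γ J ?_ ?_ ?_ ?_ ⟨∅, measure_empty⟩
  · intro α _
    refine ⟨?_, ?_⟩
    · rintro A ⟨T, h1, h2, h3⟩ A' hA'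
      exact ⟨T, h1, h2, hA'.trans h3⟩
    · intro U hU hUc
      have hch : ∀ A : U, ∃ T : Set (Set (ℕ → Bool)), (∀ C ∈ T, mu C = 0 ∧ TA C ∈ D α) ∧
          T.Countable ∧ (A : Set (ℕ → Bool)) ⊆ ⋃₀ T := fun A => hU A.2
      choose T h1 h2 h3 using hch
      have := hUc.to_subtype
      refine ⟨⋃ A, T A, ?_, countable_iUnion h2, ?_⟩
      · intro C hC
        obtain ⟨A, hA⟩ := mem_iUnion.mp hC
        exact h1 A C hA
      · rintro x ⟨A, hA, hx⟩
        obtain ⟨C, hC, hxC⟩ := h3 ⟨A, hA⟩ hx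
        exact ⟨C, mem_iUnion.mpr ⟨⟨A, hA⟩, hC⟩, hxC⟩
  · rintro α β h1 h2 A ⟨T, h3, h4, h5⟩
    exact ⟨T, fun C hC => ⟨(h3 C hC).1, (hmono α β h1 h2).subset (h3 C hC).2⟩, h4, h5⟩
  · apply Subset.antisymm
    · intro A hA
      obtain ⟨α, hα, h1⟩ := mem_iUnion₂.mp (hcov ▸ hTA A)
      exact mem_biUnion hα ⟨{A}, by rintro _ rfl; exact ⟨hA, h1⟩, countable_singleton _, by simp⟩
    · refine iUnion₂_subset ?_
      rintro α - A ⟨T, h1, h2, h3⟩
      exact measure_mono_null h3 ((measure_sUnion_null_iff h2).mpr fun C hC => (h1 C hC).1)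
  · intro α hα heq
    obtain ⟨T, hT1, hT2⟩ := exists_of_ssubset (hmono α _ (Order.lt_succ α) (hlim.succ_lt hα))
    have hT : nu T ≠ ∞ := mem_SI.mp (hcov ▸ mem_biUnion (hlim.succ_lt hα) hT1)
    have htail : Tendsto (fun n => nu (T ∩ Ici n)) atTop (𝓝 0) := by
      have h1 := tendsto_measure_iInter_atTop (μ := nu) (s := fun n : ℕ => T ∩ Ici n)
        (fun n => MeasurableSet.of_discrete.nullMeasurableSet)
        (fun a b hab => inter_subset_inter_right _ (Ici_subset_Ici.mpr hab))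
        ⟨0, ne_top_of_le_ne_top hT (measure_mono inter_subset_left)⟩
      have h2 : ⋂ n : ℕ, T ∩ Ici n = ∅ := by
        refine eq_empty_of_forall_notMem fun x hx => ?_
        have := (mem_iInter.mp hx (x + 1)).2
        simp at this
      rw [h2, measure_empty] at h1
      exact h1
    have hn : ∀ j : ℕ, ∃ n, j ≤ n ∧ nu (T ∩ Ici n) ≤ 32⁻¹ ^ j := fun j =>
      ((eventually_ge_atTop j).and (htail.eventually
        (eventually_le_nhds (ENNReal.pow_pos (by simp) j)))).exists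
    choose n hn1 hn2 using hn
    classical
    choose f hf using fun j => hd ((Finset.Ico (n j) (n (j + 1))).filter (· ∈ T))
    have hN : Nf f ∈ J α := heq ▸ mu_Nf f
    obtain ⟨U, h1, h2, h3⟩ := hN
    rcases U.eq_empty_or_nonempty with rfl | hU
    · have h4 : (fun _ => false) ∈ Nf f := Frequently.of_forall fun j i _ => rfl
      simpa using h3 h4
    obtain ⟨A, rfl⟩ := h2.exists_eq_range hU
    obtain ⟨N, K, h4⟩ := hS2 A f (fun k => (h1 _ ⟨k, rfl⟩).1) (by simpa using h3)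
    have h5 : ∀ N : ℕ, Iio (n K) ∪ ⋃ k ∈ Iic N, TA (A k) ∈ D α := by
      intro N
      induction N with
      | zero =>
        simpa using (hD α hα).2.2 _ ((hD α hα).1 _ (finite_Iio (n K))) _ (h1 _ ⟨0, rfl⟩).2
      | succ N ih =>
        refine (hD α hα).2.1 _ ((hD α hα).2.2 _ ih _ (h1 _ ⟨N + 1, rfl⟩).2) _ ?_
        rintro x (hx | hx)
        · exact Or.inl (Or.inl hx)
        · obtain ⟨k, hk, hx⟩ := mem_iUnion₂.mp hx
          rcases Nat.of_le_succ hk with hk | rfl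
          · exact Or.inl (Or.inr (mem_biUnion hk hx))
          · exact Or.inr hx
    refine hT2 ((hD α hα).2.1 _ (h5 N) _ fun x hx => ?_)
    by_cases hxK : x < n K
    · exact Or.inl hxK
    have hex : ∃ j, K ≤ j ∧ n j ≤ x ∧ x < n (j + 1) := by
      by_contra hcon
      push Not at hcon
      have h6 : ∀ j ≥ K, n j ≤ x := fun j hj => by
        induction j, hj using Nat.le_induction with
        | base => exact not_lt.mp hxK
        | succ j hj ih => exact hcon j hj ih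
      have h7 := h6 (K + x + 1) (by omega)
      have h8 := hn1 (K + x + 1)
      omega
    obtain ⟨j, hj1, hj2, hj3⟩ := hex
    obtain ⟨k, hk, h6⟩ := h4 j hj1
    refine Or.inr (mem_biUnion (show k ∈ Iic N from hk) (mem_iUnion.mpr ⟨j, mem_biUnion h6 ?_⟩))
    refine ⟨(measure_mono ?_).trans (hn2 j), ?_⟩
    · rw [hf]
      intro y hy
      simp only [Finset.coe_filter, Finset.mem_Ico, mem_ofPred_eq] at hy
      exact ⟨hy.2, hy.1.1⟩
    · rw [hf]
      exact Finset.mem_filter.mpr ⟨Finset.mem_Ico.mpr ⟨hj2, hj3⟩, hx⟩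

/-- A code of the first `k` coordinates. -/
def cd (x : ℕ → Bool) : ℕ → ℕ
  | 0 => 1
  | k + 1 => 2 * cd x k + (x k).toNat

theorem cd_bd (x : ℕ → Bool) (k : ℕ) : 2 ^ k ≤ cd x k ∧ cd x k + 1 ≤ 2 ^ (k + 1) := by
  induction k with
  | zero => simp [cd]
  | succ k ih =>
    have := Bool.toNat_le (x k)
    simp only [cd, pow_succ] at ih ⊢
    omega

theorem cd_len {x y : ℕ → Bool} {k l : ℕ} (h : cd x k = cd y l) : k = l := by
  have h1 := cd_bd x k
  have h2 := cd_bd y l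
  have h3 : 2 ^ k < 2 ^ (l + 1) := by omega
  have h4 : 2 ^ l < 2 ^ (k + 1) := by omega
  have h5 := (Nat.pow_lt_pow_iff_right (by norm_num)).mp h3
  have h6 := (Nat.pow_lt_pow_iff_right (by norm_num)).mp h4
  omega

theorem cd_eq (x y : ℕ → Bool) (k : ℕ) : cd y k = cd x k ↔ y ∈ cy (Finset.range k) x := by
  induction k with
  | zero => simp [cd, cy]
  | succ k ih =>
    have h1 : y ∈ cy (Finset.range (k + 1)) x ↔ y k = x k ∧ y ∈ cy (Finset.range k) x := by
      simp [cy, Finset.range_add_one]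
    rw [h1, ← ih]
    simp only [cd]
    cases x k <;> cases y k <;> simp <;> omega

/-- The cylinder with code `n`. -/
def En (n : ℕ) : Set (ℕ → Bool) := {y | ∃ k, cd y k = n}

theorem En_cd (x : ℕ → Bool) (k : ℕ) : En (cd x k) = cy (Finset.range k) x := by
  ext y
  rw [← cd_eq]
  exact ⟨fun ⟨l, h⟩ => cd_len h ▸ h, fun h => ⟨k, h⟩⟩

theorem mu_En (n : ℕ) : mu (En n) ≤ 2 * wt n := by
  rcases (En n).eq_empty_or_nonempty with h | ⟨x, k, rfl⟩
  · simp [h]
  · rw [En_cd, mu_cy, Finset.card_range]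
    calc (2⁻¹ : ℝ≥0∞) ^ k = 2 * 2⁻¹ ^ (k + 1) := by
          rw [pow_succ', ← mul_assoc, ENNReal.mul_inv_cancel (by simp) (by simp), one_mul]
      _ ≤ _ := by
          gcongr
          exact le_wt (cd_bd x k).2

/-- Points in infinitely many cylinders coded in `T`. -/
def NT (T : Set ℕ) : Set (ℕ → Bool) := {x | ∃ᶠ n in atTop, n ∈ T ∧ x ∈ En n}

theorem mu_NT {T : Set ℕ} (hT : T ∈ SI) : mu (NT T) = 0 := by
  apply measure_setOfPred_frequently_eq_zero
  refine ne_top_of_le_ne_top (ENNReal.mul_ne_top (a := 2) (by simp) (mem_SI.mp hT)) ?_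
  rw [nu_apply, ← ENNReal.tsum_mul_left]
  refine ENNReal.tsum_le_tsum fun n => ?_
  by_cases h : n ∈ T
  · simpa [h] using mu_En n
  · simp [h]

theorem exists_NT {A : Set (ℕ → Bool)} (hA : mu A = 0) : ∃ T ∈ SI, A ⊆ NT T := by
  obtain ⟨O, hO1, hO2⟩ := exists_cover
  let T : ℕ → Set ℕ := fun i => {n | ∃ x k, n = cd x k ∧ i ≤ k ∧ cy (Finset.range k) x ⊆ O A i ∧
    ∀ l, i ≤ l → l < k → ¬ cy (Finset.range l) x ⊆ O A i}
  have hT : ∀ i, nu (T i) ≤ 2⁻¹ ^ i := by
    intro i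
    have hlt : ∀ {x y z : ℕ → Bool} {k l : ℕ}, z ∈ cy (Finset.range k) x →
        z ∈ cy (Finset.range l) y → k ≤ l → cy (Finset.range k) y = cy (Finset.range k) x := by
      intro x y z k l h1 h2 h3
      rw [← En_cd, ← En_cd, ← (cd_eq x z k).mpr h1,
        ← (cd_eq y z k).mpr fun i hi => h2 i (Finset.range_mono h3 hi)]
    have hd : (T i).PairwiseDisjoint En := by
      rintro _ ⟨x, k, rfl, h1, h2, h3⟩ _ ⟨y, l, rfl, h4, h5, h6⟩ hne
      rw [Function.onFun, En_cd, En_cd, Set.disjoint_left]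
      intro z hz hz'
      rcases lt_trichotomy k l with h | rfl | h
      · exact h6 k h1 h (hlt hz hz' h.le ▸ h2)
      · exact hne (((cd_eq x z k).mpr hz).symm.trans ((cd_eq y z k).mpr hz'))
      · exact h3 l h4 h (hlt hz' hz h.le ▸ h5)
    have hm : ∀ n ∈ T i, MeasurableSet (En n) := by
      rintro _ ⟨x, k, rfl, -⟩
      rw [En_cd]
      exact meas_cy _ _
    calc nu (T i) = ∑' n : T i, wt n := by rw [nu_apply, tsum_subtype]
      _ ≤ ∑' n : T i, mu (En n) := by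
          refine ENNReal.tsum_le_tsum ?_
          rintro ⟨_, x, k, rfl, -⟩
          rw [En_cd, mu_cy, Finset.card_range]
          exact wt_le ((cd_bd x k).1.trans (Nat.le_succ _))
      _ = mu (⋃ n ∈ T i, En n) := (measure_biUnion (to_countable _) hd hm).symm
      _ ≤ mu (O A i) := by
          refine measure_mono (iUnion₂_subset ?_)
          rintro _ ⟨x, k, rfl, -, h, -⟩
          rwa [En_cd]
      _ ≤ _ := (hO2 A hA i).2
  refine ⟨⋃ i, T i, mem_SI.mpr (ne_top_of_le_ne_top geo_ne_top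
    ((measure_iUnion_le _).trans (ENNReal.tsum_le_tsum hT))), fun x hx => ?_⟩
  refine frequently_atTop.mpr fun i => ?_
  have hex : ∃ k, i ≤ k ∧ cy (Finset.range k) x ⊆ O A i := by
    obtain ⟨v, ⟨y, n, rfl⟩, h1, h2⟩ :=
      (PiNat.isTopologicalBasis_cylinders (fun _ : ℕ => Bool)).exists_subset_of_mem_open
        ((hO2 A hA i).1 hx) (hO1 A i)
    refine ⟨max i n, le_max_left _ _, fun z hz => h2 ?_⟩
    rw [PiNat.mem_cylinder_iff] at h1 ⊢
    intro j hj
    rw [hz j (Finset.mem_range.mpr (hj.trans_le (le_max_right _ _))), h1 j hj]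
  classical
  refine ⟨cd x (Nat.find hex), ?_, mem_iUnion.mpr ⟨i, x, _, rfl, (Nat.find_spec hex).1,
    (Nat.find_spec hex).2, fun l h1 h2 h3 => Nat.find_min hex h2 ⟨h1, h3⟩⟩, _, rfl⟩
  exact (Nat.find_spec hex).1.trans (Nat.lt_two_pow_self.le.trans (cd_bd x _).1)

/-- From a chain for the null ideal to a chain for the summable ideal. -/
theorem nat_of_null {γ : Ordinal.{0}} (h : IsChainLength {A : Set (ℕ → Bool) | mu A = 0} γ) :
    ∃ δ ≤ γ, IsNatChainLength SI δ := by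
  obtain ⟨hlim, I, hI, hmono, hcov⟩ := h
  refine chain_extract IsNatIdeal SI γ (fun α => {T | T ∈ SI ∧ NT T ∈ I α}) ?_ ?_ ?_ ?_
    ⟨∅, isNatIdeal_SI.1 _ finite_empty⟩
  · intro α hα
    refine ⟨fun T hT => ⟨isNatIdeal_SI.1 T hT, ?_⟩, fun A hA B h => ⟨isNatIdeal_SI.2.1 A hA.1 B h,
      (hI α hα).1 _ hA.2 _ fun x hx => Frequently.mono hx fun n hn => ⟨h hn.1, hn.2⟩⟩,
      fun A hA B hB => ⟨isNatIdeal_SI.2.2 A hA.1 B hB.1, ?_⟩⟩
    · refine (hI α hα).1 _ ((hI α hα).2 ∅ (empty_subset _) countable_empty) _ fun x hx => ?_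
      exact absurd (Nat.frequently_atTop_iff_infinite.mp (Frequently.mono hx fun n hn => hn.1))
        (not_infinite.mpr hT)
    · refine (hI α hα).1 _ ((hI α hα).2 {NT A, NT B}
        (by rintro _ (rfl | rfl); exacts [hA.2, hB.2]) (by simp)) _ fun x hx => ?_
      have h1 : ∃ᶠ n in atTop, (n ∈ A ∧ x ∈ En n) ∨ (n ∈ B ∧ x ∈ En n) :=
        Frequently.mono hx fun n hn => or_and_right.mp hn
      rw [sUnion_pair]
      exact frequently_or_distrib.mp h1
  · intro α β h1 h2 T hT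
    exact ⟨hT.1, (hmono α β h1 h2).subset hT.2⟩
  · apply Subset.antisymm
    · intro T hT
      have h1 : NT T ∈ ⋃ α ∈ Iio γ, I α := hcov ▸ mu_NT hT
      obtain ⟨α, hα, h2⟩ := mem_iUnion₂.mp h1
      exact mem_biUnion hα ⟨hT, h2⟩
    · exact iUnion₂_subset fun α _ T hT => hT.1
  · intro α hα heq
    obtain ⟨A, h1, h2⟩ := exists_of_ssubset (hmono α _ (Order.lt_succ α) (hlim.succ_lt hα))
    have h3 : A ∈ {A : Set (ℕ → Bool) | mu A = 0} := hcov ▸ mem_biUnion (hlim.succ_lt hα) h1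
    obtain ⟨T, h4, h5⟩ := exists_NT h3
    rw [← heq] at h4
    exact h2 ((hI α hα).1 _ h4.2 _ h5)

theorem cofin_null_eq : ∃ γ : Ordinal.{0},
    IsLeast {δ | IsChainLength {A : Set (ℕ → Bool) | mu A = 0} δ} γ ∧
      IsLeast {δ | IsNatChainLength SI δ} γ := by
  have hne : {δ | IsNatChainLength SI δ}.Nonempty := exists_natChain isNatIdeal_SI SI_not_principal
  have h1 := csInf_mem hne
  have h2 : ∀ δ, IsNatChainLength SI δ → sInf {δ | IsNatChainLength SI δ} ≤ δ :=
    fun δ h => csInf_le' h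
  have h3 : ∀ δ, IsChainLength {A : Set (ℕ → Bool) | mu A = 0} δ →
      sInf {δ | IsNatChainLength SI δ} ≤ δ := fun δ h => by
    obtain ⟨ε, h4, h5⟩ := nat_of_null h
    exact (h2 ε h5).trans h4
  obtain ⟨δ, h4, h5⟩ := null_of_nat h1
  exact ⟨_, ⟨le_antisymm h4 (h3 δ h5) ▸ h5, h3⟩, h1, h2⟩

end Pool.Agent.Lib.MP_145df4_lc.Summ
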