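import Mathlib
import Pool.Agent.Lib.MP_145df4_lc.SummMain

/-! A chain of non-dominating families closed under maxima gives a chain for the null ideal. -/

set_option autoImplicit false
set_option maxHeartbeats 400000
open Set Filter MeasureTheory ProbabilityTheory Topology
open scoped ENNReal

namespace Pool.Agent.Lib.MP_145df4_lc.Summ

theorem tail_small {T : Set ℕ} (hT : T ∈ SI) {ε : ℝ≥0∞} (hε : 0 < ε) :
    ∃ n, nu (T ∩ Ici n) ≤ ε := by
  have h1 := tendsto_measure_iInter_atTop (μ := nu) (s := fun n : ℕ => T ∩ Ici n)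
    (fun n => MeasurableSet.of_discrete.nullMeasurableSet)
    (fun a b hab => inter_subset_inter_right _ (Ici_subset_Ici.mpr hab))
    ⟨0, ne_top_of_le_ne_top (mem_SI.mp hT) (measure_mono inter_subset_left)⟩
  have h2 : ⋂ n : ℕ, T ∩ Ici n = ∅ := by
    refine eq_empty_of_forall_notMem fun x hx => ?_
    have := (mem_iInter.mp hx (x + 1)).2
    simp at this
  rw [h2, measure_empty] at h1
  exact (h1.eventually (eventually_le_nhds hε)).exists

theorem nu_finset (s : Finset ℕ) : nu s = ∑ n ∈ s, wt n := by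
  rw [← sum_measure_singleton]
  simp only [nu_single]

theorem exists_piece (k a : ℕ) : ∃ P : Set ℕ, P ⊆ Ici a ∧ nu P ≤ 2⁻¹ ^ k ∧ 2⁻¹ ^ (k + 1) ≤ nu P := by
  have h2 : (2 : ℝ≥0∞) ^ a * 2⁻¹ ^ a = 1 := by
    rw [← mul_pow, ENNReal.mul_inv_cancel (by simp) (by simp), one_pow]
  have hc : (Finset.Ico (2 ^ (a + k)) (2 ^ (a + k) + 2 ^ a)).card = 2 ^ a := by simp
  have h3 : 2 ^ a ≤ 2 ^ (a + k) := Nat.pow_le_pow_right (by norm_num) (Nat.le_add_right _ _)
  refine ⟨(Finset.Ico (2 ^ (a + k)) (2 ^ (a + k) + 2 ^ a) : Finset ℕ), fun n hn => ?_, ?_, ?_⟩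
  · exact (Nat.lt_two_pow_self.le.trans h3).trans (Finset.mem_Ico.mp hn).1
  · rw [nu_finset]
    refine (Finset.sum_le_card_nsmul _ _ (2⁻¹ ^ (a + k)) fun n hn =>
      wt_le ((Finset.mem_Ico.mp hn).1.trans (Nat.le_succ _))).trans (le_of_eq ?_)
    rw [hc, nsmul_eq_mul, pow_add, ← mul_assoc]
    push_cast
    rw [h2, one_mul]
  · rw [nu_finset]
    refine (le_of_eq ?_).trans (Finset.card_nsmul_le_sum _ _ (2⁻¹ ^ (a + (k + 1))) fun n hn =>
      le_wt ?_)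
    · rw [hc, nsmul_eq_mul, pow_add _ a, ← mul_assoc]
      push_cast
      rw [h2, one_mul]
    · have := (Finset.mem_Ico.mp hn).2
      rw [← add_assoc, pow_succ]
      omega

theorem null_of_dom (γ : Ordinal.{0}) (X : Ordinal.{0} → Set (ℕ → ℕ))
    (hm : ∀ α β, α < β → β < γ → X α ⊆ X β)
    (hmax : ∀ α < γ, ∀ f ∈ X α, ∀ g ∈ X α, (fun n => max (f n) (g n)) ∈ X α)
    (hnd : ∀ α < γ, ∃ f : ℕ → ℕ, ∀ g ∈ X α, ¬ ∀ᶠ n in atTop, f n ≤ g n)
    (hd : ∀ f : ℕ → ℕ, ∃ α < γ, ∃ g ∈ X α, ∀ᶠ n in atTop, f n ≤ g n) :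
    ∃ δ ≤ γ, IsChainLength {A : Set (ℕ → Bool) | mu A = 0} δ := by
  let Q : Set ℕ → (ℕ → ℕ) → Prop := fun T g =>
    Tendsto (fun k => 2 ^ k * nu (T ∩ Ici (g k))) atTop (𝓝 0)
  have hQ : ∀ {T T' : Set ℕ} {g g' : ℕ → ℕ}, Q T g → (∀ᶠ k in atTop,
      nu (T' ∩ Ici (g' k)) ≤ nu (T ∩ Ici (g k))) → Q T' g' := by
    intro T T' g g' h1 h2
    refine tendsto_of_tendsto_of_tendsto_of_le_of_le' tendsto_const_nhds h1
      (Eventually.of_forall fun k => zero_le) ?_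
    filter_upwards [h2] with k hk
    gcongr
  let D : Ordinal.{0} → Set (Set ℕ) := fun α =>
    {T | T ∈ SI ∧ ∃ F : Set ℕ, F.Finite ∧ (T ⊆ F ∨ ∃ g ∈ X α, Q (T \ F) g)}
  obtain ⟨δ, h1, h2⟩ := chain_extract IsNatIdeal SI γ D (by
    intro α hα
    refine ⟨fun T hT => ⟨isNatIdeal_SI.1 T hT, T, hT, Or.inl Subset.rfl⟩, ?_, ?_⟩
    · rintro A ⟨h1, F, h2, h3⟩ B hB
      refine ⟨isNatIdeal_SI.2.1 A h1 B hB, F, h2, h3.imp hB.trans ?_⟩
      rintro ⟨g, h4, h5⟩
      exact ⟨g, h4, hQ h5 (Eventually.of_forall fun k =>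
        measure_mono (inter_subset_inter_left _ (sdiff_subset_sdiff_left hB)))⟩
    · rintro A ⟨h1, F, h2, h3⟩ B ⟨h4, F', h5, h6⟩
      refine ⟨isNatIdeal_SI.2.2 A h1 B h4, F ∪ F', h2.union h5, ?_⟩
      rcases h3 with h3 | ⟨g, h3, h7⟩ <;> rcases h6 with h6 | ⟨g', h6, h8⟩
      · exact Or.inl (union_subset_union h3 h6)
      · refine Or.inr ⟨g', h6, hQ h8 (Eventually.of_forall fun k => measure_mono ?_)⟩
        rintro x ⟨⟨hx | hx, hx'⟩, hx''⟩
        · exact absurd (Or.inl (h3 hx)) hx'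
        · exact ⟨⟨hx, fun h => hx' (Or.inr h)⟩, hx''⟩
      · refine Or.inr ⟨g, h3, hQ h7 (Eventually.of_forall fun k => measure_mono ?_)⟩
        rintro x ⟨⟨hx | hx, hx'⟩, hx''⟩
        · exact ⟨⟨hx, fun h => hx' (Or.inl h)⟩, hx''⟩
        · exact absurd (Or.inr (h6 hx)) hx'
      · refine Or.inr ⟨_, hmax α hα g h3 g' h6, ?_⟩
        have h9 := Tendsto.add h7 h8
        rw [add_zero] at h9
        refine tendsto_of_tendsto_of_tendsto_of_le_of_le tendsto_const_nhds h9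
          (fun k => zero_le) fun k => ?_
        dsimp only
        rw [← mul_add]
        gcongr
        refine (measure_mono ?_).trans (measure_union_le _ _)
        rintro x ⟨⟨hx | hx, hx'⟩, hx''⟩
        · exact Or.inl ⟨⟨hx, fun h => hx' (Or.inl h)⟩, mem_Ici.mpr (le_of_max_le_left (mem_Ici.mp hx''))⟩
        · exact Or.inr ⟨⟨hx, fun h => hx' (Or.inr h)⟩, mem_Ici.mpr (le_of_max_le_right (mem_Ici.mp hx''))⟩) (by
    rintro α β h1 h2 T ⟨h3, F, h4, h5⟩
    exact ⟨h3, F, h4, h5.imp id fun ⟨g, h6, h7⟩ => ⟨g, hm α β h1 h2 h6, h7⟩⟩) (by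
    refine Subset.antisymm (fun T hT => ?_) (iUnion₂_subset fun α _ T hT => hT.1)
    choose h hh using fun k : ℕ =>
      tail_small hT (ε := 2⁻¹ ^ k * 2⁻¹ ^ k) (ENNReal.mul_pos (by simp) (by simp))
    obtain ⟨α, hα, g, h1, h2⟩ := hd h
    refine mem_biUnion hα ⟨hT, ∅, finite_empty, Or.inr ⟨g, h1, ?_⟩⟩
    refine tendsto_of_tendsto_of_tendsto_of_le_of_le' tendsto_const_nhds
      (ENNReal.tendsto_pow_atTop_nhds_zero_of_lt_one (r := 2⁻¹) (by simp))
      (Eventually.of_forall fun k => zero_le) ?_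
    filter_upwards [h2] with k hk
    calc 2 ^ k * nu ((T \ ∅) ∩ Ici (g k)) ≤ 2 ^ k * (2⁻¹ ^ k * 2⁻¹ ^ k) := by
          gcongr
          exact (measure_mono (inter_subset_inter sdiff_subset (Ici_subset_Ici.mpr hk))).trans
            (hh k)
      _ = 2⁻¹ ^ k := by
          rw [← mul_assoc, ← mul_pow, ENNReal.mul_inv_cancel (by simp) (by simp), one_pow,
            one_mul]) (by
    intro α hα heq
    obtain ⟨f, hf⟩ := hnd α hα
    choose P hP1 hP2 hP3 using fun k => exists_piece k (max (f k) k)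
    have hT : (⋃ k, P k) ∈ SI := mem_SI.mpr (ne_top_of_le_ne_top geo_ne_top
      ((measure_iUnion_le _).trans (ENNReal.tsum_le_tsum hP2)))
    rw [← heq] at hT
    obtain ⟨-, F, h1, h2⟩ := hT
    obtain ⟨b, hb⟩ := h1.bddAbove
    have hdis : ∀ k, b < k → ∀ x ∈ P k, x ∉ F := fun k hk x hx hF =>
      absurd ((le_of_max_le_right (hP1 k hx)).trans (hb hF)) (not_le.mpr hk)
    rcases h2 with h2 | ⟨g, h2, h3⟩
    · have h4 : P (b + 1) = ∅ := eq_empty_of_forall_notMem fun x hx =>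
        hdis _ (Nat.lt_succ_self b) x hx (h2 (mem_iUnion.mpr ⟨_, hx⟩))
      have h5 := hP3 (b + 1)
      rw [h4, measure_empty] at h5
      simp at h5
    · apply hf g h2
      filter_upwards [h3.eventually (eventually_lt_nhds (show (0 : ℝ≥0∞) < 2⁻¹ by simp)),
        eventually_gt_atTop b] with k hk hbk
      by_contra hlt
      refine absurd hk (not_lt.mpr ?_)
      calc (2⁻¹ : ℝ≥0∞) = 2 ^ k * 2⁻¹ ^ (k + 1) := by
            rw [pow_succ, ← mul_assoc, ← mul_pow, ENNReal.mul_inv_cancel (by simp) (by simp),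
              one_pow, one_mul]
        _ ≤ _ := by
            gcongr
            exact (hP3 k).trans (measure_mono fun x hx => ⟨⟨mem_iUnion.mpr ⟨k, hx⟩,
              hdis k hbk x hx⟩, (not_le.mp hlt).le.trans (le_of_max_le_left (hP1 k hx))⟩))
    ⟨∅, isNatIdeal_SI.1 _ finite_empty⟩
  obtain ⟨ε, h3, h4⟩ := null_of_nat (γ := δ) h2
  exact ⟨ε, h3.trans h1, h4⟩

end Pool.Agent.Lib.MP_145df4_lc.Summ
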